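import Pool.Agent.helper32.DG.Defs
import Pool.Agent.helper32.DF.C5

/-! # B0 : basic facts and auxiliary definitions -/

set_option linter.unusedVariables false
set_option linter.unusedSectionVars false

namespace DG

open Matrix Complex Filter Topology Asymptotics

attribute [local instance] Matrix.normedAddCommGroup Matrix.normedSpace

/-- the matrix with blocks `a`, `z`, `τ'` -/
def blk {n : ℕ} (a : ℂ) (z : Fin n → ℂ) (τ' : Mt n) : Mt (n + 1) :=
  Matrix.of fun i j => Fin.cases (Fin.cases a z j) (fun i' => Fin.cases (z i') (fun j' => τ' i' j') j) i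

/-- the lower right block -/
def lo {n : ℕ} (τ : Mt (n + 1)) : Mt n := τ.submatrix Fin.succ Fin.succ

section basic
variable {n : ℕ}

@[simp] theorem blk_00 (a : ℂ) (z : Fin n → ℂ) (τ' : Mt n) : blk a z τ' 0 0 = a := rfl
@[simp] theorem blk_0s (a : ℂ) (z : Fin n → ℂ) (τ' : Mt n) (i : Fin n) :
    blk a z τ' 0 i.succ = z i := rfl
@[simp] theorem blk_s0 (a : ℂ) (z : Fin n → ℂ) (τ' : Mt n) (i : Fin n) :
    blk a z τ' i.succ 0 = z i := rfl
@[simp] theorem blk_ss (a : ℂ) (z : Fin n → ℂ) (τ' : Mt n) (i j : Fin n) :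
    blk a z τ' i.succ j.succ = τ' i j := rfl
@[simp] theorem lo_apply (τ : Mt (n + 1)) (i j : Fin n) : lo τ i j = τ i.succ j.succ := rfl
@[simp] theorem zz_apply (τ : Mt (n + 1)) (i : Fin n) : zz τ i = τ 0 i.succ := rfl
@[simp] theorem lo_blk (a : ℂ) (z : Fin n → ℂ) (τ' : Mt n) : lo (blk a z τ') = τ' := rfl
@[simp] theorem zz_blk (a : ℂ) (z : Fin n → ℂ) (τ' : Mt n) : zz (blk a z τ') = z := rfl

theorem mt_ext {τ τ' : Mt (n + 1)} (h0 : τ 0 0 = τ' 0 0) (h1 : ∀ i : Fin n, τ 0 i.succ = τ' 0 i.succ)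
    (h2 : ∀ i : Fin n, τ i.succ 0 = τ' i.succ 0)
    (h3 : ∀ i j : Fin n, τ i.succ j.succ = τ' i.succ j.succ) : τ = τ' := by
  ext i j
  refine Fin.cases ?_ (fun i' => ?_) i
  · refine Fin.cases h0 (fun j' => h1 j') j
  · refine Fin.cases (h2 i') (fun j' => h3 i' j') j

theorem blk_eta {τ : Mt (n + 1)} (h : τ.IsSymm) : blk (τ 0 0) (zz τ) (lo τ) = τ := by
  apply mt_ext
  · rfl
  · intro i; rfl
  · intro i
    simp only [blk_s0, zz_apply]
    exact h.apply _ _
  · intro i j; rfl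

theorem symm_eq {g : ℕ} {τ : Mt g} (h : τ.IsSymm) : symm τ = τ := by
  unfold symm
  rw [h.eq, ← two_smul ℂ τ, smul_smul]
  norm_num

theorem symm_isSymm {g : ℕ} (M : Mt g) : (symm M).IsSymm := by
  unfold symm
  rw [Matrix.IsSymm, Matrix.transpose_smul, Matrix.transpose_add, Matrix.transpose_transpose,
    add_comm]

theorem HH_symm {g : ℕ} {τ : Mt g} (h : τ ∈ HH g) : τ.IsSymm := h.1

theorem symm_HH {g : ℕ} {τ : Mt g} (h : τ ∈ HH g) : symm τ = τ := symm_eq h.1

/-- symmetrisation as a continuous linear map -/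
noncomputable def symmL (g : ℕ) : Mt g →L[ℂ] Mt g :=
  LinearMap.toContinuousLinearMap
    { toFun := symm
      map_add' := by
        intro x y
        unfold symm
        rw [Matrix.transpose_add, ← smul_add]
        congr 1
        abel
      map_smul' := by
        intro c x
        unfold symm
        rw [Matrix.transpose_smul, ← smul_add, smul_comm, RingHom.id_apply] }

theorem symmL_apply {g : ℕ} (M : Mt g) : symmL g M = symm M := rfl

theorem continuous_symm {g : ℕ} : Continuous (symm : Mt g → Mt g) := (symmL g).continuous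

theorem im_pos_00 {τ : Mt (n + 1)} (h : τ ∈ HH (n + 1)) : 0 < (τ 0 0).im := by
  have := h.2.diag_pos (i := 0)
  simpa using this

theorem HH_lo {τ : Mt (n + 1)} (h : τ ∈ HH (n + 1)) : lo τ ∈ HH n := by
  refine ⟨?_, ?_⟩
  · ext i j
    exact h.1.apply _ _
  · have := h.2.submatrix (Fin.succ_injective n)
    exact this


theorem HH_of_lower {g : ℕ} {τ : Mt g} (hs : τ.IsSymm) {c : ℝ} (hc : 0 < c)
    (h : ∀ x : Fin g → ℝ, c * ∑ i, x i ^ 2 ≤ x ⬝ᵥ ((τ.map Complex.im) *ᵥ x)) : τ ∈ HH g := by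
  refine ⟨hs, PosDef.of_dotProduct_mulVec_pos ?_ ?_⟩
  · ext j k
    simp only [conjTranspose_apply, Matrix.map_apply, star_trivial]
    rw [hs.apply j k]
  · intro x hx
    have h1 := h x
    have h2 : 0 < ∑ i, x i ^ 2 := by
      obtain ⟨i, hi⟩ := Function.ne_iff.1 hx
      have hi' : x i ≠ 0 := by simpa using hi
      exact Finset.sum_pos' (fun i _ => sq_nonneg _) ⟨i, Finset.mem_univ _, by positivity⟩
    have h3 : 0 < x ⬝ᵥ ((τ.map Complex.im) *ᵥ x) := lt_of_lt_of_le (by positivity) h1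
    simpa using h3

/-- near a point of `H_g` there is a uniform lower bound of the imaginary part -/
theorem lower_nhds {g : ℕ} {p : Mt g} (h : p ∈ HH g) : ∃ c > 0, ∃ δ > 0, ∀ τ : Mt g,
    ‖τ - p‖ ≤ δ → ∀ x : Fin g → ℝ, c * ∑ i, x i ^ 2 ≤ x ⬝ᵥ ((τ.map Complex.im) *ᵥ x) := by
  obtain ⟨c, hc, δ, hδ, h1⟩ := DF.posdef_lower_nhds p h.2
  refine ⟨c, hc, δ, hδ, fun τ hτ => h1 τ fun i j => ?_⟩
  have := Matrix.norm_entry_le_entrywise_sup_norm (τ - p) (i := i) (j := j)
  simpa using this.trans hτ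

/-- symmetric matrices near a point of `H_g` are in `H_g` -/
theorem mem_nhds {g : ℕ} {p : Mt g} (h : p ∈ HH g) : ∀ᶠ τ in 𝓝 p, τ.IsSymm → τ ∈ HH g := by
  obtain ⟨c, hc, δ, hδ, h1⟩ := lower_nhds h
  filter_upwards [Metric.closedBall_mem_nhds p hδ] with τ hτ hs
  refine HH_of_lower hs hc (h1 τ ?_)
  rwa [Metric.mem_closedBall, dist_eq_norm] at hτ

theorem isOpen_U (g : ℕ) : IsOpen {M : Mt g | symm M ∈ HH g} := by
  rw [isOpen_iff_mem_nhds]
  intro M hM
  have h1 := mem_nhds (hM : symm M ∈ HH g)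
  have h2 := (continuous_symm (g := g)).continuousAt.eventually h1
  filter_upwards [h2] with N hN
  exact hN (symm_isSymm N)

theorem HH_blk {a : ℂ} (ha : 0 < a.im) {τ' : Mt n} (h : τ' ∈ HH n) : blk a 0 τ' ∈ HH (n + 1) := by
  obtain ⟨c, hc, h1⟩ := DF.posdef_lower _ h.2
  have hsym : (blk a 0 τ').IsSymm := by
    apply mt_ext
    · rfl
    · intro i; rfl
    · intro i; rfl
    · intro i j; exact h.1.apply _ _
  refine HH_of_lower (c := min a.im c) hsym (lt_min ha hc) fun x => ?_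
  have h2 := h1 (fun i => x i.succ)
  have h3 : x ⬝ᵥ (((blk a 0 τ').map Complex.im) *ᵥ x) =
      a.im * x 0 ^ 2 + (fun i : Fin n => x i.succ) ⬝ᵥ ((τ'.map Complex.im) *ᵥ fun i => x i.succ) := by
    simp only [dotProduct, mulVec, Fin.sum_univ_succ, Matrix.map_apply, blk_00, blk_0s, blk_s0,
      blk_ss, Pi.zero_apply, Complex.zero_im, zero_mul, Finset.sum_const_zero, add_zero, zero_add]
    ring
  rw [h3, Fin.sum_univ_succ, mul_add]
  refine add_le_add ?_ ?_
  · exact mul_le_mul_of_nonneg_right (min_le_left _ _) (sq_nonneg _)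
  · refine le_trans ?_ h2
    exact mul_le_mul_of_nonneg_right (min_le_right _ _)
      (Finset.sum_nonneg fun i _ => sq_nonneg _)

theorem blk_of_Blk {τ : Mt (n + 1)} (h : τ ∈ HH (n + 1)) (hB : Blk τ) :
    τ = blk (τ 0 0) 0 (lo τ) := by
  conv_lhs => rw [← blk_eta h.1]
  congr 1
  funext i
  exact hB i

theorem Blk_blk (a : ℂ) (τ' : Mt n) : Blk (blk a 0 τ') := fun i => rfl

theorem act_mem {g : ℕ} {γ : Matrix (Fin g ⊕ Fin g) (Fin g ⊕ Fin g) ℤ}
    (hγ : γ ∈ Matrix.symplecticGroup (Fin g) ℤ) {τ : Mt g} (h : τ ∈ HH g) : DF.act γ τ ∈ HH g :=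
  (DF.unit_act γ hγ τ h).2

theorem den_ne {g : ℕ} {γ : Matrix (Fin g ⊕ Fin g) (Fin g ⊕ Fin g) ℤ}
    (hγ : γ ∈ Matrix.symplecticGroup (Fin g) ℤ) {τ : Mt g} (h : τ ∈ HH g) :
    (DF.den γ τ).det ≠ 0 := (DF.unit_act γ hγ τ h).1.ne_zero

theorem continuous_den {g : ℕ} (γ : Matrix (Fin g ⊕ Fin g) (Fin g ⊕ Fin g) ℤ) :
    Continuous fun τ : Mt g => DF.den γ τ := by
  unfold DF.den
  fun_prop

theorem continuous_num {g : ℕ} (γ : Matrix (Fin g ⊕ Fin g) (Fin g ⊕ Fin g) ℤ) :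
    Continuous fun τ : Mt g => DF.num γ τ := by
  unfold DF.num
  fun_prop

theorem continuousAt_act {g : ℕ} {γ : Matrix (Fin g ⊕ Fin g) (Fin g ⊕ Fin g) ℤ}
    (hγ : γ ∈ Matrix.symplecticGroup (Fin g) ℤ) {p : Mt g} (h : p ∈ HH g) :
    ContinuousAt (fun τ : Mt g => DF.act γ τ) p := by
  unfold DF.act
  refine ((continuous_num γ).continuousAt).mul ?_
  have h1 : ContinuousAt (fun M : Mt g => M⁻¹) (DF.den γ p) := by
    have h2 : (fun M : Mt g => M⁻¹) = fun M => (M.det)⁻¹ • M.adjugate := by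
      funext M
      rw [Matrix.inv_def, Ring.inverse_eq_inv']
    rw [h2]
    have h3 : ContinuousAt (fun M : Mt g => (M.det)⁻¹) (DF.den γ p) :=
      ContinuousAt.inv₀ (Continuous.matrix_det continuous_id).continuousAt (den_ne hγ h)
    have h4 : ContinuousAt (fun M : Mt g => M.adjugate) (DF.den γ p) :=
      (Continuous.matrix_adjugate continuous_id).continuousAt
    exact h3.smul h4
  exact ContinuousAt.comp (f := fun τ : Mt g => DF.den γ τ) h1 (continuous_den γ).continuousAt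

theorem tendsto_act {g : ℕ} {γ : Matrix (Fin g ⊕ Fin g) (Fin g ⊕ Fin g) ℤ}
    (hγ : γ ∈ Matrix.symplecticGroup (Fin g) ℤ) {p : Mt g} (h : p ∈ HH g) :
    Tendsto (fun τ : Mt g => DF.act γ τ) (𝓝[HH g] p) (𝓝[HH g] (DF.act γ p)) := by
  refine tendsto_nhdsWithin_iff.2 ⟨(continuousAt_act hγ h).tendsto.mono_left nhdsWithin_le_nhds, ?_⟩
  filter_upwards [self_mem_nhdsWithin] with τ hτ
  exact act_mem hγ hτ

theorem Hol.continuousAt {g : ℕ} {f : Mt g → ℂ} (hf : Hol g f) {p : Mt g} (h : p ∈ HH g) :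
    ContinuousWithinAt f (HH g) p := by
  have h1 : ContinuousAt (fun M : Mt g => f (symm M)) p :=
    (hf p (by rw [Set.mem_ofPred_eq, symm_HH h]; exact h)).continuousAt
  have h2 : ContinuousWithinAt (fun M : Mt g => f (symm M)) (HH g) p := h1.continuousWithinAt
  refine h2.congr (fun τ hτ => by rw [symm_HH hτ]) (by rw [symm_HH h])

end basic

end DG
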