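import Pool.Agent.helper32.DG.B0

/-!
# C0 : definitions for the proof

NOTATION. For `τ ∈ H_(n+1)`: `τ 0 0`, `zz τ` (off-diagonal part of the first row), `lo τ` (lower right
block), `τ = blk (τ 0 0) (zz τ) (lo τ)`.
`PJ f k h N τ = ∑_{j<N} f^(j)(τ 0 0) · (d/ds)^j h(lo τ + s z zᵀ)|_{s=0} / (j! (k)_j)`, `z = zz τ`:
the canonical extension of `f ⊗ h` from `H_1 × H_n`, `f` and `h` modular of weight `k`.
-/

set_option linter.unusedVariables false
set_option linter.unusedSectionVars false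

namespace DG

open Matrix Complex Filter Topology Asymptotics

attribute [local instance] Matrix.normedAddCommGroup Matrix.normedSpace

/-- the discriminant `Δ = η ^ 24`, a function on `ℂ` (meaningful in the upper half plane) -/
noncomputable def Dl (z : ℂ) : ℂ := ModularForm.eta z ^ 24

/-- `j`-th derivative of `s ↦ h (τ' + s z zᵀ)` at `s = 0` -/
noncomputable def Dz {n : ℕ} (h : Mt n → ℂ) (j : ℕ) (z : Fin n → ℂ) (τ' : Mt n) : ℂ :=
  iteratedDeriv j (fun s : ℂ => h (τ' + s • vecMulVec z z)) 0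

/-- the constant `j! (k)_j` -/
def cst (k j : ℕ) : ℂ := ((j.factorial * k.ascFactorial j : ℕ) : ℂ)

/-- the canonical extension -/
noncomputable def PJ {n : ℕ} (f : ℂ → ℂ) (k : ℕ) (h : Mt n → ℂ) (N : ℕ) (τ : Mt (n + 1)) : ℂ :=
  ∑ j ∈ Finset.range N, iteratedDeriv j f (τ 0 0) * Dz h j (zz τ) (lo τ) / cst k j

/-- the canonical extension of `Δ^m ⊗ h`, with the terms of degree `< K` in `z` -/
noncomputable def CJ {n : ℕ} (m : ℕ) (h : Mt n → ℂ) (K : ℕ) (τ : Mt (n + 1)) : ℂ :=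
  PJ (fun x => Dl x ^ m) (12 * m) h ((K + 1) / 2) τ

/-- the properties of `f = Δ^m` used for the canonical extension, `k = 12 m` -/
structure ModOne (k : ℕ) (f : ℂ → ℂ) : Prop where
  holo : AnalyticOnNhd ℂ f {z | 0 < z.im}
  per : ∀ z : ℂ, 0 < z.im → f (z + 1) = f z
  inv : ∀ z : ℂ, 0 < z.im → f (-1 / z) = z ^ k * f z

/-- `F` is canonical along `H_1 × H_n` to order `K` -/
def CanP : (g m K : ℕ) → (Mt g → ℂ) → Prop
  | 0, _, _, _ => True
  | n + 1, m, K, F => ∃ h0 : Mt n → ℂ, Hol n h0 ∧ ∀ p ∈ HH (n + 1), Blk p →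
      (fun τ => F τ - CJ m h0 K τ) =O[𝓝[HH (n + 1)] p] fun τ => ‖zz τ‖ ^ K

/-- index of the first coordinate pair -/
def isz {n : ℕ} : Fin (n + 1) ⊕ Fin (n + 1) → Prop
  | Sum.inl i => i = 0
  | Sum.inr i => i = 0

/-- `γ` is block diagonal for the decomposition `1 + n` -/
def StabM {n : ℕ} (γ : Matrix (Fin (n + 1) ⊕ Fin (n + 1)) (Fin (n + 1) ⊕ Fin (n + 1)) ℤ) : Prop :=
  ∀ x y, ¬ (isz x ↔ isz y) → γ x y = 0

/-- exchange of the first two coordinates -/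
def swp {n : ℕ} : Matrix (Fin (n + 2)) (Fin (n + 2)) ℤ :=
  (Equiv.swap (0 : Fin (n + 2)) 1).toPEquiv.toMatrix

/-- the corresponding symplectic matrix -/
def SW {n : ℕ} : Matrix (Fin (n + 2) ⊕ Fin (n + 2)) (Fin (n + 2) ⊕ Fin (n + 2)) ℤ :=
  DF.gU swp swp

/-- multiplication of the off-diagonal part of the first row by `t` -/
def sc {n : ℕ} (t : ℂ) (τ : Mt (n + 1)) : Mt (n + 1) := blk (τ 0 0) (t • zz τ) (lo τ)

/-- multiplication of the off-diagonal parts of the first two rows by `t` -/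
def sc2 {n : ℕ} (t : ℂ) (τ : Mt (n + 2)) : Mt (n + 2) := blk (τ 0 0) (t • zz τ) (sc t (lo τ))

/-- `J` is compatible with `γ` to order `K` at the points of `H_1 × H_n` -/
def Comp {n : ℕ} (k K : ℕ) (J : Mt (n + 1) → ℂ)
    (γ : Matrix (Fin (n + 1) ⊕ Fin (n + 1)) (Fin (n + 1) ⊕ Fin (n + 1)) ℤ) : Prop :=
  ∀ p ∈ HH (n + 1), Blk p → (fun τ => J (DF.act γ τ) - (DF.den γ τ).det ^ k * J τ)
    =O[𝓝[HH (n + 1)] p] fun τ => ‖zz τ‖ ^ K

end DG
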