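import Mathlib
import Pool.Agent.helper32.DF.Defs

/-!
# MP_df63b8_ag : semi-ampleness of `12 M - D`.  Definitions.

`X_g` is the perfect cone compactification of `A_g`.  Its points are represented by pairs `(τ, Y)`,
where `τ` is in Siegel's upper half space `H_g` and `Y` is a finite sum `∑ l_v v vᵀ` with `l_v ≥ 0` and
`v` integral: `(τ, Y)` stands for the limit of `τ + i l Y` as `l → ∞`.
-/

set_option linter.unusedVariables false
set_option linter.unusedSectionVars false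

namespace DG

open Matrix Complex Filter Topology Asymptotics

attribute [local instance] Matrix.normedAddCommGroup Matrix.normedSpace

/-- `g × g` complex matrices -/
abbrev Mt (g : ℕ) : Type := Matrix (Fin g) (Fin g) ℂ

/-- Siegel's upper half space `H_g` -/
def HH (g : ℕ) : Set (Mt g) := DF.Hg (Fin g)

/-- the symmetric part of a matrix -/
noncomputable def symm {g : ℕ} (M : Mt g) : Mt g := (1 / 2 : ℂ) • (M + Mᵀ)

/-- `f` is holomorphic on `H_g` (as a function of the symmetrised matrix entries) -/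
def Hol (g : ℕ) (f : Mt g → ℂ) : Prop :=
  AnalyticOnNhd ℂ (fun M : Mt g => f (symm M)) {M | symm M ∈ HH g}

/-- the matrix `v vᵀ`, `v` an integral vector -/
def rk {g : ℕ} (v : Fin g → ℤ) : Mt g := Matrix.of fun i j => (v i : ℂ) * v j

/-- `f` is a Siegel modular form of degree `g` and weight `w` for `Sp_2g(ℤ)` which vanishes to order at
least `k` along the boundary divisor `D`, i.e. a section of `w M - k D`. -/
structure IsSec (g w k : ℕ) (f : Mt g → ℂ) : Prop where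
  holo : Hol g f
  modular : ∀ γ ∈ Matrix.symplecticGroup (Fin g) ℤ, ∀ τ ∈ HH g,
    f (DF.act γ τ) = (DF.den γ τ).det ^ w * f τ
  cusp : ∀ τ ∈ HH g, ∀ v : Fin g → ℤ, v ≠ 0 → ∃ C : ℝ, ∀ t : ℂ, 0 ≤ t.im →
    ‖f (τ + t • rk v)‖ ≤ C * Real.exp (-2 * Real.pi * (k : ℝ) * t.im)

/-- `Y = ∑ l_v v vᵀ` with `l_v ≥ 0` and integral vectors `v ≠ 0`, and `c = ∑ l_v` -/
def IsRep {g : ℕ} (Y : Matrix (Fin g) (Fin g) ℝ) (c : ℝ) : Prop :=
  ∃ (s : Finset (Fin g → ℤ)) (l : (Fin g → ℤ) → ℝ), (∀ v ∈ s, v ≠ 0 ∧ 0 ≤ l v) ∧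
    Y = ∑ v ∈ s, l v • Matrix.of (fun i j => (v i : ℝ) * v j) ∧ c = ∑ v ∈ s, l v

/-- `Y` is in the rational closure of the cone of positive definite real symmetric matrices -/
def InCone {g : ℕ} (Y : Matrix (Fin g) (Fin g) ℝ) : Prop := ∃ c, IsRep Y c

/-- The piecewise linear function of the perfect cone decomposition with value `1` at `v vᵀ` for all
primitive `v`: the largest total weight `∑ l_v` in a representation `Y = ∑ l_v v vᵀ`. -/
noncomputable def DD {g : ℕ} (Y : Matrix (Fin g) (Fin g) ℝ) : ℝ := sSup {c | IsRep Y c}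

/-- the point `τ + i l Y` -/
noncomputable def pt {g : ℕ} (τ : Mt g) (Y : Matrix (Fin g) (Fin g) ℝ) (l : ℝ) : Mt g :=
  τ + ((l : ℂ) * I) • Y.map (fun y : ℝ => (y : ℂ))

/-- the section `f` of `w M - k D` is not zero at the point `(τ, Y)` of `X_g` -/
def NonzeroAt {g : ℕ} (k : ℕ) (f : Mt g → ℂ) (τ : Mt g) (Y : Matrix (Fin g) (Fin g) ℝ) : Prop :=
  ∃ c : ℂ, c ≠ 0 ∧ Tendsto (fun l : ℝ =>
    f (pt τ Y l) * (Real.exp (2 * Real.pi * (k : ℝ) * l * DD Y) : ℂ)) atTop (𝓝 c)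

/-- the off-diagonal block of `τ` for the decomposition `1 + n` -/
def zz {n : ℕ} (τ : Mt (n + 1)) : Fin n → ℂ := fun i => τ 0 i.succ

/-- `τ` is block diagonal `1 + n`: it lies on `H_1 × H_n` -/
def Blk {n : ℕ} (τ : Mt (n + 1)) : Prop := ∀ i : Fin n, τ 0 i.succ = 0

/-- `(τ, Y)` is in the closure of `A_1 × A_n`: up to `Sp(ℤ)`, `τ` and `Y` are block diagonal `1 + n` -/
def Split {n : ℕ} (τ : Mt (n + 1)) (Y : Matrix (Fin (n + 1)) (Fin (n + 1)) ℝ) : Prop :=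
  ∃ γ ∈ Matrix.symplecticGroup (Fin (n + 1)) ℤ, ∃ τ₁ ∈ HH (n + 1), ∃ Y₁ : Matrix _ _ ℝ,
    Blk τ₁ ∧ (∀ i : Fin n, Y₁ 0 i.succ = 0) ∧ Y₁.IsSymm ∧
    ∀ l : ℝ, 0 ≤ l → DF.act γ (pt τ Y l) = pt τ₁ Y₁ l

/-- Shepherd-Barron (2016): each point of `X_(n+1)` which is not in the closure of `A_1 × A_n` is outside
the augmented base locus of `12 M - D`; so there is a modular form of slope `< 12` which is not zero at
this point. -/
def ShepherdBarron (n : ℕ) : Prop :=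
  ∀ τ ∈ HH (n + 1), ∀ Y : Matrix (Fin (n + 1)) (Fin (n + 1)) ℝ, InCone Y → ¬ Split τ Y →
    ∃ (w k : ℕ) (f : Mt (n + 1) → ℂ), w < 12 * k ∧ IsSec (n + 1) w k f ∧ NonzeroAt k f τ Y

/-- the symmetric matrix with off-diagonal block `ζ` and zeros elsewhere -/
def offd {n : ℕ} (ζ : Fin n → ℂ) : Mt (n + 1) :=
  Matrix.of fun i j => Fin.cases (Fin.cases 0 ζ j) (fun i' => Fin.cases (ζ i') (fun _ => 0) j) i

/-- The `K`-jet of `J` along the closure of `A_1 × A_n` is a section of `m (12 M - D)` on the `K`-th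
thickening: (1) `J | γ` and `J` agree to order `K` where the translate by `γ` of `H_1 × H_n` meets
`H_1 × H_n`; (2) the Taylor coefficients of `J` of order `< K` along `H_1 × H_n` vanish to order `≥ m`
at the rank one cusps of `H_1 × H_n`. -/
structure IsJet (n m K : ℕ) (J : Mt (n + 1) → ℂ) : Prop where
  holo : Hol (n + 1) J
  compat : ∀ γ ∈ Matrix.symplecticGroup (Fin (n + 1)) ℤ, ∀ p ∈ HH (n + 1), Blk p → Blk (DF.act γ p) →
    (fun τ => J (DF.act γ τ) - (DF.den γ τ).det ^ (12 * m) * J τ) =O[𝓝[HH (n + 1)] p]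
      fun τ => ‖zz τ‖ ^ K + ‖zz (DF.act γ τ)‖ ^ K
  cusp : ∀ j < K, ∀ ζ : Fin n → ℂ, ∀ τ ∈ HH (n + 1), Blk τ → ∀ w : Fin (n + 1) → ℤ, w ≠ 0 →
    (w 0 = 0 ∨ ∀ i : Fin n, w i.succ = 0) → ∃ C : ℝ, ∀ t : ℂ, 0 ≤ t.im →
    ‖iteratedDeriv j (fun s : ℂ => J (τ + t • rk w + s • offd ζ)) 0‖ ≤
      C * Real.exp (-2 * Real.pi * (m : ℝ) * t.im)

/-- Extension from thickenings of the augmented base locus (Fujita's vanishing theorem, 1983): for each
`k` there are `K` and `N` such that for all `m` divisible by `N` each section of `m (12 M - D)` over the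
`K`-th thickening of the closure of `A_1 × A_n` agrees to order `k` with a section over `X_(n+1)`. -/
def Extension (n : ℕ) : Prop :=
  ∀ k : ℕ, ∃ K N : ℕ, 1 ≤ N ∧ ∀ m : ℕ, 1 ≤ m → N ∣ m → ∀ J : Mt (n + 1) → ℂ, IsJet n m K J →
    ∃ F : Mt (n + 1) → ℂ, IsSec (n + 1) (12 * m) m F ∧ ∀ p ∈ HH (n + 1), Blk p →
      (fun τ => F τ - J τ) =O[𝓝[HH (n + 1)] p] fun τ => ‖zz τ‖ ^ k

end DG
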