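import Pool.Agent.helper32.DG.C0

/-!
# E01 : derivatives with respect to a parameter

PROOF. Induction on `j`.  Let `G_j (s, x) = iteratedDeriv j (fun s => G (s, x)) s`, analytic at `(s0, x0)` by
induction, hence analytic at all points of a neighbourhood.  `iteratedDeriv_succ`: `G_(j+1) (s, x)` is the
derivative of `s ↦ G_j (s, x)`, which near `(s0, x0)` equals `fderiv ℂ G_j (s, x) (1, 0)` (chain rule with
`s ↦ (s, x)`), and `AnalyticAt.fderiv` composed with the evaluation at `(1, 0)` is analytic.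
`analyticAt_param'` : restrict to `s = s0` (compose with `x ↦ (s0, x)`).
-/

set_option linter.unusedVariables false
set_option linter.unusedSectionVars false

namespace DG

open Matrix Complex Filter Topology Asymptotics

attribute [local instance] Matrix.normedAddCommGroup Matrix.normedSpace

theorem analyticAt_param {E : Type*} [NormedAddCommGroup E] [NormedSpace ℂ E] [CompleteSpace E]
    (G : ℂ × E → ℂ) (s0 : ℂ) (x0 : E) (hG : AnalyticAt ℂ G (s0, x0)) (j : ℕ) :
    AnalyticAt ℂ (fun q : ℂ × E => iteratedDeriv j (fun s => G (s, q.2)) q.1) (s0, x0) := by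
  induction j with
  | zero =>
    have h : (fun q : ℂ × E => iteratedDeriv 0 (fun s => G (s, q.2)) q.1) = G := by
      funext q
      rw [iteratedDeriv_zero]
    rw [h]
    exact hG
  | succ j ih =>
    set Gj : ℂ × E → ℂ := fun q => iteratedDeriv j (fun s => G (s, q.2)) q.1 with hGj
    have h1 : AnalyticAt ℂ (fun q : ℂ × E => fderiv ℂ Gj q (1, 0)) (s0, x0) :=
      ((ContinuousLinearMap.apply ℂ ℂ ((1 : ℂ), (0 : E))).analyticAt _).comp ih.fderiv
    refine h1.congr ?_
    filter_upwards [ih.eventually_analyticAt] with q hq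
    have h2 : HasFDerivAt Gj (fderiv ℂ Gj q) q := hq.differentiableAt.hasFDerivAt
    have h3 : HasDerivAt (fun s : ℂ => (s, q.2)) ((1 : ℂ), (0 : E)) q.1 :=
      (hasDerivAt_id q.1).prodMk (hasDerivAt_const q.1 q.2)
    have h4 : HasDerivAt (fun s : ℂ => Gj (s, q.2)) (fderiv ℂ Gj q (1, 0)) q.1 := by
      have h5 : HasFDerivAt Gj (fderiv ℂ Gj q) ((fun s : ℂ => (s, q.2)) q.1) := h2
      exact h5.comp_hasDerivAt q.1 h3
    change fderiv ℂ Gj q (1, 0) = iteratedDeriv (j + 1) (fun s => G (s, q.2)) q.1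
    rw [iteratedDeriv_succ]
    exact h4.deriv.symm

theorem analyticAt_param' {E : Type*} [NormedAddCommGroup E] [NormedSpace ℂ E] [CompleteSpace E]
    (G : ℂ × E → ℂ) (s0 : ℂ) (x0 : E) (hG : AnalyticAt ℂ G (s0, x0)) (j : ℕ) :
    AnalyticAt ℂ (fun x : E => iteratedDeriv j (fun s => G (s, x)) s0) x0 := by
  have h1 := analyticAt_param G s0 x0 hG j
  have h2 : AnalyticAt ℂ (fun x : E => (s0, x)) x0 := analyticAt_const.prod analyticAt_id
  exact AnalyticAt.comp (f := fun x : E => (s0, x))
    (g := fun q : ℂ × E => iteratedDeriv j (fun s => G (s, q.2)) q.1) h1 h2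

end DG
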