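import Pool.Agent.helper32.DG.C0

/-!
# E02 : holomorphic functions on `H_g`

`Hol g f` says that `f ∘ symm` is analytic on the open set `{M | symm M ∈ HH g}` (`isOpen_U`).
PROOF. `add`, `mul`, ...: the same statements for `AnalyticOnNhd`.
`comp_act`: `M ↦ act γ (symm M) = num γ (symm M) * (den γ (symm M))⁻¹` is analytic on this set (entries of the
inverse are `det⁻¹` times polynomials, `Matrix.inv_def`, `den_ne`; see `continuousAt_act` in B0), its values
are in `HH g` (`act_mem`), hence symmetric, and `symm (act γ (symm M)) = act γ (symm M)` (`symm_HH`), so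
`J (act γ (symm M)) = (J ∘ symm) (act γ (symm M))` is a composition of analytic maps.
`congr`: `AnalyticOnNhd.congr` on the open set.
-/

set_option linter.unusedVariables false
set_option linter.unusedSectionVars false

namespace DG

open Matrix Complex Filter Topology Asymptotics

attribute [local instance] Matrix.normedAddCommGroup Matrix.normedSpace

theorem Hol.add {g : ℕ} {f f' : Mt g → ℂ} (h : Hol g f) (h' : Hol g f') :
    Hol g (fun τ => f τ + f' τ) :=
  AnalyticOnNhd.add h h'

theorem Hol.sub {g : ℕ} {f f' : Mt g → ℂ} (h : Hol g f) (h' : Hol g f') :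
    Hol g (fun τ => f τ - f' τ) :=
  AnalyticOnNhd.sub h h'

theorem Hol.mul {g : ℕ} {f f' : Mt g → ℂ} (h : Hol g f) (h' : Hol g f') :
    Hol g (fun τ => f τ * f' τ) :=
  AnalyticOnNhd.mul h h'

theorem Hol.pow {g : ℕ} {f : Mt g → ℂ} (h : Hol g f) (a : ℕ) : Hol g (fun τ => f τ ^ a) :=
  AnalyticOnNhd.pow h a

theorem Hol.const (g : ℕ) (c : ℂ) : Hol g (fun _ => c) := by
  intro M _
  exact analyticAt_const

theorem Hol.sum {g : ℕ} {ι : Type*} (s : Finset ι) (f : ι → Mt g → ℂ) (h : ∀ i ∈ s, Hol g (f i)) :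
    Hol g (fun τ => ∑ i ∈ s, f i τ) := by
  classical
  induction s using Finset.induction_on with
  | empty =>
    simp only [Finset.sum_empty]
    exact Hol.const g 0
  | insert a s ha ih =>
    simp only [Finset.sum_insert ha]
    exact (h a (Finset.mem_insert_self _ _)).add (ih fun i hi => h i (Finset.mem_insert_of_mem hi))

private theorem E02_prod {g : ℕ} {ι : Type*} (s : Finset ι) (f : ι → Mt g → ℂ)
    (h : ∀ i ∈ s, Hol g (f i)) : Hol g (fun τ => ∏ i ∈ s, f i τ) := by
  classical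
  induction s using Finset.induction_on with
  | empty =>
    simp only [Finset.prod_empty]
    exact Hol.const g 1
  | insert a s ha ih =>
    simp only [Finset.prod_insert ha]
    exact (h a (Finset.mem_insert_self _ _)).mul (ih fun i hi => h i (Finset.mem_insert_of_mem hi))

theorem Hol.congr {g : ℕ} {f f' : Mt g → ℂ} (h : Hol g f) (he : ∀ τ ∈ HH g, f τ = f' τ) :
    Hol g f' :=
  AnalyticOnNhd.congr (isOpen_U g) h fun M hM => he _ hM

theorem Hol.entry {g : ℕ} (i j : Fin g) : Hol g (fun τ => τ i j) := by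
  intro M _
  exact ((LinearMap.toContinuousLinearMap (Matrix.entryLinearMap ℂ ℂ i j)).comp
    (symmL g)).analyticAt M

private theorem E02_inv {g : ℕ} {f : Mt g → ℂ} (h : Hol g f) (h0 : ∀ τ ∈ HH g, f τ ≠ 0) :
    Hol g (fun τ => (f τ)⁻¹) := by
  intro M hM
  exact (h M hM).inv (h0 _ hM)

private theorem E02_det {g m : ℕ} {F : Mt g → Matrix (Fin m) (Fin m) ℂ}
    (h : ∀ i j, Hol g (fun τ => F τ i j)) : Hol g (fun τ => (F τ).det) := by
  simp only [Matrix.det_apply']
  refine Hol.sum _ _ fun σ _ => ?_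
  exact (Hol.const g _).mul (E02_prod _ _ fun i _ => h _ _)

private theorem E02_aff {g : ℕ} (C D : Mt g) (i j : Fin g) :
    Hol g (fun τ => (C * τ + D) i j) := by
  simp only [Matrix.add_apply, Matrix.mul_apply]
  exact (Hol.sum _ _ fun k _ => (Hol.const g _).mul (Hol.entry k j)).add (Hol.const g _)

private theorem E02_den {g : ℕ} (γ : Matrix (Fin g ⊕ Fin g) (Fin g ⊕ Fin g) ℤ) (i j : Fin g) :
    Hol g (fun τ => DF.den γ τ i j) := E02_aff _ _ i j

theorem Hol.den_det {g : ℕ} (γ : Matrix (Fin g ⊕ Fin g) (Fin g ⊕ Fin g) ℤ) :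
    Hol g (fun τ => (DF.den γ τ).det) :=
  E02_det fun i j => E02_den γ i j

private theorem E02_act {g : ℕ} {γ : Matrix (Fin g ⊕ Fin g) (Fin g ⊕ Fin g) ℤ}
    (hγ : γ ∈ Matrix.symplecticGroup (Fin g) ℤ) (i j : Fin g) :
    Hol g (fun τ => DF.act γ τ i j) := by
  have h1 : ∀ τ : Mt g, DF.act γ τ i j = ∑ k, DF.num γ τ i k *
      ((DF.den γ τ).det⁻¹ * (DF.den γ τ).adjugate k j) := by
    intro τ
    unfold DF.act
    rw [Matrix.mul_apply]
    refine Finset.sum_congr rfl fun k _ => ?_
    rw [Matrix.inv_def, Ring.inverse_eq_inv', Matrix.smul_apply, smul_eq_mul]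
  simp only [h1]
  refine Hol.sum _ _ fun k _ => (E02_aff _ _ i k).mul
    ((E02_inv (Hol.den_det γ) fun τ hτ => den_ne hγ hτ).mul ?_)
  simp only [Matrix.adjugate_apply]
  refine E02_det fun a b => ?_
  by_cases ha : a = j
  · subst ha
    simp only [Matrix.updateRow_self]
    exact Hol.const g _
  · simp only [Matrix.updateRow_ne ha]
    exact E02_den γ a b

theorem Hol.comp_act {g : ℕ} {J : Mt g → ℂ} (hJ : Hol g J)
    {γ : Matrix (Fin g ⊕ Fin g) (Fin g ⊕ Fin g) ℤ} (hγ : γ ∈ Matrix.symplecticGroup (Fin g) ℤ) :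
    Hol g (fun τ => J (DF.act γ τ)) := by
  have h1 : Hol g (fun τ => J (symm (DF.act γ τ))) := by
    intro M hM
    have h2 : AnalyticAt ℂ (fun N : Mt g => DF.act γ (symm N)) M := by
      refine analyticAt_pi_iff.2 fun i => analyticAt_pi_iff.2 fun j => ?_
      exact E02_act hγ i j M hM
    have h3 : symm (DF.act γ (symm M)) ∈ HH g := by
      rw [symm_HH (act_mem hγ hM)]
      exact act_mem hγ hM
    exact AnalyticAt.comp (g := fun N : Mt g => J (symm N))
      (f := fun N : Mt g => DF.act γ (symm N)) (x := M) (hJ (DF.act γ (symm M)) h3) h2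
  refine h1.congr fun τ hτ => ?_
  rw [symm_HH (act_mem hγ hτ)]

/-- the entries of `act γ τ` are holomorphic -/
theorem Hol.act_entry {g : ℕ} {γ : Matrix (Fin g ⊕ Fin g) (Fin g ⊕ Fin g) ℤ}
    (hγ : γ ∈ Matrix.symplecticGroup (Fin g) ℤ) (i j : Fin g) :
    Hol g (fun τ => DF.act γ τ i j) :=
  (Hol.entry i j).comp_act hγ

end DG
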