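import Pool.Agent.helper32.DG.C0

/-!
# E03a : vanishing orders along the block diagonal locus are tested on rays

PROOF of `radial`. If `K = 0`: `u` is bounded near `p` (continuity).  Let `K ≥ 1`.
Choose `R > 0`, `M` with `u` analytic on `ball p (2 R)` and `‖u‖ ≤ M` on `closedBall p R`.  Let `C = ‖P‖ + 1`.
Let `x` be so near to `p` that the hypothesis holds at `x` and `‖x - P x - p‖ ≤ R / 2`
(`x - P x - p = (x - p) - P (x - p)`), `‖P x‖ = ‖P (x - p)‖ < R / 4`.
If `P x = 0` then `g t = u (x - P x + t • P x)` is constant `= u x` and `O(t ^ K)`, so `u x = 0`.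
If `P x ≠ 0` let `ρ = R / (2 ‖P x‖) > 2`: `g` is analytic on `‖t‖ < ρ`, bounded by `M` and `O(t ^ K)` at
`0`, so `‖g 1‖ ≤ M / ρ ^ K = M (2 / R) ^ K ‖P x‖ ^ K` (the function `g t / t ^ K`, suitably extended at `0`, is
analytic on the disc, maximum principle; or `g t = t ^ K g₁ t` with `g₁` analytic).  `g 1 = u x`.
`radial_zz`: apply it to `u ∘ symm` at `p` and `P M = offd (zz (symm M))` (continuous linear,
`symm (M - P M + t • P M) = sc t (symm M)`, `P p = 0`), `‖P M‖ ≤ ‖zz (symm M)‖`, then restrict to `HH`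
where `symm τ = τ`; the hypothesis holds for all `M` with `symm M ∈ HH`, an open set (`isOpen_U`).
`radial_sc2`: the same with `P M` = the part of `symm M` outside of the diagonal in the rows and columns
`0`, `1`; `symm (M - P M + t • P M) = sc2 t (symm M)`, `‖P M‖ ≤ ‖zz (symm M)‖ + ‖zz (lo (symm M))‖`.
-/

set_option linter.unusedVariables false
set_option linter.unusedSectionVars false

namespace DG

open Matrix Complex Filter Topology Asymptotics

attribute [local instance] Matrix.normedAddCommGroup Matrix.normedSpace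

theorem E03a_disc {g : ℂ → ℂ} {ρ M : ℝ} (n : ℕ) (hρ : 1 < ρ)
    (hd : DifferentiableOn ℂ g (Metric.ball 0 ρ)) (hM : ∀ t ∈ Metric.ball (0 : ℂ) ρ, ‖g t‖ ≤ M)
    (hg : g =O[𝓝 0] fun t => t ^ (n + 1)) : ‖g 1‖ ≤ M * (1 / ρ) ^ (n + 1) := by
  have h0 : g 0 = 0 := by
    obtain ⟨C, hC⟩ := hg.bound
    have h1 := hC.self_of_nhds
    simpa using h1
  have h := Complex.dist_le_mul_div_pow_of_mapsTo_ball_of_isLittleO (f := g) (c := 0) (z := 1)
    (R₁ := ρ) (R₂ := M) (n := n) hd ?_ ?_ ?_
  · rw [h0, dist_zero_right, dist_zero_right, norm_one] at h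
    exact h
  · intro t ht
    rw [h0, Metric.mem_closedBall, dist_zero_right]
    exact hM t ht
  · simp only [h0, sub_zero]
    refine hg.trans_isLittleO ?_
    have h2 : (fun t : ℂ => t ^ (n + 1)) = fun t => t * t ^ n := by
      funext t
      rw [pow_succ']
    rw [h2]
    have h3 : (fun t : ℂ => t * t ^ n) =o[𝓝 0] fun t : ℂ => (1 : ℂ) * t ^ n :=
      ((isLittleO_one_iff ℂ).2 tendsto_id).mul_isBigO (isBigO_refl _ _)
    simp only [one_mul] at h3
    exact h3.trans_isBigO (isBigO_of_le _ fun t => by simp)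
  · rw [Metric.mem_ball, dist_zero_right, norm_one]
    exact hρ

theorem radial {E : Type*} [NormedAddCommGroup E] [NormedSpace ℂ E] [CompleteSpace E] (u : E → ℂ)
    (p : E) (P : E →L[ℂ] E) (hP : ∀ x, P (P x) = P x) (hp : P p = 0) (hu : AnalyticAt ℂ u p) (K : ℕ)
    (h : ∀ᶠ x in 𝓝 p, (fun t : ℂ => u (x - P x + t • P x)) =O[𝓝 0] fun t => t ^ K) :
    u =O[𝓝 p] fun x => ‖P x‖ ^ K := by
  cases K with
  | zero =>
    simp only [pow_zero]
    exact hu.continuousAt.isBigO_one ℝ
  | succ n =>
    obtain ⟨R0, hR0, h0⟩ := Metric.eventually_nhds_iff_ball.1 hu.eventually_analyticAt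
    have hb : ∀ᶠ x in 𝓝 p, ‖u x‖ < ‖u p‖ + 1 :=
      hu.continuousAt.norm.eventually_lt continuousAt_const (lt_add_one _)
    obtain ⟨R1, hR1, h1⟩ := Metric.eventually_nhds_iff_ball.1 hb
    obtain ⟨R, hR, hRR0, hRR1⟩ : ∃ R : ℝ, 0 < R ∧ R ≤ R0 ∧ R ≤ R1 :=
      ⟨min R0 R1, lt_min hR0 hR1, min_le_left _ _, min_le_right _ _⟩
    have hc1 : ∀ᶠ x in 𝓝 p, ‖x - P x - p‖ < R / 2 := by
      have hcont : ContinuousAt (fun x => ‖x - P x - p‖) p := by fun_prop
      have h2 : ‖p - P p - p‖ < R / 2 := by
        rw [hp, sub_zero, sub_self, norm_zero]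
        positivity
      exact hcont.eventually_lt continuousAt_const h2
    have hc2 : ∀ᶠ x in 𝓝 p, ‖P x‖ < R / 2 := by
      have hcont : ContinuousAt (fun x => ‖P x‖) p := by fun_prop
      have h2 : ‖P p‖ < R / 2 := by
        rw [hp, norm_zero]
        positivity
      exact hcont.eventually_lt continuousAt_const h2
    refine IsBigO.of_bound ((‖u p‖ + 1) * (2 / R) ^ (n + 1)) ?_
    filter_upwards [h, hc1, hc2] with x hx hx1 hx2
    rw [norm_pow, norm_norm]
    by_cases hPx : P x = 0
    · have h3 : (fun t : ℂ => u (x - P x + t • P x)) 0 = 0 := by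
        obtain ⟨C, hC⟩ := hx.bound
        have h4 := hC.self_of_nhds
        simpa using h4
      simp only [hPx, sub_zero, smul_zero, add_zero] at h3
      rw [h3, norm_zero]
      positivity
    · have hN : 0 < ‖P x‖ := norm_pos_iff.2 hPx
      have hball : ∀ t ∈ Metric.ball (0 : ℂ) (R / (2 * ‖P x‖)),
          x - P x + t • P x ∈ Metric.ball p R := by
        intro t ht
        rw [Metric.mem_ball, dist_zero_right, lt_div_iff₀ (by positivity)] at ht
        rw [Metric.mem_ball, dist_eq_norm]
        calc ‖x - P x + t • P x - p‖ = ‖(x - P x - p) + t • P x‖ := by congr 1; abel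
          _ ≤ ‖x - P x - p‖ + ‖t • P x‖ := norm_add_le _ _
          _ < R := by
            rw [norm_smul]
            nlinarith
      have key := E03a_disc (g := fun t : ℂ => u (x - P x + t • P x)) (ρ := R / (2 * ‖P x‖))
        (M := ‖u p‖ + 1) n ?_ ?_ ?_ hx
      · simp only [one_smul, sub_add_cancel] at key
        refine key.trans (le_of_eq ?_)
        rw [mul_assoc, ← mul_pow]
        congr 2
        field_simp
      · rw [lt_div_iff₀ (by positivity)]
        linarith
      · intro t ht
        have h5 : DifferentiableAt ℂ u (x - P x + t • P x) :=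
          (h0 _ (Metric.ball_subset_ball hRR0 (hball t ht))).differentiableAt
        refine DifferentiableAt.differentiableWithinAt ?_
        have h6 : DifferentiableAt ℂ (fun t : ℂ => x - P x + t • P x) t := by fun_prop
        exact h5.comp t h6
      · intro t ht
        exact (h1 _ (Metric.ball_subset_ball hRR1 (hball t ht))).le

end DG
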