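import Pool.Agent.helper32.DG.C0
import Pool.Agent.helper32.DG.E03a

/-!
# E03 : vanishing orders along the block diagonal locus are tested on rays

PROOF of `radial`. If `K = 0`: `u` is bounded near `p` (continuity).  Let `K ≥ 1`.
Choose `R > 0`, `M` with `u` analytic on `ball p (2 R)` and `‖u‖ ≤ M` on `closedBall p R`.  Let `C = ‖P‖ + 1`.
Let `x` be so near to `p` that the hypothesis holds at `x` and `‖x - P x - p‖ ≤ R / 2`
(`x - P x - p = (x - p) - P (x - p)`), `‖P x‖ = ‖P (x - p)‖ < R / 4`.
If `P x = 0` then `g t = u (x - P x + t • P x)` is constant `= u x` and `O(t ^ K)`, so `u x = 0`.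
If `P x ≠ 0` let `ρ = R / (2 ‖P x‖) > 2`: `g` is analytic on `‖t‖ < ρ`, bounded by `M` and `O(t ^ K)` at
`0`, so `‖g 1‖ ≤ M / ρ ^ K = M (2 / R) ^ K ‖P x‖ ^ K` (the function `g t / t ^ K`, suitably extended at `0`, is
analytic on the disc, maximum principle; or `g t = t ^ K g₁ t` with `g₁` analytic).  `g 1 = u x`.
`radial_zz`: apply it to `u ∘ symm` at `p` and `P M = offd (zz (symm M))` (continuous linear,
`symm (M - P M + t • P M) = sc t (symm M)`, `P p = 0`), `‖P M‖ ≤ ‖zz (symm M)‖`, then restrict to `HH`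
where `symm τ = τ`; the hypothesis holds for all `M` with `symm M ∈ HH`, an open set (`isOpen_U`).
`radial_sc2`: the same with `P M` = the part of `symm M` outside of the diagonal in the rows and columns
`0`, `1`; `symm (M - P M + t • P M) = sc2 t (symm M)`, `‖P M‖ ≤ ‖zz (symm M)‖ + ‖zz (lo (symm M))‖`.
-/

set_option linter.unusedVariables false
set_option linter.unusedSectionVars false

namespace DG

open Matrix Complex Filter Topology Asymptotics

attribute [local instance] Matrix.normedAddCommGroup Matrix.normedSpace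

theorem E03_offd_symm {n : ℕ} (ζ : Fin n → ℂ) : (offd ζ).IsSymm := by
  apply mt_ext
  · rfl
  · intro i; rfl
  · intro i; rfl
  · intro i j; rfl

theorem E03_zz_offd {n : ℕ} (ζ : Fin n → ℂ) : zz (offd ζ) = ζ := rfl

theorem E03_offd_norm {n : ℕ} (ζ : Fin n → ℂ) : ‖offd ζ‖ ≤ ‖ζ‖ := by
  rw [Matrix.norm_le_iff (norm_nonneg _)]
  intro i j
  refine Fin.cases ?_ (fun i' => ?_) i
  · refine Fin.cases ?_ (fun j' => ?_) j
    · show ‖(0 : ℂ)‖ ≤ _
      rw [norm_zero]
      exact norm_nonneg _
    · exact norm_le_pi_norm ζ j'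
  · refine Fin.cases ?_ (fun j' => ?_) j
    · exact norm_le_pi_norm ζ i'
    · show ‖(0 : ℂ)‖ ≤ _
      rw [norm_zero]
      exact norm_nonneg _

theorem E03_offd_zero {n : ℕ} : offd (0 : Fin n → ℂ) = 0 := by
  apply mt_ext
  · rfl
  · intro i; rfl
  · intro i; rfl
  · intro i j; rfl

theorem E03_symm_lin {g : ℕ} (x P : Mt g) (hP : P.IsSymm) (t : ℂ) :
    symm (x - P + t • P) = symm x - P + t • P := by
  rw [← symmL_apply, map_add, map_sub, map_smul, symmL_apply, symmL_apply, symm_eq hP]

/-- the projection `M ↦ offd (zz (symm M))` -/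
noncomputable def E03_P (n : ℕ) : Mt (n + 1) →L[ℂ] Mt (n + 1) :=
  LinearMap.toContinuousLinearMap
    { toFun := fun M => offd (zz (symm M))
      map_add' := by
        intro x y
        rw [← symmL_apply, map_add, symmL_apply, symmL_apply]
        apply mt_ext
        · show (0 : ℂ) = 0 + 0
          rw [add_zero]
        · intro i; rfl
        · intro i; rfl
        · intro i j
          show (0 : ℂ) = 0 + 0
          rw [add_zero]
      map_smul' := by
        intro c x
        rw [← symmL_apply, map_smul, symmL_apply, RingHom.id_apply]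
        apply mt_ext
        · show (0 : ℂ) = c * 0
          rw [mul_zero]
        · intro i; rfl
        · intro i; rfl
        · intro i j
          show (0 : ℂ) = c * 0
          rw [mul_zero] }

theorem E03_P_apply {n : ℕ} (M : Mt (n + 1)) : E03_P n M = offd (zz (symm M)) := rfl

theorem E03_sc {n : ℕ} (t : ℂ) (τ : Mt (n + 1)) (hτ : τ.IsSymm) :
    τ - offd (zz τ) + t • offd (zz τ) = sc t τ := by
  apply mt_ext
  · show τ 0 0 - 0 + t * 0 = τ 0 0
    ring
  · intro i
    show τ 0 i.succ - τ 0 i.succ + t * τ 0 i.succ = t * τ 0 i.succ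
    ring
  · intro i
    show τ i.succ 0 - τ 0 i.succ + t * τ 0 i.succ = t * τ 0 i.succ
    rw [hτ.apply]
    ring
  · intro i j
    show τ i.succ j.succ - 0 + t * 0 = τ i.succ j.succ
    ring

/-- the projection for `sc2` -/
noncomputable def E03_P2 (n : ℕ) : Mt (n + 2) →L[ℂ] Mt (n + 2) :=
  LinearMap.toContinuousLinearMap
    { toFun := fun M => blk 0 (zz (symm M)) (offd (zz (lo (symm M))))
      map_add' := by
        intro x y
        rw [← symmL_apply, map_add, symmL_apply, symmL_apply]
        apply mt_ext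
        · show (0 : ℂ) = 0 + 0
          rw [add_zero]
        · intro i; rfl
        · intro i; rfl
        · intro i j
          refine Fin.cases ?_ (fun i' => ?_) i
          · refine Fin.cases ?_ (fun j' => ?_) j
            · show (0 : ℂ) = 0 + 0
              rw [add_zero]
            · rfl
          · refine Fin.cases ?_ (fun j' => ?_) j
            · rfl
            · show (0 : ℂ) = 0 + 0
              rw [add_zero]
      map_smul' := by
        intro c x
        rw [← symmL_apply, map_smul, symmL_apply, RingHom.id_apply]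
        apply mt_ext
        · show (0 : ℂ) = c * 0
          rw [mul_zero]
        · intro i; rfl
        · intro i; rfl
        · intro i j
          refine Fin.cases ?_ (fun i' => ?_) i
          · refine Fin.cases ?_ (fun j' => ?_) j
            · show (0 : ℂ) = c * 0
              rw [mul_zero]
            · rfl
          · refine Fin.cases ?_ (fun j' => ?_) j
            · rfl
            · show (0 : ℂ) = c * 0
              rw [mul_zero] }

theorem E03_P2_apply {n : ℕ} (M : Mt (n + 2)) :
    E03_P2 n M = blk 0 (zz (symm M)) (offd (zz (lo (symm M)))) := rfl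

theorem E03_blk_symm {n : ℕ} (z : Fin (n + 1) → ℂ) (ζ : Fin n → ℂ) :
    (blk 0 z (offd ζ)).IsSymm := by
  apply mt_ext
  · rfl
  · intro i; rfl
  · intro i; rfl
  · intro i j
    exact (E03_offd_symm ζ).apply _ _

theorem E03_blk_norm {n : ℕ} (z : Fin (n + 1) → ℂ) (ζ : Fin n → ℂ) :
    ‖blk 0 z (offd ζ)‖ ≤ ‖z‖ + ‖ζ‖ := by
  have h0 : 0 ≤ ‖z‖ + ‖ζ‖ := add_nonneg (norm_nonneg _) (norm_nonneg _)
  rw [Matrix.norm_le_iff h0]
  intro i j
  refine Fin.cases ?_ (fun i' => ?_) i
  · refine Fin.cases ?_ (fun j' => ?_) j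
    · show ‖(0 : ℂ)‖ ≤ _
      rw [norm_zero]
      exact h0
    · exact (norm_le_pi_norm z j').trans (le_add_of_nonneg_right (norm_nonneg _))
  · refine Fin.cases ?_ (fun j' => ?_) j
    · exact (norm_le_pi_norm z i').trans (le_add_of_nonneg_right (norm_nonneg _))
    · have h1 := (Matrix.norm_le_iff (norm_nonneg _)).1 (E03_offd_norm ζ) i' j'
      exact h1.trans (le_add_of_nonneg_left (norm_nonneg _))

theorem E03_sc2 {n : ℕ} (t : ℂ) (τ : Mt (n + 2)) (hτ : τ.IsSymm) :
    τ - blk 0 (zz τ) (offd (zz (lo τ))) + t • blk 0 (zz τ) (offd (zz (lo τ))) = sc2 t τ := by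
  apply mt_ext
  · show τ 0 0 - 0 + t * 0 = τ 0 0
    ring
  · intro i
    show τ 0 i.succ - τ 0 i.succ + t * τ 0 i.succ = t * τ 0 i.succ
    ring
  · intro i
    show τ i.succ 0 - τ 0 i.succ + t * τ 0 i.succ = t * τ 0 i.succ
    rw [hτ.apply]
    ring
  · intro i j
    have h1 : (lo τ).IsSymm := by
      ext i j
      exact hτ.apply _ _
    have h2 := congrFun (congrFun (E03_sc t (lo τ) h1) i) j
    exact h2

theorem radial_zz {n : ℕ} (K : ℕ) (u : Mt (n + 1) → ℂ) (hu : Hol (n + 1) u) (p : Mt (n + 1))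
    (hp : p ∈ HH (n + 1)) (hB : Blk p)
    (h : ∀ τ ∈ HH (n + 1), (fun t : ℂ => u (sc t τ)) =O[𝓝 0] fun t => t ^ K) :
    u =O[𝓝[HH (n + 1)] p] fun τ => ‖zz τ‖ ^ K := by
  have hps : symm p = p := symm_HH hp
  have hz : zz p = 0 := by
    funext i
    exact hB i
  have key := radial (fun M : Mt (n + 1) => u (symm M)) p (E03_P n)
    (fun x => by
      show offd (zz (symm (offd (zz (symm x))))) = offd (zz (symm x))
      rw [symm_eq (E03_offd_symm _), E03_zz_offd])
    (by
      show offd (zz (symm p)) = 0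
      rw [hps, hz, E03_offd_zero])
    (hu p (by rw [Set.mem_ofPred_eq, hps]; exact hp)) K
    (by
      filter_upwards [(isOpen_U (n + 1)).mem_nhds (x := p)
        (by rw [Set.mem_ofPred_eq, hps]; exact hp)] with x hx
      have h1 := h (symm x) hx
      refine h1.congr_left fun t => ?_
      show u (sc t (symm x)) = u (symm (x - offd (zz (symm x)) + t • offd (zz (symm x))))
      rw [E03_symm_lin _ _ (E03_offd_symm _), E03_sc t _ (symm_isSymm x)])
  have key2 := key.mono (nhdsWithin_le_nhds (s := HH (n + 1)))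
  have key3 : u =O[𝓝[HH (n + 1)] p] fun x => ‖offd (zz (symm x))‖ ^ K := by
    refine key2.congr' ?_ (Filter.EventuallyEq.refl _ _)
    filter_upwards [self_mem_nhdsWithin] with τ hτ
    rw [symm_HH hτ]
  refine key3.trans (Asymptotics.IsBigO.of_bound 1 ?_)
  filter_upwards [self_mem_nhdsWithin] with τ hτ
  rw [one_mul, norm_pow, norm_pow, norm_norm, norm_norm, symm_HH hτ]
  exact pow_le_pow_left₀ (norm_nonneg _) (E03_offd_norm _) K

theorem radial_sc2 {n : ℕ} (K : ℕ) (u : Mt (n + 2) → ℂ) (hu : Hol (n + 2) u) (p : Mt (n + 2))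
    (hp : p ∈ HH (n + 2)) (hB : Blk p) (hB2 : Blk (lo p))
    (h : ∀ τ ∈ HH (n + 2), (fun t : ℂ => u (sc2 t τ)) =O[𝓝 0] fun t => t ^ K) :
    u =O[𝓝[HH (n + 2)] p] fun τ => (‖zz τ‖ + ‖zz (lo τ)‖) ^ K := by
  have hps : symm p = p := symm_HH hp
  have hz : zz p = 0 := by
    funext i
    exact hB i
  have hz2 : zz (lo p) = 0 := by
    funext i
    exact hB2 i
  have key := radial (fun M : Mt (n + 2) => u (symm M)) p (E03_P2 n)
    (fun x => by
      show blk 0 (zz (symm (blk 0 (zz (symm x)) (offd (zz (lo (symm x)))))))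
        (offd (zz (lo (symm (blk 0 (zz (symm x)) (offd (zz (lo (symm x))))))))) =
        blk 0 (zz (symm x)) (offd (zz (lo (symm x))))
      rw [symm_eq (E03_blk_symm _ _), zz_blk, lo_blk, E03_zz_offd])
    (by
      show blk 0 (zz (symm p)) (offd (zz (lo (symm p)))) = 0
      rw [hps, hz, hz2, E03_offd_zero]
      apply mt_ext
      · rfl
      · intro i; rfl
      · intro i; rfl
      · intro i j; rfl)
    (hu p (by rw [Set.mem_ofPred_eq, hps]; exact hp)) K
    (by
      filter_upwards [(isOpen_U (n + 2)).mem_nhds (x := p)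
        (by rw [Set.mem_ofPred_eq, hps]; exact hp)] with x hx
      have h1 := h (symm x) hx
      refine h1.congr_left fun t => ?_
      show u (sc2 t (symm x)) = u (symm (x - blk 0 (zz (symm x)) (offd (zz (lo (symm x)))) +
        t • blk 0 (zz (symm x)) (offd (zz (lo (symm x))))))
      rw [E03_symm_lin _ _ (E03_blk_symm _ _), E03_sc2 t _ (symm_isSymm x)])
  have key2 := key.mono (nhdsWithin_le_nhds (s := HH (n + 2)))
  have key3 : u =O[𝓝[HH (n + 2)] p]
      fun x => ‖blk 0 (zz (symm x)) (offd (zz (lo (symm x))))‖ ^ K := by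
    refine key2.congr' ?_ (Filter.EventuallyEq.refl _ _)
    filter_upwards [self_mem_nhdsWithin] with τ hτ
    rw [symm_HH hτ]
  refine key3.trans (Asymptotics.IsBigO.of_bound 1 ?_)
  filter_upwards [self_mem_nhdsWithin] with τ hτ
  rw [one_mul, norm_pow, norm_pow, norm_norm, Real.norm_of_nonneg
    (add_nonneg (norm_nonneg (zz τ)) (norm_nonneg (zz (lo τ)))), symm_HH hτ]
  exact pow_le_pow_left₀ (norm_nonneg _) (E03_blk_norm _ _) K

end DG
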