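import Pool.Agent.helper32.DG.C0

/-!
# E04a : the pairing of Cohen and Kuznetsov

Notation `(k)_j = k.ascFactorial j = k (k+1) .. (k+j-1)`, `cst k j = j! (k)_j`.
PROOF of `ck_coeff`. For `s` near `0` put `σ = s / (1 - κ s)`: `σ / (1 + κ σ) = s`, `1 + κ σ = 1 / (1 - κ s)`, so
`ψ s = δ (1 - κ s)^(-k) φ (s / (1 - κ s))` near `0`.  Claim: near `0`
`ψ^(i)(s) = δ ∑_{j≤i} C(i,j) (k+j)(k+j+1)..(k+i-1) κ^(i-j) (1 - κ s)^(-(k+i+j)) φ^(j)(s / (1 - κ s))`.
Induction on `i`: the derivative of `(1 - κ s)^(-(k+i+j))` is `(k+i+j) κ (1 - κ s)^(-(k+i+j+1))`, the one of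
`s / (1 - κ s)` is `(1 - κ s)^(-2)`; with `c_ij = C(i,j) (k+j)..(k+i-1)` the recursion
`c_(i+1,j) = (k+i+j) c_ij + c_(i,j-1)` is checked by `j C(i,j) = (i-j+1) C(i,j-1)` and Pascal.  At `s = 0` divide
by `i! (k)_i`: `C(i,j) (k+j)..(k+i-1) / (i! (k)_i) = 1 / (j! (i-j)! (k)_j)`.
PROOF of `taylor_center`. `G y = ∑_{l<L} y^l b^(l)(-y) / l!` has derivative `- y^(L-1) b^(L)(-y) / (L-1)!` near
`0` (telescoping; `L ≥ 1`), which is `O(y^(L-1))`, and `G 0 = b 0`.  Mean value inequality (or: an analytic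
function whose derivative is `O(y^(L-1))` and which vanishes at `0` is `O(y^L)`).
PROOF of `mobius_pairing`. By `ck_coeff` the first sum is
`δ ∑_{i<N} ∑_{j≤i} x^i φ^(j)(0) κ^(i-j) / (j! (k)_j (i-j)!) a^(i)(-κ x)
= δ ∑_{j<N} x^j φ^(j)(0) / (j! (k)_j) ∑_{l<N-j} (κ x)^l (a^(j))^(l)(-κ x) / l!`
and the inner sum is `a^(j)(0) + O(x^(N-j))` by `taylor_center` for `b = a^(j)`, `y = κ x`.
-/

set_option linter.unusedVariables false
set_option linter.unusedSectionVars false

namespace DG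

open Matrix Complex Filter Topology Asymptotics

attribute [local instance] Matrix.normedAddCommGroup Matrix.normedSpace

/-- the coefficients `C(i,j) (k)_i / (k)_j` -/
private noncomputable def e04c (k i j : ℕ) : ℂ :=
  (i.choose j : ℂ) * (k.ascFactorial i : ℂ) / (k.ascFactorial j : ℂ)

private theorem e04_asc_ne (k : ℕ) (hk : 1 ≤ k) (j : ℕ) : (k.ascFactorial j : ℂ) ≠ 0 := by
  obtain ⟨k, rfl⟩ := Nat.exists_eq_add_of_le hk
  rw [add_comm]
  exact_mod_cast (Nat.ascFactorial_pos k j).ne'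

private theorem e04c_zero (k : ℕ) (i : ℕ) :
    e04c k (i + 1) 0 = ((k + i : ℕ) : ℂ) * e04c k i 0 := by
  unfold e04c
  rw [Nat.ascFactorial_succ]
  simp

private theorem e04c_succ (k : ℕ) (hk : 1 ≤ k) (i j : ℕ) :
    e04c k (i + 1) (j + 1) = ((k + i + (j + 1) : ℕ) : ℂ) * e04c k i (j + 1) + e04c k i j := by
  have h1 := e04_asc_ne k hk j
  have h2 := e04_asc_ne k hk (j + 1)
  have h3 : ((i.choose (j + 1) : ℕ) : ℂ) * (j + 1) = (i.choose j : ℂ) * ((i : ℂ) - j) := by
    have h := Nat.choose_succ_right_eq i j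
    rcases le_or_gt j i with hij | hij
    · have h' := congrArg (fun n : ℕ => (n : ℂ)) h
      push_cast [Nat.cast_sub hij] at h'
      exact h'
    · rw [Nat.choose_eq_zero_of_lt hij, Nat.choose_eq_zero_of_lt (by omega)]
      simp
  unfold e04c
  rw [Nat.ascFactorial_succ] at h2 ⊢
  rw [Nat.ascFactorial_succ, Nat.choose_succ_succ]
  push_cast at h2 ⊢
  have h4 : (k : ℂ) + j ≠ 0 := left_ne_zero_of_mul h2
  field_simp
  linear_combination (-(k.ascFactorial i : ℂ)) * h3

theorem ck_coeff (k : ℕ) (hk : 1 ≤ k) (κ δ : ℂ) (φ ψ : ℂ → ℂ)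
    (hφ : AnalyticAt ℂ φ 0) (hψ : AnalyticAt ℂ ψ 0)
    (h : ∀ᶠ s in 𝓝 (0 : ℂ), ψ (s / (1 + κ * s)) = δ * (1 + κ * s) ^ k * φ s) (i : ℕ) :
    iteratedDeriv i ψ 0 / cst k i = δ * ∑ j ∈ Finset.range (i + 1),
      iteratedDeriv j φ 0 / cst k j * (κ ^ (i - j) / ((i - j).factorial : ℂ)) := by
  -- continuity and nonvanishing near `0`
  have hcu : ContinuousAt (fun s : ℂ => 1 - κ * s) 0 := by fun_prop
  have hu : ∀ᶠ s in 𝓝 (0 : ℂ), 1 - κ * s ≠ 0 :=
    hcu.eventually_ne (by simp)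
  have hσc : ContinuousAt (fun s : ℂ => s / (1 - κ * s)) 0 :=
    continuousAt_id.div hcu (by simp)
  have hσ : Tendsto (fun s : ℂ => s / (1 - κ * s)) (𝓝 0) (𝓝 0) := by
    have := hσc.tendsto
    simpa using this
  -- step 1
  have h1 : ∀ᶠ s in 𝓝 (0 : ℂ), ψ s = δ * ((1 - κ * s)⁻¹ ^ k * φ (s / (1 - κ * s))) := by
    filter_upwards [hσ.eventually h, hu] with s hs hs0
    have e1 : 1 + κ * (s / (1 - κ * s)) = (1 - κ * s)⁻¹ := by
      field_simp
      ring
    have e2 : s / (1 - κ * s) / (1 - κ * s)⁻¹ = s := by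
      rw [div_inv_eq_mul, div_mul_cancel₀ _ hs0]
    rw [e1, e2] at hs
    rw [hs]
    ring
  have hφσ : ∀ᶠ s in 𝓝 (0 : ℂ), AnalyticAt ℂ φ (s / (1 - κ * s)) :=
    hσ.eventually hφ.eventually_analyticAt
  -- step 2
  have h2 : ∀ i : ℕ, ∀ᶠ s in 𝓝 (0 : ℂ), iteratedDeriv i ψ s =
      δ * ∑ j ∈ Finset.range (i + 1), e04c k i j * κ ^ (i - j) *
        ((1 - κ * s)⁻¹ ^ (k + i + j) * iteratedDeriv j φ (s / (1 - κ * s))) := by
    intro i
    induction i with
    | zero =>
      filter_upwards [h1] with s hs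
      rw [iteratedDeriv_zero, hs]
      simp [e04c]
    | succ i ih =>
      have ih' := Filter.EventuallyEq.deriv (show iteratedDeriv i ψ =ᶠ[𝓝 0] _ from ih)
      filter_upwards [ih', hu, hφσ] with s hs hs0 hsφ
      rw [iteratedDeriv_succ, hs]
      have d1 : HasDerivAt (fun s : ℂ => 1 - κ * s) (-κ) s := by
        have := (hasDerivAt_id s).const_mul κ
        simpa using this.const_sub 1
      have d2 : ∀ n : ℕ, HasDerivAt (fun s : ℂ => (1 - κ * s)⁻¹ ^ n)
          (n * κ * (1 - κ * s)⁻¹ ^ (n + 1)) s := by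
        intro n
        rcases Nat.eq_zero_or_pos n with rfl | hn
        · simpa using hasDerivAt_const s (1 : ℂ)
        · obtain ⟨m, rfl⟩ := Nat.exists_eq_add_of_le' hn
          have h3 := (d1.inv hs0).pow (m + 1)
          have h4 : ((m + 1 : ℕ) : ℂ) * ((1 - κ * s)⁻¹) ^ (m + 1 - 1) *
              (- -κ / (1 - κ * s) ^ 2) = ((m + 1 : ℕ) : ℂ) * κ * (1 - κ * s)⁻¹ ^ (m + 1 + 1) := by
            rw [Nat.add_sub_cancel, div_eq_mul_inv, ← inv_pow]
            ring
          exact h3.congr_deriv h4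
      have d3 : HasDerivAt (fun s : ℂ => s / (1 - κ * s)) ((1 - κ * s)⁻¹ ^ 2) s := by
        have h3 := (hasDerivAt_id s).div d1 hs0
        have h4 : (1 * (1 - κ * s) - s * -κ) / (1 - κ * s) ^ 2 = (1 - κ * s)⁻¹ ^ 2 := by
          field_simp
          ring
        exact h3.congr_deriv h4
      have d4 : ∀ j : ℕ, HasDerivAt (fun s : ℂ => iteratedDeriv j φ (s / (1 - κ * s)))
          (iteratedDeriv (j + 1) φ (s / (1 - κ * s)) * (1 - κ * s)⁻¹ ^ 2) s := by
        intro j
        have e1 : HasDerivAt (iteratedDeriv j φ) (iteratedDeriv (j + 1) φ (s / (1 - κ * s)))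
            (s / (1 - κ * s)) := by
          rw [iteratedDeriv_succ]
          have := hsφ.iterated_deriv j
          rw [← iteratedDeriv_eq_iterate] at this
          exact this.differentiableAt.hasDerivAt
        exact e1.comp s d3
      have d5 : HasDerivAt (fun s : ℂ => δ * ∑ j ∈ Finset.range (i + 1), e04c k i j * κ ^ (i - j) *
          ((1 - κ * s)⁻¹ ^ (k + i + j) * iteratedDeriv j φ (s / (1 - κ * s))))
          (δ * ∑ j ∈ Finset.range (i + 1), e04c k i j * κ ^ (i - j) *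
            (((k + i + j : ℕ) : ℂ) * κ * (1 - κ * s)⁻¹ ^ (k + i + j + 1) *
                iteratedDeriv j φ (s / (1 - κ * s)) +
              (1 - κ * s)⁻¹ ^ (k + i + j) *
                (iteratedDeriv (j + 1) φ (s / (1 - κ * s)) * (1 - κ * s)⁻¹ ^ 2))) s := by
        refine HasDerivAt.const_mul δ ?_
        refine HasDerivAt.fun_sum fun j _ => ?_
        exact ((d2 (k + i + j)).mul (d4 j)).const_mul _
      rw [d5.deriv]
      congr 1
      -- recombination of the sums
      generalize (1 - κ * s)⁻¹ = w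
      generalize s / (1 - κ * s) = y
      have key : ∀ j ∈ Finset.range (i + 1), e04c k i j * κ ^ (i - j) *
            (((k + i + j : ℕ) : ℂ) * κ * w ^ (k + i + j + 1) * iteratedDeriv j φ y +
              w ^ (k + i + j) * (iteratedDeriv (j + 1) φ y * w ^ 2)) =
          ((k + i + j : ℕ) : ℂ) * e04c k i j * κ ^ (i + 1 - j) *
              (w ^ (k + (i + 1) + j) * iteratedDeriv j φ y) +
            e04c k i j * κ ^ (i + 1 - (j + 1)) *
              (w ^ (k + (i + 1) + (j + 1)) * iteratedDeriv (j + 1) φ y) := by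
        intro j hj
        have hj' : j ≤ i := Nat.lt_succ_iff.1 (Finset.mem_range.1 hj)
        have e1 : i + 1 - j = (i - j) + 1 := by omega
        have e2 : i + 1 - (j + 1) = i - j := by omega
        have e3 : k + (i + 1) + j = k + i + j + 1 := by ring
        have e4 : k + (i + 1) + (j + 1) = k + i + j + 2 := by ring
        rw [e1, e2, e3, e4]
        ring
      rw [Finset.sum_congr rfl key, Finset.sum_add_distrib]
      have hlast : e04c k i (i + 1) = 0 := by
        unfold e04c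
        rw [Nat.choose_succ_self]
        simp
      have hfirst : ∑ j ∈ Finset.range (i + 1), ((k + i + j : ℕ) : ℂ) * e04c k i j *
            κ ^ (i + 1 - j) * (w ^ (k + (i + 1) + j) * iteratedDeriv j φ y) =
          ∑ j ∈ Finset.range (i + 2), ((k + i + j : ℕ) : ℂ) * e04c k i j *
            κ ^ (i + 1 - j) * (w ^ (k + (i + 1) + j) * iteratedDeriv j φ y) := by
        rw [Finset.sum_range_succ _ (i + 1), hlast]
        simp
      rw [hfirst, Finset.sum_range_succ' _ (i + 1), Finset.sum_range_succ' _ (i + 1),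
        add_right_comm, ← Finset.sum_add_distrib]
      congr 1
      · refine Finset.sum_congr rfl fun j _ => ?_
        rw [e04c_succ k hk]
        ring
      · rw [e04c_zero]
        simp
  -- step 3
  have h3 := (h2 i).self_of_nhds
  rw [h3, mul_div_assoc, Finset.sum_div]
  congr 1
  refine Finset.sum_congr rfl fun j hj => ?_
  have hj' : j ≤ i := Nat.lt_succ_iff.1 (Finset.mem_range.1 hj)
  have n1 := e04_asc_ne k hk i
  have n2 := e04_asc_ne k hk j
  have n3 : ((j.factorial : ℕ) : ℂ) ≠ 0 := by exact_mod_cast j.factorial_ne_zero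
  have n4 : (((i - j).factorial : ℕ) : ℂ) ≠ 0 := by exact_mod_cast (i - j).factorial_ne_zero
  have n5 : ((i.factorial : ℕ) : ℂ) ≠ 0 := by exact_mod_cast i.factorial_ne_zero
  have n6 : (i.choose j : ℂ) * (j.factorial : ℂ) * ((i - j).factorial : ℂ) = (i.factorial : ℂ) := by
    exact_mod_cast Nat.choose_mul_factorial_mul_factorial hj'
  simp only [mul_zero, sub_zero, inv_one, one_pow, zero_div, one_mul]
  unfold e04c cst
  push_cast
  rw [← n6]
  rw [← n6] at n5
  have n7 : (i.choose j : ℂ) ≠ 0 := left_ne_zero_of_mul (left_ne_zero_of_mul n5)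
  field_simp

end DG
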