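import Pool.Agent.helper32.DG.C0

/-!
# E04b : the pairing of Cohen and Kuznetsov

Notation `(k)_j = k.ascFactorial j = k (k+1) .. (k+j-1)`, `cst k j = j! (k)_j`.
PROOF of `ck_coeff`. For `s` near `0` put `σ = s / (1 - κ s)`: `σ / (1 + κ σ) = s`, `1 + κ σ = 1 / (1 - κ s)`, so
`ψ s = δ (1 - κ s)^(-k) φ (s / (1 - κ s))` near `0`.  Claim: near `0`
`ψ^(i)(s) = δ ∑_{j≤i} C(i,j) (k+j)(k+j+1)..(k+i-1) κ^(i-j) (1 - κ s)^(-(k+i+j)) φ^(j)(s / (1 - κ s))`.
Induction on `i`: the derivative of `(1 - κ s)^(-(k+i+j))` is `(k+i+j) κ (1 - κ s)^(-(k+i+j+1))`, the one of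
`s / (1 - κ s)` is `(1 - κ s)^(-2)`; with `c_ij = C(i,j) (k+j)..(k+i-1)` the recursion
`c_(i+1,j) = (k+i+j) c_ij + c_(i,j-1)` is checked by `j C(i,j) = (i-j+1) C(i,j-1)` and Pascal.  At `s = 0` divide
by `i! (k)_i`: `C(i,j) (k+j)..(k+i-1) / (i! (k)_i) = 1 / (j! (i-j)! (k)_j)`.
PROOF of `taylor_center`. `G y = ∑_{l<L} y^l b^(l)(-y) / l!` has derivative `- y^(L-1) b^(L)(-y) / (L-1)!` near
`0` (telescoping; `L ≥ 1`), which is `O(y^(L-1))`, and `G 0 = b 0`.  Mean value inequality (or: an analytic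
function whose derivative is `O(y^(L-1))` and which vanishes at `0` is `O(y^L)`).
PROOF of `mobius_pairing`. By `ck_coeff` the first sum is
`δ ∑_{i<N} ∑_{j≤i} x^i φ^(j)(0) κ^(i-j) / (j! (k)_j (i-j)!) a^(i)(-κ x)
= δ ∑_{j<N} x^j φ^(j)(0) / (j! (k)_j) ∑_{l<N-j} (κ x)^l (a^(j))^(l)(-κ x) / l!`
and the inner sum is `a^(j)(0) + O(x^(N-j))` by `taylor_center` for `b = a^(j)`, `y = κ x`.
-/

set_option linter.unusedVariables false
set_option linter.unusedSectionVars false

namespace DG

open Matrix Complex Filter Topology Asymptotics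

attribute [local instance] Matrix.normedAddCommGroup Matrix.normedSpace

private theorem E04b_an (b : ℂ → ℂ) (y : ℂ) (hb : AnalyticAt ℂ b y) (l : ℕ) :
    AnalyticAt ℂ (iteratedDeriv l b) y := by
  rw [iteratedDeriv_eq_iterate]
  exact hb.iterated_deriv l

/-- telescoping derivative -/
private theorem E04b_deriv (b : ℂ → ℂ) (y : ℂ) (hb : AnalyticAt ℂ b (-y)) (M : ℕ) :
    HasDerivAt (fun z : ℂ => ∑ l ∈ Finset.range (M + 1), z ^ l * iteratedDeriv l b (-z) /
      (l.factorial : ℂ)) (-(y ^ M * iteratedDeriv (M + 1) b (-y) / (M.factorial : ℂ))) y := by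
  have hd : ∀ l : ℕ, HasDerivAt (fun z : ℂ => iteratedDeriv l b (-z))
      (-(iteratedDeriv (l + 1) b (-y))) y := by
    intro l
    have h1 : HasDerivAt (iteratedDeriv l b) (iteratedDeriv (l + 1) b (-y)) (-y) := by
      rw [iteratedDeriv_succ]
      exact (E04b_an b _ hb l).differentiableAt.hasDerivAt
    have h2 := HasDerivAt.comp y h1 (hasDerivAt_neg y)
    rw [mul_neg, mul_one] at h2
    exact h2
  induction M with
  | zero => simpa using hd 0
  | succ M ih =>
    have h3 : HasDerivAt (fun z : ℂ => z ^ (M + 1) * iteratedDeriv (M + 1) b (-z) /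
        ((M + 1).factorial : ℂ)) ((((M + 1 : ℕ) : ℂ) * y ^ M * iteratedDeriv (M + 1) b (-y) +
          y ^ (M + 1) * (-(iteratedDeriv (M + 1 + 1) b (-y)))) / ((M + 1).factorial : ℂ)) y := by
      have h4 := ((hasDerivAt_pow (M + 1) y).mul (hd (M + 1))).div_const ((M + 1).factorial : ℂ)
      simpa using h4
    have h5 := ih.add h3
    have h6 : (-(y ^ M * iteratedDeriv (M + 1) b (-y) / (M.factorial : ℂ))) +
        ((((M + 1 : ℕ) : ℂ) * y ^ M * iteratedDeriv (M + 1) b (-y) +
          y ^ (M + 1) * (-(iteratedDeriv (M + 1 + 1) b (-y)))) / ((M + 1).factorial : ℂ)) =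
        -(y ^ (M + 1) * iteratedDeriv (M + 1 + 1) b (-y) / ((M + 1).factorial : ℂ)) := by
      have hf : (M.factorial : ℂ) ≠ 0 := by exact_mod_cast M.factorial_ne_zero
      have hf' : ((M : ℂ) + 1) ≠ 0 := by exact_mod_cast M.succ_ne_zero
      rw [Nat.factorial_succ]
      push_cast
      field_simp
      ring
    rw [h6] at h5
    refine h5.congr_of_eventuallyEq (Filter.Eventually.of_forall fun z => ?_)
    exact Finset.sum_range_succ _ _

theorem taylor_center (b : ℂ → ℂ) (hb : AnalyticAt ℂ b 0) (L : ℕ) (κ : ℂ) :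
    (fun x : ℂ => (∑ l ∈ Finset.range L, (κ * x) ^ l * iteratedDeriv l b (-κ * x) /
      (l.factorial : ℂ)) - b 0) =O[𝓝 0] fun x => x ^ L := by
  rcases L with _ | M
  · simp only [Finset.range_zero, Finset.sum_empty, zero_sub, pow_zero]
    exact isBigO_const_const _ one_ne_zero _
  -- the statement in the variable `y = κ x`
  have hmain : (fun y : ℂ => (∑ l ∈ Finset.range (M + 1), y ^ l * iteratedDeriv l b (-y) /
      (l.factorial : ℂ)) - b 0) =O[𝓝 0] fun y => y ^ (M + 1) := by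
    -- a ball on which everything is controlled
    have hcont : ContinuousAt (iteratedDeriv (M + 1) b) 0 := (E04b_an b _ hb (M + 1)).continuousAt
    have hbd : ∀ᶠ z in 𝓝 (0 : ℂ), ‖iteratedDeriv (M + 1) b z‖ < ‖iteratedDeriv (M + 1) b 0‖ + 1 :=
      (hcont.norm).eventually (gt_mem_nhds (by linarith))
    obtain ⟨r, hr, hball⟩ := Metric.eventually_nhds_iff_ball.1 (hbd.and hb.eventually_analyticAt)
    refine IsBigO.of_bound ((‖iteratedDeriv (M + 1) b 0‖ + 1) / (M.factorial : ℝ)) ?_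
    refine Metric.eventually_nhds_iff_ball.2 ⟨r, hr, fun y hy => ?_⟩
    have hyr : ‖y‖ < r := by simpa using hy
    have hMf : (0 : ℝ) < M.factorial := by exact_mod_cast M.factorial_pos
    have hmv := Convex.norm_image_sub_le_of_norm_hasDerivWithin_le
      (f := fun z : ℂ => ∑ l ∈ Finset.range (M + 1), z ^ l * iteratedDeriv l b (-z) /
        (l.factorial : ℂ))
      (f' := fun z => -(z ^ M * iteratedDeriv (M + 1) b (-z) / (M.factorial : ℂ)))
      (s := Metric.closedBall (0 : ℂ) ‖y‖) (x := 0) (y := y)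
      (C := ‖y‖ ^ M * (‖iteratedDeriv (M + 1) b 0‖ + 1) / (M.factorial : ℝ))
      (fun z hz => by
        have hz' : ‖z‖ ≤ ‖y‖ := by simpa using hz
        have hz2 : -z ∈ Metric.ball (0 : ℂ) r := by
          simpa using lt_of_le_of_lt hz' hyr
        exact (E04b_deriv b z (hball _ hz2).2 M).hasDerivWithinAt)
      (fun z hz => by
        have hz' : ‖z‖ ≤ ‖y‖ := by simpa using hz
        have hz2 : -z ∈ Metric.ball (0 : ℂ) r := by
          simpa using lt_of_le_of_lt hz' hyr
        have h1 := (hball _ hz2).1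
        rw [norm_neg, norm_div, norm_mul, norm_pow, Complex.norm_natCast]
        gcongr)
      (convex_closedBall _ _) (by simp) (by simp)
    have h0 : (∑ l ∈ Finset.range (M + 1), (0 : ℂ) ^ l * iteratedDeriv l b (-0) /
        (l.factorial : ℂ)) = b 0 := by
      rw [Finset.sum_range_succ']
      simp
    simp only [h0, sub_zero] at hmv
    rw [norm_pow]
    refine hmv.trans (le_of_eq ?_)
    rw [pow_succ]
    ring
  have hκ : Tendsto (fun x : ℂ => κ * x) (𝓝 0) (𝓝 0) := by
    have : ContinuousAt (fun x : ℂ => κ * x) 0 := by fun_prop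
    simpa [ContinuousAt] using this
  have h2 := hmain.comp_tendsto hκ
  refine IsBigO.trans (h2.congr_left fun x => ?_) ?_
  · simp only [Function.comp_apply, neg_mul]
  · refine IsBigO.of_bound (‖κ‖ ^ (M + 1)) (Filter.Eventually.of_forall fun x => ?_)
    simp [mul_pow]

end DG
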