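import Pool.Agent.helper32.DG.C0
import Pool.Agent.helper32.DG.E04a
import Pool.Agent.helper32.DG.E04b

/-!
# E04 : the pairing of Cohen and Kuznetsov

Notation `(k)_j = k.ascFactorial j = k (k+1) .. (k+j-1)`, `cst k j = j! (k)_j`.
PROOF of `ck_coeff`. For `s` near `0` put `σ = s / (1 - κ s)`: `σ / (1 + κ σ) = s`, `1 + κ σ = 1 / (1 - κ s)`, so
`ψ s = δ (1 - κ s)^(-k) φ (s / (1 - κ s))` near `0`.  Claim: near `0`
`ψ^(i)(s) = δ ∑_{j≤i} C(i,j) (k+j)(k+j+1)..(k+i-1) κ^(i-j) (1 - κ s)^(-(k+i+j)) φ^(j)(s / (1 - κ s))`.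
Induction on `i`: the derivative of `(1 - κ s)^(-(k+i+j))` is `(k+i+j) κ (1 - κ s)^(-(k+i+j+1))`, the one of
`s / (1 - κ s)` is `(1 - κ s)^(-2)`; with `c_ij = C(i,j) (k+j)..(k+i-1)` the recursion
`c_(i+1,j) = (k+i+j) c_ij + c_(i,j-1)` is checked by `j C(i,j) = (i-j+1) C(i,j-1)` and Pascal.  At `s = 0` divide
by `i! (k)_i`: `C(i,j) (k+j)..(k+i-1) / (i! (k)_i) = 1 / (j! (i-j)! (k)_j)`.
PROOF of `taylor_center`. `G y = ∑_{l<L} y^l b^(l)(-y) / l!` has derivative `- y^(L-1) b^(L)(-y) / (L-1)!` near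
`0` (telescoping; `L ≥ 1`), which is `O(y^(L-1))`, and `G 0 = b 0`.  Mean value inequality (or: an analytic
function whose derivative is `O(y^(L-1))` and which vanishes at `0` is `O(y^L)`).
PROOF of `mobius_pairing`. By `ck_coeff` the first sum is
`δ ∑_{i<N} ∑_{j≤i} x^i φ^(j)(0) κ^(i-j) / (j! (k)_j (i-j)!) a^(i)(-κ x)
= δ ∑_{j<N} x^j φ^(j)(0) / (j! (k)_j) ∑_{l<N-j} (κ x)^l (a^(j))^(l)(-κ x) / l!`
and the inner sum is `a^(j)(0) + O(x^(N-j))` by `taylor_center` for `b = a^(j)`, `y = κ x`.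
-/

set_option linter.unusedVariables false
set_option linter.unusedSectionVars false

namespace DG

open Matrix Complex Filter Topology Asymptotics

attribute [local instance] Matrix.normedAddCommGroup Matrix.normedSpace

private theorem e04_iter (a : ℂ → ℂ) (j l : ℕ) :
    iteratedDeriv (j + l) a = iteratedDeriv l (iteratedDeriv j a) := by
  rw [iteratedDeriv_eq_iterate, iteratedDeriv_eq_iterate, iteratedDeriv_eq_iterate, add_comm j l,
    Function.iterate_add_apply]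

private theorem e04_an {a : ℂ → ℂ} (ha : AnalyticAt ℂ a 0) (j : ℕ) :
    AnalyticAt ℂ (iteratedDeriv j a) 0 := by
  rw [iteratedDeriv_eq_iterate]
  exact ha.iterated_deriv j

theorem mobius_pairing (k : ℕ) (hk : 1 ≤ k) (N : ℕ) (κ δ : ℂ) (a φ ψ : ℂ → ℂ)
    (ha : AnalyticAt ℂ a 0) (hφ : AnalyticAt ℂ φ 0) (hψ : AnalyticAt ℂ ψ 0)
    (h : ∀ᶠ s in 𝓝 (0 : ℂ), ψ (s / (1 + κ * s)) = δ * (1 + κ * s) ^ k * φ s) :
    (fun x : ℂ => (∑ i ∈ Finset.range N,
        x ^ i * iteratedDeriv i ψ 0 * iteratedDeriv i a (-κ * x) / cst k i) -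
      δ * ∑ i ∈ Finset.range N, x ^ i * iteratedDeriv i φ 0 * iteratedDeriv i a 0 / cst k i)
      =O[𝓝 0] fun x => x ^ N := by
  have key : ∀ x : ℂ, (∑ i ∈ Finset.range N,
        x ^ i * iteratedDeriv i ψ 0 * iteratedDeriv i a (-κ * x) / cst k i) -
      δ * ∑ i ∈ Finset.range N, x ^ i * iteratedDeriv i φ 0 * iteratedDeriv i a 0 / cst k i =
      ∑ j ∈ Finset.range N, (δ * (iteratedDeriv j φ 0 / cst k j)) * (x ^ j *
        ((∑ l ∈ Finset.range (N - j), (κ * x) ^ l * iteratedDeriv l (iteratedDeriv j a) (-κ * x) /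
          (l.factorial : ℂ)) - iteratedDeriv j a 0)) := by
    intro x
    have h1 : ∀ i ∈ Finset.range N, x ^ i * iteratedDeriv i ψ 0 * iteratedDeriv i a (-κ * x) /
        cst k i = ∑ j ∈ Finset.range (i + 1), δ * (x ^ i * iteratedDeriv i a (-κ * x) *
          (iteratedDeriv j φ 0 / cst k j) * (κ ^ (i - j) / ((i - j).factorial : ℂ))) := by
      intro i _
      have h2 := ck_coeff k hk κ δ φ ψ hφ hψ h i
      calc x ^ i * iteratedDeriv i ψ 0 * iteratedDeriv i a (-κ * x) / cst k i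
          = x ^ i * iteratedDeriv i a (-κ * x) * (iteratedDeriv i ψ 0 / cst k i) := by ring
        _ = _ := by
          rw [h2, Finset.mul_sum, Finset.mul_sum]
          refine Finset.sum_congr rfl fun j _ => ?_
          ring
    rw [Finset.sum_congr rfl h1, Finset.sum_comm' (s' := fun j => Finset.Ico j N)
      (t' := Finset.range N) (by
        intro i j
        simp only [Finset.mem_range, Finset.mem_Ico]
        omega)]
    rw [Finset.mul_sum, ← Finset.sum_sub_distrib]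
    refine Finset.sum_congr rfl fun j hj => ?_
    have hjN : j ≤ N := (Finset.mem_range.1 hj).le
    rw [Finset.sum_Ico_eq_sum_range]
    have h3 : ∀ l ∈ Finset.range (N - j), δ * (x ^ (j + l) * iteratedDeriv (j + l) a (-κ * x) *
        (iteratedDeriv j φ 0 / cst k j) * (κ ^ (j + l - j) / ((j + l - j).factorial : ℂ))) =
        (δ * (iteratedDeriv j φ 0 / cst k j) * x ^ j) * ((κ * x) ^ l *
          iteratedDeriv l (iteratedDeriv j a) (-κ * x) / (l.factorial : ℂ)) := by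
      intro l _
      rw [e04_iter, Nat.add_sub_cancel_left, pow_add, mul_pow]
      ring
    rw [Finset.sum_congr rfl h3, ← Finset.mul_sum]
    ring
  simp_rw [key]
  apply IsBigO.fun_sum
  intro j hj
  have hjN : j ≤ N := (Finset.mem_range.1 hj).le
  refine IsBigO.const_mul_left ?_ _
  have h4 := (isBigO_refl (fun x : ℂ => x ^ j) (𝓝 0)).mul
    (taylor_center (iteratedDeriv j a) (e04_an ha j) (N - j) κ)
  refine h4.congr_right fun x => ?_
  rw [← pow_add, Nat.add_sub_cancel' hjN]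

end DG
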