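import Pool.Agent.helper32.DG.C0
import Pool.Agent.helper32.DG.E01
import Pool.Agent.helper32.DG.E02

/-!
# E05a : the canonical extension is holomorphic

PROOF. `Dz_smul`: `h (τ' + x • (s z)(s z)ᵀ) = h (τ' + (s ^ 2 x) • z zᵀ)`, chain rule for the iterated derivative
in `x` at `0` (`iteratedDeriv_comp_const_mul` or `iteratedDeriv_const_smul`...; the function
`x ↦ h (τ' + x • z zᵀ)` is analytic at `0` because `τ' + x • z zᵀ` is symmetric and near `τ'`:
`h (N) = (h ∘ symm) N` for symmetric `N`).
`Hol_Dz`: at `M0` with `symm M0 ∈ HH (n+1)` the function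
`G (s, M) = (h ∘ symm) (lo (symm M) + s • z zᵀ)`, `z = zz (symm M)`, is analytic at `(0, M0)` (composition of
`h ∘ symm`, analytic at `lo (symm M0) ∈ HH n` (`HH_lo`, `symm_HH`), with polynomial maps; `vecMulVec z z` has
entries `z i * z j`); `lo (symm M) + s • z zᵀ` is symmetric so `symm` can be dropped; use
`analyticAt_param'`.
`Hol_PJ`: `M ↦ iteratedDeriv j f (symm M 0 0)` is analytic (`f` analytic on the open upper half plane implies
its iterated derivatives are; `im_pos_00`); sums and products with `Hol_Dz`.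
`line_analytic`: as above.
-/

set_option linter.unusedVariables false
set_option linter.unusedSectionVars false

namespace DG

open Matrix Complex Filter Topology Asymptotics

attribute [local instance] Matrix.normedAddCommGroup Matrix.normedSpace

theorem line_analytic {n : ℕ} {h : Mt n → ℂ} (hh : Hol n h) {τ' : Mt n} (hτ : τ' ∈ HH n)
    (S : Mt n) (hS : S.IsSymm) : AnalyticAt ℂ (fun s : ℂ => h (τ' + s • S)) 0 := by
  have hs : τ'.IsSymm := HH_symm hτ
  have hmem : τ' ∈ {M : Mt n | symm M ∈ HH n} := by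
    change symm τ' ∈ HH n
    rw [symm_eq hs]
    exact hτ
  have h1 : AnalyticAt ℂ (fun M : Mt n => h (symm M)) (τ' + (0 : ℂ) • S) := by
    rw [zero_smul, add_zero]
    exact hh τ' hmem
  have h2 : AnalyticAt ℂ (fun s : ℂ => τ' + s • S) 0 :=
    analyticAt_const.add (analyticAt_id.smul analyticAt_const)
  have h3 : AnalyticAt ℂ (fun s : ℂ => h (symm (τ' + s • S))) 0 :=
    AnalyticAt.comp (f := fun s : ℂ => τ' + s • S) (g := fun M : Mt n => h (symm M)) h1 h2
  have h4 : (fun s : ℂ => h (symm (τ' + s • S))) = fun s : ℂ => h (τ' + s • S) := by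
    funext s
    rw [symm_eq (hs.add (hS.smul s))]
  rw [h4] at h3
  exact h3

theorem iter_scale (c : ℂ) (j : ℕ) : ∀ f : ℂ → ℂ,
    iteratedDeriv j (fun x => f (c * x)) = fun x => c ^ j * iteratedDeriv j f (c * x) := by
  induction j with
  | zero =>
    intro f
    funext x
    simp
  | succ j ih =>
    intro f
    funext x
    rw [iteratedDeriv_succ, ih f, iteratedDeriv_succ, deriv_const_mul_field]
    have h1 : deriv (fun x => iteratedDeriv j f (c * x)) x = c * deriv (iteratedDeriv j f) (c * x) := by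
      have h2 := deriv_comp_mul_left (𝕜 := ℂ) c (iteratedDeriv j f) x
      rw [smul_eq_mul] at h2
      exact h2
    rw [h1, pow_succ]
    ring

theorem Dz_smul {n : ℕ} {h : Mt n → ℂ} (hh : Hol n h) (j : ℕ) (s : ℂ) (z : Fin n → ℂ)
    {τ' : Mt n} (hτ : τ' ∈ HH n) : Dz h j (s • z) τ' = s ^ (2 * j) * Dz h j z τ' := by
  unfold Dz
  have h1 : (fun x : ℂ => h (τ' + x • vecMulVec (s • z) (s • z))) =
      fun x : ℂ => (fun y : ℂ => h (τ' + y • vecMulVec z z)) (s ^ 2 * x) := by
    funext x
    have h2 : x • vecMulVec (s • z) (s • z) = (s ^ 2 * x) • vecMulVec z z := by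
      ext i k
      simp only [Matrix.smul_apply, vecMulVec_apply, Pi.smul_apply, smul_eq_mul]
      ring
    change h (τ' + x • vecMulVec (s • z) (s • z)) = h (τ' + (s ^ 2 * x) • vecMulVec z z)
    rw [h2]
  rw [h1, iter_scale (s ^ 2) j (fun y : ℂ => h (τ' + y • vecMulVec z z))]
  change (s ^ 2) ^ j * iteratedDeriv j (fun y : ℂ => h (τ' + y • vecMulVec z z)) (s ^ 2 * 0) = _
  rw [mul_zero, pow_mul]

end DG
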