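import Pool.Agent.helper32.DG.C0
import Pool.Agent.helper32.DG.E01
import Pool.Agent.helper32.DG.E02
import Pool.Agent.helper32.DG.E05a

/-!
# E05 : the canonical extension is holomorphic

PROOF. `Dz_smul`: `h (τ' + x • (s z)(s z)ᵀ) = h (τ' + (s ^ 2 x) • z zᵀ)`, chain rule for the iterated derivative
in `x` at `0` (`iteratedDeriv_comp_const_mul` or `iteratedDeriv_const_smul`...; the function
`x ↦ h (τ' + x • z zᵀ)` is analytic at `0` because `τ' + x • z zᵀ` is symmetric and near `τ'`:
`h (N) = (h ∘ symm) N` for symmetric `N`).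
`Hol_Dz`: at `M0` with `symm M0 ∈ HH (n+1)` the function
`G (s, M) = (h ∘ symm) (lo (symm M) + s • z zᵀ)`, `z = zz (symm M)`, is analytic at `(0, M0)` (composition of
`h ∘ symm`, analytic at `lo (symm M0) ∈ HH n` (`HH_lo`, `symm_HH`), with polynomial maps; `vecMulVec z z` has
entries `z i * z j`); `lo (symm M) + s • z zᵀ` is symmetric so `symm` can be dropped; use
`analyticAt_param'`.
`Hol_PJ`: `M ↦ iteratedDeriv j f (symm M 0 0)` is analytic (`f` analytic on the open upper half plane implies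
its iterated derivatives are; `im_pos_00`); sums and products with `Hol_Dz`.
`line_analytic`: as above.
-/

set_option linter.unusedVariables false
set_option linter.unusedSectionVars false

namespace DG

open Matrix Complex Filter Topology Asymptotics

attribute [local instance] Matrix.normedAddCommGroup Matrix.normedSpace

private theorem e05_mat {E : Type*} [NormedAddCommGroup E] [NormedSpace ℂ E] {n : ℕ}
    {F : E → Mt n} {x : E} (h : ∀ i j, AnalyticAt ℂ (fun y => F y i j) x) : AnalyticAt ℂ F x := by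
  have h1 : AnalyticAt ℂ (fun y => (fun i => (fun j => F y i j) : Fin n → Fin n → ℂ)) x :=
    AnalyticAt.pi fun i => AnalyticAt.pi fun j => h i j
  exact h1

private theorem e05_entry {n : ℕ} (i j : Fin n) (M0 : Mt n) :
    AnalyticAt ℂ (fun M : Mt n => M i j) M0 :=
  (LinearMap.toContinuousLinearMap
    { toFun := fun M : Mt n => M i j
      map_add' := fun _ _ => rfl
      map_smul' := fun _ _ => rfl }).analyticAt M0

private theorem e05_symm {n : ℕ} (i j : Fin n) (M0 : Mt n) :
    AnalyticAt ℂ (fun M : Mt n => symm M i j) M0 :=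
  AnalyticAt.comp' (g := fun M : Mt n => M i j) (f := symm) (e05_entry i j (symm M0))
    ((symmL n).analyticAt M0)

theorem Hol_Dz {n : ℕ} {h : Mt n → ℂ} (hh : Hol n h) (j : ℕ) :
    Hol (n + 1) (fun τ => Dz h j (zz τ) (lo τ)) := by
  intro M0 hM0
  have hM0' : symm M0 ∈ HH (n + 1) := hM0
  have hlo : lo (symm M0) ∈ HH n := HH_lo hM0'
  have h1 : AnalyticAt ℂ (fun N : Mt n => h (symm N)) (lo (symm M0)) :=
    hh (lo (symm M0)) (by rw [Set.mem_ofPred_eq, symm_HH hlo]; exact hlo)
  have hF : AnalyticAt ℂ (fun q : ℂ × Mt (n + 1) => lo (symm q.2) +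
      q.1 • vecMulVec (zz (symm q.2)) (zz (symm q.2))) (0, M0) := by
    refine e05_mat fun i k => ?_
    have he : ∀ i k : Fin (n + 1), AnalyticAt ℂ (fun q : ℂ × Mt (n + 1) => symm q.2 i k) (0, M0) := by
      intro i k
      exact AnalyticAt.comp (g := fun M : Mt (n + 1) => symm M i k)
        (f := fun q : ℂ × Mt (n + 1) => q.2) (x := ((0 : ℂ), M0)) (e05_symm i k M0) analyticAt_snd
    exact (he i.succ k.succ).add (analyticAt_fst.mul ((he 0 i.succ).mul (he 0 k.succ)))
  have hG : AnalyticAt ℂ (fun q : ℂ × Mt (n + 1) => h (symm (lo (symm q.2) +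
      q.1 • vecMulVec (zz (symm q.2)) (zz (symm q.2))))) (0, M0) := by
    refine AnalyticAt.comp' (g := fun N : Mt n => h (symm N)) ?_ hF
    simpa using h1
  have h2 := analyticAt_param' _ (0 : ℂ) M0 hG j
  refine h2.congr (Filter.Eventually.of_forall fun M => ?_)
  show iteratedDeriv j (fun s : ℂ => h (symm (lo (symm M) +
      s • vecMulVec (zz (symm M)) (zz (symm M))))) 0 = Dz h j (zz (symm M)) (lo (symm M))
  unfold Dz
  congr 1
  funext s
  rw [symm_eq]
  ext a b
  have hs := (symm_isSymm M).apply a.succ b.succ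
  simp only [Matrix.transpose_apply, Matrix.add_apply, Matrix.smul_apply, lo_apply,
    vecMulVec_apply, smul_eq_mul]
  rw [(symm_isSymm M).apply a.succ b.succ, mul_comm (zz (symm M) b)]

theorem Hol_PJ {n : ℕ} {f : ℂ → ℂ} (hf : AnalyticOnNhd ℂ f {z | 0 < z.im}) (k : ℕ)
    {h : Mt n → ℂ} (hh : Hol n h) (N : ℕ) : Hol (n + 1) (PJ f k h N) := by
  have hd : ∀ j : ℕ, Hol (n + 1) (fun τ : Mt (n + 1) => iteratedDeriv j f (τ 0 0)) := by
    intro j M0 hM0
    have hM0' : symm M0 ∈ HH (n + 1) := hM0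
    have h1 : AnalyticAt ℂ (iteratedDeriv j f) (symm M0 0 0) := by
      rw [iteratedDeriv_eq_iterate]
      exact hf.iterated_deriv j _ (im_pos_00 hM0')
    exact AnalyticAt.comp' (g := iteratedDeriv j f) (f := fun M : Mt (n + 1) => symm M 0 0)
      h1 (e05_symm 0 0 M0)
  unfold PJ
  refine Hol.sum _ _ fun j _ => ?_
  have h1 := ((hd j).mul (Hol_Dz hh j)).mul (Hol.const (n + 1) (cst k j)⁻¹)
  refine h1.congr fun τ _ => ?_
  rw [div_eq_mul_inv]

end DG
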