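import Pool.Agent.helper32.DG.C0
import Pool.Agent.helper32.DG.E05

/-!
# E06b : the canonical extension under translations and base changes (exact invariance)

PROOF. Fix `p`; on `HH (n+1)` the difference is `0`.
`Comp_gT`: `act (gT S) τ = mT S τ` and `det (den) = 1` (`DF.act_gT`); `StabM (gT S)` gives `S 0 i.succ = 0 = S i.succ 0`.
So the entry `(0,0)` is `τ 0 0 + S 0 0`, `zz` is unchanged, `lo` becomes `lo τ + S'`, `S' = S.submatrix succ succ`
symmetric.  `f^(j)(x + S 0 0) = f^(j)(x)` for `0 < im x` (periodicity with integer period on the open upper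
half plane: from `per` by induction on the integer in both directions, eventually equal functions of `x`).
`h (lo τ + S' + s z zᵀ) = h (lo τ + s z zᵀ)` for `s` near `0` (`hh.modular (gT S')`, `lo τ + s z zᵀ ∈ HH n` for
small `s`, `mem_nhds`), so the iterated derivatives at `0` agree (`Filter.EventuallyEq.iteratedDeriv_eq`).
`Comp_gU`: `act (gU U V) τ = mU U τ` and `det^2 = 1`, `k` even so `det^k = 1` (`DF.act_gU`).  `StabM` gives
`U = u ⊕ U'`, `V = v ⊕ V'`, `u v = 1`, `U' V' = 1`, `u ^ 2 = 1`.  Entry `(0,0)`: `u² τ 0 0 = τ 0 0`; `zz` becomes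
`u U' z`, `lo` becomes `mU U' (lo τ)`; `h (mU U' τ' + s (u U' z)(u U' z)ᵀ) = h (mU U' (τ' + s z zᵀ)) = h (τ' + s z zᵀ)`
(`hh.modular (gU U' V')`, `det^k = 1`).
-/

set_option linter.unusedVariables false
set_option linter.unusedSectionVars false

namespace DG

open Matrix Complex Filter Topology Asymptotics

attribute [local instance] Matrix.normedAddCommGroup Matrix.normedSpace

private theorem E06b_mU_line {n : ℕ} (U : Matrix (Fin n) (Fin n) ℤ) (A B : Mt n) (s : ℂ) :
    DF.mU U (A + s • B) = DF.mU U A + s • DF.mU U B := by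
  unfold DF.mU
  rw [Matrix.mul_add, Matrix.add_mul, Matrix.mul_smul, Matrix.smul_mul]

private theorem E06b_mU_vec {n : ℕ} (U : Matrix (Fin n) (Fin n) ℤ) (z : Fin n → ℂ) :
    DF.mU U (vecMulVec z z) =
      vecMulVec (fun i => ∑ a, z a * (U i a : ℂ)) (fun i => ∑ a, z a * (U i a : ℂ)) := by
  ext i j
  rw [vecMulVec_apply]
  simp only [DF.mU, Matrix.mul_apply, Matrix.map_apply, Matrix.transpose_apply, vecMulVec_apply]
  rw [Finset.mul_sum]
  refine Finset.sum_congr rfl fun a _ => ?_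
  rw [Finset.sum_mul, Finset.sum_mul]
  refine Finset.sum_congr rfl fun b _ => ?_
  ring

private theorem E06b_line_mem {n : ℕ} {τ' : Mt n} (hτ : τ' ∈ HH n) (z : Fin n → ℂ) :
    ∀ᶠ s : ℂ in 𝓝 0, τ' + s • vecMulVec z z ∈ HH n := by
  have h1 := mem_nhds hτ
  have hc : ContinuousAt (fun s : ℂ => τ' + s • vecMulVec z z) 0 := by
    fun_prop
  have h2 : Tendsto (fun s : ℂ => τ' + s • vecMulVec z z) (𝓝 0) (𝓝 τ') := by
    have := hc.tendsto
    simpa using this
  filter_upwards [h2.eventually h1] with s hs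
  refine hs ?_
  ext i j
  simp only [Matrix.transpose_apply, Matrix.add_apply, Matrix.smul_apply, vecMulVec_apply,
    smul_eq_mul]
  rw [HH_symm hτ |>.apply i j, mul_comm (z j)]

theorem Comp_gU {n w m N K : ℕ} (hw : Even w) {f : ℂ → ℂ} (hf : ModOne w f) {h : Mt n → ℂ}
    (hh : IsSec n w m h) (U V : Matrix (Fin (n + 1)) (Fin (n + 1)) ℤ) (hUV : U * V = 1)
    (hst : StabM (DF.gU U V)) : Comp w K (PJ f w h N) (DF.gU U V) := by
  have hdetw : ∀ {g : ℕ} (U V : Matrix (Fin g) (Fin g) ℤ) (hUV : U * V = 1) (τ : Mt g),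
      τ ∈ HH g → (DF.den (DF.gU U V) τ).det ^ w = 1 := by
    intro g U V hUV τ hτ
    obtain ⟨h1, -, -⟩ := DF.act_gU U V hUV τ hτ
    obtain ⟨r, rfl⟩ := hw
    rw [← two_mul, pow_mul, h1, one_pow]
  have hU0 : ∀ i : Fin n, U 0 i.succ = 0 := fun i => by
    have := hst (Sum.inl 0) (Sum.inl i.succ) (by simp [isz, Fin.succ_ne_zero])
    simpa [DF.gU] using this
  have hUs : ∀ i : Fin n, U i.succ 0 = 0 := fun i => by
    have := hst (Sum.inl i.succ) (Sum.inl 0) (by simp [isz, Fin.succ_ne_zero])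
    simpa [DF.gU] using this
  have hV0 : ∀ i : Fin n, V 0 i.succ = 0 := fun i => by
    have := hst (Sum.inr i.succ) (Sum.inr 0) (by simp [isz, Fin.succ_ne_zero])
    simpa [DF.gU] using this
  have hVs : ∀ i : Fin n, V i.succ 0 = 0 := fun i => by
    have := hst (Sum.inr 0) (Sum.inr i.succ) (by simp [isz, Fin.succ_ne_zero])
    simpa [DF.gU] using this
  set U' : Matrix (Fin n) (Fin n) ℤ := U.submatrix Fin.succ Fin.succ with hU'
  set V' : Matrix (Fin n) (Fin n) ℤ := V.submatrix Fin.succ Fin.succ with hV'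
  have hUV' : U' * V' = 1 := by
    ext i j
    have h1 := congrFun (congrFun hUV i.succ) j.succ
    rw [Matrix.mul_apply, Fin.sum_univ_succ, hUs, zero_mul, zero_add] at h1
    rw [Matrix.mul_apply]
    have h2 : (1 : Matrix (Fin (n + 1)) (Fin (n + 1)) ℤ) i.succ j.succ =
        (1 : Matrix (Fin n) (Fin n) ℤ) i j := by
      simp [Matrix.one_apply]
    rw [← h2, ← h1]
    rfl
  have hu : (U 0 0) ^ 2 = 1 := by
    have h1 := congrFun (congrFun hUV 0) 0
    rw [Matrix.mul_apply, Fin.sum_univ_succ] at h1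
    simp only [hU0, zero_mul, Finset.sum_const_zero, add_zero, Matrix.one_apply_eq] at h1
    rcases Int.isUnit_iff.mp (IsUnit.of_mul_eq_one _ h1) with h | h <;> rw [h] <;> norm_num
  have huc : (U 0 0 : ℂ) * (U 0 0 : ℂ) = 1 := by
    rw [← sq]; exact_mod_cast hu
  have key : ∀ τ ∈ HH (n + 1), PJ f w h N (DF.act (DF.gU U V) τ) -
      (DF.den (DF.gU U V) τ).det ^ w * PJ f w h N τ = 0 := by
    intro τ hτ
    obtain ⟨-, h2, h3⟩ := DF.act_gU U V hUV τ hτ
    rw [hdetw U V hUV τ hτ, one_mul, h2, sub_eq_zero]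
    have e00 : DF.mU U τ 0 0 = τ 0 0 := by
      simp only [DF.mU, Matrix.mul_apply, Matrix.map_apply, Matrix.transpose_apply,
        Fin.sum_univ_succ, hU0, Int.cast_zero, zero_mul, mul_zero, Finset.sum_const_zero, add_zero]
      linear_combination (τ 0 0) * huc
    have ez : zz (DF.mU U τ) = (U 0 0 : ℂ) • fun i => ∑ a, zz τ a * (U' i a : ℂ) := by
      funext i
      simp only [zz_apply, DF.mU, Matrix.mul_apply, Matrix.map_apply, Matrix.transpose_apply,
        Fin.sum_univ_succ, hU0, hUs, Int.cast_zero, zero_mul, mul_zero, Finset.sum_const_zero,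
        add_zero, zero_add, Pi.smul_apply, smul_eq_mul, Finset.mul_sum]
      refine Finset.sum_congr rfl fun a _ => ?_
      rw [mul_assoc]
      rfl
    have elo : lo (DF.mU U τ) = DF.mU U' (lo τ) := by
      ext i j
      simp only [lo_apply, DF.mU, Matrix.mul_apply, Matrix.map_apply, Matrix.transpose_apply,
        Fin.sum_univ_succ, hUs, Int.cast_zero, zero_mul, mul_zero, zero_add]
      rfl
    unfold PJ
    refine Finset.sum_congr rfl fun j _ => ?_
    rw [e00]
    have hD : Dz h j (zz (DF.mU U τ)) (lo (DF.mU U τ)) = Dz h j (zz τ) (lo τ) := by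
      unfold Dz
      apply Filter.EventuallyEq.iteratedDeriv_eq
      filter_upwards [E06b_line_mem (HH_lo hτ) (zz τ)] with s hs
      have h4 : lo (DF.mU U τ) + s • vecMulVec (zz (DF.mU U τ)) (zz (DF.mU U τ)) =
          DF.mU U' (lo τ + s • vecMulVec (zz τ) (zz τ)) := by
        rw [E06b_mU_line, E06b_mU_vec, elo, ez]
        congr 2
        ext i j
        simp only [vecMulVec_apply, Pi.smul_apply, smul_eq_mul]
        linear_combination ((∑ a, zz τ a * (U' i a : ℂ)) * (∑ a, zz τ a * (U' j a : ℂ))) * huc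
      rw [h4]
      obtain ⟨-, h5, -⟩ := DF.act_gU U' V' hUV' _ hs
      have h6 := hh.modular (DF.gU U' V') (DF.gens_sp _ (Or.inr (Or.inl ⟨U', V', hUV', rfl⟩))) _ hs
      rw [h5, hdetw U' V' hUV' _ hs, one_mul] at h6
      exact h6
    rw [hD]
  intro p hp hB
  refine (Asymptotics.isBigO_zero _ _).congr' ?_ (EventuallyEq.refl _ _)
  filter_upwards [self_mem_nhdsWithin] with τ hτ
  exact (key τ hτ).symm

end DG
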