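import Pool.Agent.helper32.DG.C0
import Pool.Agent.helper32.DG.E05

/-!
# E06a : the canonical extension under translations and base changes (exact invariance)

PROOF. Fix `p`; on `HH (n+1)` the difference is `0`.
`Comp_gT`: `act (gT S) τ = mT S τ` and `det (den) = 1` (`DF.act_gT`); `StabM (gT S)` gives `S 0 i.succ = 0 = S i.succ 0`.
So the entry `(0,0)` is `τ 0 0 + S 0 0`, `zz` is unchanged, `lo` becomes `lo τ + S'`, `S' = S.submatrix succ succ`
symmetric.  `f^(j)(x + S 0 0) = f^(j)(x)` for `0 < im x` (periodicity with integer period on the open upper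
half plane: from `per` by induction on the integer in both directions, eventually equal functions of `x`).
`h (lo τ + S' + s z zᵀ) = h (lo τ + s z zᵀ)` for `s` near `0` (`hh.modular (gT S')`, `lo τ + s z zᵀ ∈ HH n` for
small `s`, `mem_nhds`), so the iterated derivatives at `0` agree (`Filter.EventuallyEq.iteratedDeriv_eq`).
`Comp_gU`: `act (gU U V) τ = mU U τ` and `det^2 = 1`, `k` even so `det^k = 1` (`DF.act_gU`).  `StabM` gives
`U = u ⊕ U'`, `V = v ⊕ V'`, `u v = 1`, `U' V' = 1`, `u ^ 2 = 1`.  Entry `(0,0)`: `u² τ 0 0 = τ 0 0`; `zz` becomes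
`u U' z`, `lo` becomes `mU U' (lo τ)`; `h (mU U' τ' + s (u U' z)(u U' z)ᵀ) = h (mU U' (τ' + s z zᵀ)) = h (τ' + s z zᵀ)`
(`hh.modular (gU U' V')`, `det^k = 1`).
-/

set_option linter.unusedVariables false
set_option linter.unusedSectionVars false

namespace DG

open Matrix Complex Filter Topology Asymptotics

attribute [local instance] Matrix.normedAddCommGroup Matrix.normedSpace

private theorem E06a_line_mem {n : ℕ} {τ' : Mt n} (hτ : τ' ∈ HH n) (z : Fin n → ℂ) :
    ∀ᶠ s : ℂ in 𝓝 0, τ' + s • vecMulVec z z ∈ HH n := by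
  have h1 := mem_nhds hτ
  have hc : ContinuousAt (fun s : ℂ => τ' + s • vecMulVec z z) 0 := by
    fun_prop
  have h2 : Tendsto (fun s : ℂ => τ' + s • vecMulVec z z) (𝓝 0) (𝓝 τ') := by
    have := hc.tendsto
    simpa using this
  filter_upwards [h2.eventually h1] with s hs
  refine hs ?_
  ext i j
  simp only [Matrix.transpose_apply, Matrix.add_apply, Matrix.smul_apply, vecMulVec_apply,
    smul_eq_mul]
  rw [HH_symm hτ |>.apply i j, mul_comm (z j)]

private theorem E06a_per_int {w : ℕ} {f : ℂ → ℂ} (hf : ModOne w f) (a : ℤ) :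
    ∀ z : ℂ, 0 < z.im → f (z + (a : ℂ)) = f z := by
  have hnat : ∀ (b : ℕ) (z : ℂ), 0 < z.im → f (z + (b : ℂ)) = f z := by
    intro b
    induction b with
    | zero => intro z _; simp
    | succ b ih =>
      intro z hz
      have h1 : z + ((b + 1 : ℕ) : ℂ) = (z + (b : ℂ)) + 1 := by push_cast; ring
      rw [h1, hf.per _ (by simpa using hz), ih z hz]
  intro z hz
  rcases Int.eq_nat_or_neg a with ⟨b, rfl | rfl⟩
  · simpa using hnat b z hz
  · have h2 := hnat b (z + ((-(b : ℤ) : ℤ) : ℂ)) (by simpa using hz)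
    rw [← h2]
    congr 1
    push_cast
    ring

private theorem E06a_der_per {w : ℕ} {f : ℂ → ℂ} (hf : ModOne w f) (a : ℤ) (j : ℕ) (z : ℂ)
    (hz : 0 < z.im) : iteratedDeriv j f (z + (a : ℂ)) = iteratedDeriv j f z := by
  have h1 : iteratedDeriv j (fun x => f (x + (a : ℂ))) z = iteratedDeriv j f (z + (a : ℂ)) := by
    rw [iteratedDeriv_comp_add_const]
  rw [← h1]
  apply Filter.EventuallyEq.iteratedDeriv_eq
  have hop : IsOpen {x : ℂ | 0 < x.im} := isOpen_lt continuous_const Complex.continuous_im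
  filter_upwards [hop.mem_nhds hz] with x hx
  exact E06a_per_int hf a x hx

theorem Comp_gT {n k w m N K : ℕ} {f : ℂ → ℂ} (hf : ModOne w f) {h : Mt n → ℂ}
    (hh : IsSec n w m h) (S : Matrix (Fin (n + 1)) (Fin (n + 1)) ℤ) (hS : S.IsSymm)
    (hst : StabM (DF.gT S)) : Comp k K (PJ f w h N) (DF.gT S) := by
  have hS0 : ∀ i : Fin n, S 0 i.succ = 0 := fun i => by
    have := hst (Sum.inl 0) (Sum.inr i.succ) (by simp [isz, Fin.succ_ne_zero])
    simpa [DF.gT] using this
  have hSs : ∀ i : Fin n, S i.succ 0 = 0 := fun i => by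
    have := hst (Sum.inl i.succ) (Sum.inr 0) (by simp [isz, Fin.succ_ne_zero])
    simpa [DF.gT] using this
  set S' : Matrix (Fin n) (Fin n) ℤ := S.submatrix Fin.succ Fin.succ with hS'
  have hSS' : S'.IsSymm := by
    ext i j
    exact hS.apply i.succ j.succ
  have key : ∀ τ ∈ HH (n + 1), PJ f w h N (DF.act (DF.gT S) τ) -
      (DF.den (DF.gT S) τ).det ^ k * PJ f w h N τ = 0 := by
    intro τ hτ
    obtain ⟨h1, h2, h3⟩ := DF.act_gT S hS τ hτ
    rw [h1, one_pow, one_mul, h2, sub_eq_zero]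
    have e00 : DF.mT S τ 0 0 = τ 0 0 + (S 0 0 : ℂ) := by
      simp [DF.mT]
    have ez : zz (DF.mT S τ) = zz τ := by
      funext i
      simp [zz_apply, DF.mT, hS0]
    have elo : lo (DF.mT S τ) = DF.mT S' (lo τ) := by
      ext i j
      simp [lo_apply, DF.mT, hS']
    unfold PJ
    refine Finset.sum_congr rfl fun j _ => ?_
    rw [e00, E06a_der_per hf _ _ _ (im_pos_00 hτ)]
    have hD : Dz h j (zz (DF.mT S τ)) (lo (DF.mT S τ)) = Dz h j (zz τ) (lo τ) := by
      unfold Dz
      apply Filter.EventuallyEq.iteratedDeriv_eq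
      filter_upwards [E06a_line_mem (HH_lo hτ) (zz τ)] with s hs
      have h4 : lo (DF.mT S τ) + s • vecMulVec (zz (DF.mT S τ)) (zz (DF.mT S τ)) =
          DF.mT S' (lo τ + s • vecMulVec (zz τ) (zz τ)) := by
        rw [elo, ez]
        unfold DF.mT
        abel
      rw [h4]
      obtain ⟨h5, h6, -⟩ := DF.act_gT S' hSS' _ hs
      have h7 := hh.modular (DF.gT S') (DF.gens_sp _ (Or.inl ⟨S', hSS', rfl⟩)) _ hs
      rw [h6, h5, one_pow, one_mul] at h7
      exact h7
    rw [hD]
  intro p hp hB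
  refine (Asymptotics.isBigO_zero _ _).congr' ?_ (EventuallyEq.refl _ _)
  filter_upwards [self_mem_nhdsWithin] with τ hτ
  exact (key τ hτ).symm

end DG
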