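import Pool.Agent.helper32.DG.C0
import Pool.Agent.helper32.DG.E03
import Pool.Agent.helper32.DG.E04
import Pool.Agent.helper32.DG.E05

/-!
# E07 : the canonical extension under the inversion of the first variable

PROOF. `DF.act_gJ 0`: `act (gJ 0) τ = mJ 0 τ`, `det den = τ 0 0`.
By `radial_zz` applied to `u τ = PJ (act (gJ 0) τ) - det^w PJ τ` (`Hol_PJ`, `Hol.comp_act`, `Hol.den_det`, ...)
it is enough to show `u (sc t τ) = O(t^K)` as `t → 0` for fixed `τ ∈ HH (n+1)`.  For `t` near `0`: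
`sc t τ ∈ HH` (it tends to `blk (τ 0 0) 0 (lo τ) ∈ HH`, `HH_blk`, `mem_nhds`).
Let `a0 = τ 0 0`, `z = zz τ`, `τ' = lo τ`, `x = t²`, `κ = 1 / a0`, `δ = a0^w`, `φ s = f (a0 + s)`,
`ψ s = f (-1/a0 + s / a0²)`, `a s = h (τ' + s z zᵀ)`.  `mJ 0 (sc t τ)` has entry `(0,0)` equal to `-1/a0`, `zz = (t/a0) z`,
`lo = τ' - (t²/a0) z zᵀ = τ' + (-κ x) z zᵀ`.  Hence
`Dz h j ((t/a0) z) (..) = (t²/a0²)^j a^(j)(-κ x)` (chain rule; `iteratedDeriv` of a shifted function;
this is for `x` near `0`), `a0^(-2j) f^(j)(-1/a0) = ψ^(j)(0)`, so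
`PJ (mJ 0 (sc t τ)) = ∑_{j<N} x^j ψ^(j)(0) a^(j)(-κ x) / cst w j`, and `PJ (sc t τ) = ∑_{j<N} x^j φ^(j)(0) a^(j)(0) / cst w j`
(`Dz_smul`).  The hypothesis of `mobius_pairing`: `-1/a0 + s / (a0² (1 + s/a0)) = -1/(a0 + s)` and `hf.inv`.
Its conclusion `O(x^N)` with `x = t²` and `K ≤ 2 N` gives the claim.
-/

set_option linter.unusedVariables false
set_option linter.unusedSectionVars false

namespace DG

open Matrix Complex Filter Topology Asymptotics

attribute [local instance] Matrix.normedAddCommGroup Matrix.normedSpace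

/-- iterated derivative of `f (c * x)`, no smoothness needed -/
theorem E07_iter_mul (f : ℂ → ℂ) (c : ℂ) (j : ℕ) :
    iteratedDeriv j (fun x => f (c * x)) = fun x => c ^ j * iteratedDeriv j f (c * x) := by
  induction j with
  | zero =>
    funext x
    simp [iteratedDeriv_zero]
  | succ j ih =>
    rw [iteratedDeriv_succ, ih]
    funext x
    rw [deriv_const_mul_field', iteratedDeriv_succ]
    have h1 := deriv_comp_mul_left c (iteratedDeriv j f) x
    rw [smul_eq_mul] at h1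
    change c ^ j * deriv (fun x => iteratedDeriv j f (c * x)) x = _
    rw [h1]
    ring

theorem E07_mJ {n : ℕ} (a t : ℂ) (z : Fin n → ℂ) (τ' : Mt n) (ha : a ≠ 0) :
    DF.mJ 0 (blk a (t • z) τ') =
      blk (-1 / a) ((t / a) • z) (τ' + (-(1 / a) * t ^ 2) • vecMulVec z z) := by
  apply mt_ext
  · simp [DF.mJ]
  · intro i
    simp only [DF.mJ, Matrix.of_apply, blk_0s, blk_00, if_true, Pi.smul_apply, smul_eq_mul]
    rw [if_neg (Fin.succ_ne_zero i)]
    ring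
  · intro i
    simp only [DF.mJ, Matrix.of_apply, blk_s0, blk_00, if_true, Pi.smul_apply, smul_eq_mul]
    rw [if_neg (Fin.succ_ne_zero i)]
    ring
  · intro i j
    simp only [DF.mJ, Matrix.of_apply, blk_ss, blk_s0, blk_0s, blk_00, Pi.smul_apply, smul_eq_mul,
      Matrix.add_apply, Matrix.smul_apply, vecMulVec_apply]
    rw [if_neg (Fin.succ_ne_zero i), if_neg (Fin.succ_ne_zero j)]
    field_simp
    ring

theorem E07_near {n : ℕ} {τ : Mt (n + 1)} (hτ : τ ∈ HH (n + 1)) :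
    ∀ᶠ t in 𝓝 (0 : ℂ), sc t τ ∈ HH (n + 1) := by
  have h0 : blk (τ 0 0) 0 (lo τ) ∈ HH (n + 1) := HH_blk (im_pos_00 hτ) (HH_lo hτ)
  have h1 := mem_nhds h0
  have hc : Continuous fun t : ℂ => sc t τ := by
    refine continuous_matrix fun i j => ?_
    refine Fin.cases ?_ (fun i' => ?_) i
    · refine Fin.cases ?_ (fun j' => ?_) j
      · exact continuous_const
      · change Continuous fun t : ℂ => t * zz τ j'
        fun_prop
    · refine Fin.cases ?_ (fun j' => ?_) j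
      · change Continuous fun t : ℂ => t * zz τ i'
        fun_prop
      · exact continuous_const
  have h2 : sc 0 τ = blk (τ 0 0) 0 (lo τ) := by
    unfold sc
    rw [zero_smul]
  have h3 : Tendsto (fun t : ℂ => sc t τ) (𝓝 0) (𝓝 (blk (τ 0 0) 0 (lo τ))) := by
    rw [← h2]
    exact hc.tendsto 0
  filter_upwards [h3.eventually h1] with t ht
  refine ht ?_
  have hs := hτ.1
  apply mt_ext
  · rfl
  · intro i; rfl
  · intro i; rfl
  · intro i j
    exact hs.apply _ _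

theorem E07_pow {K N : ℕ} (hN : K ≤ 2 * N) :
    (fun t : ℂ => (t ^ 2) ^ N) =O[𝓝 0] fun t : ℂ => t ^ K := by
  refine IsBigO.of_bound 1 ?_
  filter_upwards [Metric.closedBall_mem_nhds (0 : ℂ) one_pos] with t ht
  rw [mem_closedBall_zero_iff] at ht
  rw [one_mul, ← pow_mul, norm_pow, norm_pow]
  exact pow_le_pow_of_le_one (norm_nonneg _) ht hN

theorem Comp_gJ0 {n w N K : ℕ} (hw : 1 ≤ w) (hN : K ≤ 2 * N) {f : ℂ → ℂ} (hf : ModOne w f)
    {h : Mt n → ℂ} (hh : Hol n h) : Comp w K (PJ f w h N) (DF.gJ (0 : Fin (n + 1))) := by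
  intro p hp hB
  have hsp : DF.gJ (0 : Fin (n + 1)) ∈ Matrix.symplecticGroup (Fin (n + 1)) ℤ :=
    DF.gens_sp _ (Or.inr (Or.inr ⟨0, rfl⟩))
  have hPJ := Hol_PJ hf.holo w hh N
  have hu : Hol (n + 1) (fun τ => PJ f w h N (DF.act (DF.gJ 0) τ) -
      (DF.den (DF.gJ 0) τ).det ^ w * PJ f w h N τ) :=
    (hPJ.comp_act hsp).sub (((Hol.den_det _).pow w).mul hPJ)
  refine radial_zz K _ hu p hp hB fun τ hτ => ?_
  obtain ⟨a0, ha0⟩ : ∃ a0, a0 = τ 0 0 := ⟨_, rfl⟩
  obtain ⟨z, hz⟩ : ∃ z, z = zz τ := ⟨_, rfl⟩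
  obtain ⟨τ', hτ'⟩ : ∃ τ', τ' = lo τ := ⟨_, rfl⟩
  have him : 0 < a0.im := ha0 ▸ im_pos_00 hτ
  have hne : a0 ≠ 0 := by
    intro h0
    rw [h0] at him
    simp at him
  have hτ'H : τ' ∈ HH n := hτ' ▸ HH_lo hτ
  have hS : (vecMulVec z z : Mt n).IsSymm := by
    ext i j
    simp only [Matrix.transpose_apply, vecMulVec_apply]
    ring
  obtain ⟨a, ha⟩ : ∃ a : ℂ → ℂ, a = fun s => h (τ' + s • vecMulVec z z) := ⟨_, rfl⟩
  have haA : AnalyticAt ℂ a 0 := ha ▸ line_analytic hh hτ'H _ hS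
  obtain ⟨φ, hφ⟩ : ∃ φ : ℂ → ℂ, φ = fun s => f (a0 + s) := ⟨_, rfl⟩
  obtain ⟨g1, hg1⟩ : ∃ g1 : ℂ → ℂ, g1 = fun s => f (-1 / a0 + s) := ⟨_, rfl⟩
  obtain ⟨ψ, hψ⟩ : ∃ ψ : ℂ → ℂ, ψ = fun s => g1 (1 / a0 ^ 2 * s) := ⟨_, rfl⟩
  have him2 : 0 < (-1 / a0).im := by
    have h1 : (-1 / a0).im = a0.im / Complex.normSq a0 := by
      rw [Complex.div_im]
      simp
      ring
    rw [h1]
    exact div_pos him (Complex.normSq_pos.2 hne)
  have hφA : AnalyticAt ℂ φ 0 := by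
    rw [hφ]
    have h1 : AnalyticAt ℂ (fun s : ℂ => a0 + s) 0 := by fun_prop
    exact AnalyticAt.fun_comp_of_eq (hf.holo a0 him) h1 (by simp)
  have hψA : AnalyticAt ℂ ψ 0 := by
    rw [hψ, hg1]
    have h1 : AnalyticAt ℂ (fun s : ℂ => -1 / a0 + 1 / a0 ^ 2 * s) 0 := by fun_prop
    exact AnalyticAt.fun_comp_of_eq (hf.holo (-1 / a0) him2) h1 (by simp)
  have hφ' : ∀ i, iteratedDeriv i φ 0 = iteratedDeriv i f a0 := by
    intro i
    rw [hφ, iteratedDeriv_comp_const_add]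
    simp
  have hψ' : ∀ i, iteratedDeriv i ψ 0 = (1 / a0 ^ 2) ^ i * iteratedDeriv i f (-1 / a0) := by
    intro i
    rw [hψ, E07_iter_mul, hg1, iteratedDeriv_comp_const_add]
    simp
  have hmob : ∀ᶠ s in 𝓝 (0 : ℂ),
      ψ (s / (1 + 1 / a0 * s)) = a0 ^ w * (1 + 1 / a0 * s) ^ w * φ s := by
    have hc : ContinuousAt (fun s : ℂ => (a0 + s).im) 0 := by fun_prop
    have h1 : ∀ᶠ s in 𝓝 (0 : ℂ), 0 < (a0 + s).im :=
      continuousAt_const.eventually_lt hc (by simpa using him)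
    filter_upwards [h1] with s hs
    have hne2 : a0 + s ≠ 0 := by
      intro h0
      rw [h0] at hs
      simp at hs
    have h2 : -1 / a0 + 1 / a0 ^ 2 * (s / (1 + 1 / a0 * s)) = -1 / (a0 + s) := by
      have h3 : 1 + 1 / a0 * s = (a0 + s) / a0 := by field_simp
      rw [h3]
      field_simp
      ring
    rw [hψ, hg1, hφ]
    change f (-1 / a0 + 1 / a0 ^ 2 * (s / (1 + 1 / a0 * s))) = _
    rw [h2, hf.inv _ hs, ← mul_pow]
    congr 2
    field_simp
  have key := mobius_pairing w hw N (1 / a0) (a0 ^ w) a φ ψ haA hφA hψA hmob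
  have hsq : Tendsto (fun t : ℂ => t ^ 2) (𝓝 0) (𝓝 0) := by
    have h1 : Continuous fun t : ℂ => t ^ 2 := by fun_prop
    simpa using h1.tendsto 0
  have key2 := (key.comp_tendsto hsq).trans (E07_pow hN)
  refine key2.congr' ?_ EventuallyEq.rfl
  filter_upwards [E07_near hτ] with t ht
  have hsc : sc t τ = blk a0 (t • z) τ' := by
    rw [ha0, hz, hτ']
    rfl
  obtain ⟨hden, hact, hmem⟩ := DF.act_gJ (0 : Fin (n + 1)) (sc t τ) ht
  have hden' : (DF.den (DF.gJ (0 : Fin (n + 1))) (sc t τ)).det = a0 := by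
    rw [hden, hsc]
    rfl
  rw [hact, hden', hsc, E07_mJ _ _ _ _ hne] at *
  have hlo : τ' + (-(1 / a0) * t ^ 2) • vecMulVec z z ∈ HH n := by
    have := HH_lo hmem
    rwa [lo_blk] at this
  have hD1 : ∀ j, Dz h j (t • z) τ' = t ^ (2 * j) * iteratedDeriv j a 0 := by
    intro j
    rw [Dz_smul hh j t z hτ'H, ha]
    rfl
  have hD2 : ∀ j, Dz h j ((t / a0) • z) (τ' + (-(1 / a0) * t ^ 2) • vecMulVec z z)
      = (t / a0) ^ (2 * j) * iteratedDeriv j a (-(1 / a0) * t ^ 2) := by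
    intro j
    rw [Dz_smul hh j (t / a0) z hlo]
    congr 1
    have h1 : (fun s : ℂ => h (τ' + (-(1 / a0) * t ^ 2) • vecMulVec z z + s • vecMulVec z z))
        = fun s => a (s + -(1 / a0) * t ^ 2) := by
      funext s
      rw [ha, add_assoc, ← add_smul, add_comm s]
    unfold Dz
    rw [h1, iteratedDeriv_comp_add_const]
    simp
  simp only [Function.comp_apply, PJ, blk_00, zz_blk, lo_blk, hD1, hD2, hφ', hψ']
  congr 1
  · refine Finset.sum_congr rfl fun j _ => ?_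
    congr 1
    have h1 : (t / a0) ^ (2 * j) = (t ^ 2) ^ j * (1 / a0 ^ 2) ^ j := by
      rw [pow_mul, ← mul_pow]
      congr 1
      field_simp
    rw [h1]
    ring
  · congr 1
    refine Finset.sum_congr rfl fun j _ => ?_
    congr 1
    rw [pow_mul]
    ring

end DG
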