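import Pool.Agent.helper32.DG.C0
import Pool.Agent.helper32.DG.E03
import Pool.Agent.helper32.DG.E04
import Pool.Agent.helper32.DG.E05

/-!
# E08 : the canonical extension under the inversion of another variable

PROOF. `DF.act_gJ i.succ`: `act (gJ i.succ) τ = mJ i.succ τ`, `det den = τ i.succ i.succ`.
By `radial_zz` applied to `u τ = PJ (act γ τ) - det^w PJ τ` it is enough to show `u (sc t τ) = O(t^K)` as `t → 0`
for fixed `τ ∈ HH (n+1)`; for `t` near `0`: `sc t τ ∈ HH`.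
Let `a0 = τ 0 0`, `z = zz τ`, `τ' = lo τ`, `d = τ' i i ≠ 0` (`DF.diag_ne`), `x = t²`, `κ = z_i² / d`, `δ = d^w`,
`ẑ_i = z_i / d`, `ẑ_j = z_j - τ'_ji z_i / d` (`j ≠ i`).  `mJ i.succ (sc t τ)` has entry `(0,0)` equal to `a0 - κ x`,
`zz = t ẑ`, `lo = mJ i τ'`.  Let `a s = f (a0 + s)`, `φ s = h (τ' + s z zᵀ)`, `ψ s = h (mJ i τ' + s ẑ ẑᵀ)`:
`PJ (act γ (sc t τ)) = ∑_{j<N} a^(j)(-κ x) x^j ψ^(j)(0) / cst w j` (`Dz_smul` at `mJ i τ' ∈ HH n`),
`PJ (sc t τ) = ∑_{j<N} a^(j)(0) x^j φ^(j)(0) / cst w j`, `det^w = δ`.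
Hypothesis of `mobius_pairing`: for `s` near `0`: `mJ i (τ' + s z zᵀ) = mJ i τ' + (s / (1 + κ s)) ẑ ẑᵀ` (entrywise
computation; `(τ' + s z zᵀ) i i = d (1 + κ s)`), and `h (mJ i (τ' + s z zᵀ)) = (d (1 + κ s))^w h (τ' + s z zᵀ)`
(`hh.modular (gJ i)`, `DF.act_gJ`, `DF.gens_sp`).
-/

set_option linter.unusedVariables false
set_option linter.unusedSectionVars false

namespace DG

open Matrix Complex Filter Topology Asymptotics

attribute [local instance] Matrix.normedAddCommGroup Matrix.normedSpace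

theorem E08_vsymm {n : ℕ} (z : Fin n → ℂ) : (vecMulVec z z).IsSymm := by
  ext i j
  simp only [Matrix.transpose_apply, vecMulVec_apply]
  ring

/-- the vector `ẑ` -/
noncomputable def E08_zh {n : ℕ} (τ' : Mt n) (i : Fin n) (z : Fin n → ℂ) : Fin n → ℂ :=
  fun j => if j = i then z i / τ' i i else z j - z i * τ' i j / τ' i i

theorem E08_mJ_line {n : ℕ} {τ' : Mt n} (hs : τ'.IsSymm) (i : Fin n) (z : Fin n → ℂ) (s : ℂ)
    (hd : τ' i i ≠ 0) (hD : 1 + z i ^ 2 / τ' i i * s ≠ 0) :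
    DF.mJ i (τ' + s • vecMulVec z z) =
      DF.mJ i τ' + (s / (1 + z i ^ 2 / τ' i i * s)) • vecMulVec (E08_zh τ' i z) (E08_zh τ' i z) := by
  obtain ⟨D, hDD⟩ : ∃ D, D = τ' i i + s * (z i * z i) := ⟨_, rfl⟩
  have e1 : 1 + z i ^ 2 / τ' i i * s = D / τ' i i := by
    rw [hDD]
    field_simp
  rw [e1] at hD ⊢
  have hD0 : D ≠ 0 := by
    intro h0
    apply hD
    rw [h0, zero_div]
  ext j k
  simp only [DF.mJ, E08_zh, Matrix.of_apply, Matrix.add_apply, Matrix.smul_apply,
    vecMulVec_apply, smul_eq_mul]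
  have hji : τ' j i = τ' i j := hs.apply i j
  rw [← hDD, hji]
  generalize τ' i i = d at *
  generalize τ' j k = e at *
  by_cases hj : j = i <;> by_cases hk : k = i
  · subst hj
    subst hk
    simp only [if_true]
    field_simp
    rw [hDD]
    ring
  · subst hj
    simp only [if_true, if_neg hk]
    field_simp
    rw [hDD]
    ring
  · subst hk
    simp only [if_true, if_neg hj]
    field_simp
    rw [hDD]
    ring
  · simp only [if_neg hj, if_neg hk]
    field_simp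
    rw [hDD]
    ring

theorem E08_sc_symm {n : ℕ} {τ : Mt (n + 1)} (h : τ.IsSymm) (t : ℂ) : (sc t τ).IsSymm := by
  apply mt_ext
  · rfl
  · intro i; rfl
  · intro i; rfl
  · intro i j
    exact h.apply _ _

theorem E08_sc_mem {n : ℕ} {τ : Mt (n + 1)} (h : τ ∈ HH (n + 1)) :
    ∀ᶠ t in 𝓝 (0 : ℂ), sc t τ ∈ HH (n + 1) := by
  have hcont : Continuous fun t : ℂ => sc t τ := by
    refine continuous_matrix fun a b => ?_
    refine Fin.cases ?_ (fun a' => ?_) a
    · refine Fin.cases ?_ (fun b' => ?_) b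
      · exact continuous_const
      · exact continuous_id.mul continuous_const
    · refine Fin.cases ?_ (fun b' => ?_) b
      · exact continuous_id.mul continuous_const
      · exact continuous_const
  have h0 : sc 0 τ ∈ HH (n + 1) := by
    unfold sc
    rw [zero_smul]
    exact HH_blk (im_pos_00 h) (HH_lo h)
  filter_upwards [hcont.continuousAt.eventually (mem_nhds h0)] with t ht
  exact ht (E08_sc_symm h.1 t)

theorem E08_line_mem {n : ℕ} {τ' : Mt n} (h : τ' ∈ HH n) (z : Fin n → ℂ) :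
    ∀ᶠ s in 𝓝 (0 : ℂ), τ' + s • vecMulVec z z ∈ HH n := by
  have hcont : Continuous fun s : ℂ => τ' + s • vecMulVec z z := by fun_prop
  have h0 : τ' + (0 : ℂ) • vecMulVec z z ∈ HH n := by
    rw [zero_smul, add_zero]
    exact h
  filter_upwards [hcont.continuousAt.eventually (mem_nhds h0)] with s hs
  exact hs (h.1.add ((E08_vsymm z).smul s))

theorem E08_mJ_sc {n : ℕ} (τ : Mt (n + 1)) (hs : τ.IsSymm) (i : Fin n) (t : ℂ) :
    DF.mJ i.succ (sc t τ) = blk (τ 0 0 + -(zz τ i ^ 2 / lo τ i i) * t ^ 2)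
      (t • E08_zh (lo τ) i (zz τ)) (DF.mJ i (lo τ)) := by
  have h0 : (0 : Fin (n + 1)) ≠ i.succ := (Fin.succ_ne_zero i).symm
  apply mt_ext
  · simp only [DF.mJ, Matrix.of_apply, if_neg h0, sc, blk_00, blk_0s, blk_s0, blk_ss,
      Pi.smul_apply, smul_eq_mul]
    ring
  · intro j
    simp only [DF.mJ, Matrix.of_apply, if_neg h0, sc, blk_00, blk_0s, blk_s0, blk_ss,
      Pi.smul_apply, smul_eq_mul, Fin.succ_inj, E08_zh]
    split_ifs <;> ring
  · intro j
    have hij : lo τ j i = lo τ i j := hs.apply _ _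
    simp only [DF.mJ, Matrix.of_apply, if_neg h0, sc, blk_00, blk_0s, blk_s0, blk_ss,
      Pi.smul_apply, smul_eq_mul, Fin.succ_inj, E08_zh, hij]
    split_ifs <;> ring
  · intro j k
    simp only [DF.mJ, Matrix.of_apply, sc, blk_ss, Fin.succ_inj]

theorem Comp_gJs {n w m N K : ℕ} (hw : 1 ≤ w) (hN : K ≤ 2 * N) {f : ℂ → ℂ} (hf : ModOne w f)
    {h : Mt n → ℂ} (hh : IsSec n w m h) (i : Fin n) :
    Comp w K (PJ f w h N) (DF.gJ i.succ) := by
  have hγ : DF.gJ i.succ ∈ Matrix.symplecticGroup (Fin (n + 1)) ℤ :=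
    DF.gens_sp _ (Or.inr (Or.inr ⟨_, rfl⟩))
  have hγ' : DF.gJ i ∈ Matrix.symplecticGroup (Fin n) ℤ :=
    DF.gens_sp _ (Or.inr (Or.inr ⟨_, rfl⟩))
  intro p hp hB
  refine radial_zz K (fun τ => PJ f w h N (DF.act (DF.gJ i.succ) τ) -
    (DF.den (DF.gJ i.succ) τ).det ^ w * PJ f w h N τ) ?_ p hp hB ?_
  · exact ((Hol_PJ hf.holo w hh.holo N).comp_act hγ).sub
      (((Hol.den_det _).pow w).mul (Hol_PJ hf.holo w hh.holo N))
  · intro τ hτ
    have hτ' := HH_lo hτ
    have hd : lo τ i i ≠ 0 := DF.diag_ne i _ hτ'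
    set a0 := τ 0 0 with ha0
    set z := zz τ with hz
    set τ' := lo τ with hlo
    set κ := z i ^ 2 / τ' i i with hκ
    set δ := τ' i i ^ w with hδ
    have hmem := (DF.act_gJ i τ' hτ').2.2
    have ha : AnalyticAt ℂ (fun s : ℂ => f (a0 + s)) 0 := by
      have h1 : AnalyticAt ℂ f (a0 + 0) := by
        rw [add_zero]
        exact hf.holo a0 (im_pos_00 hτ)
      exact AnalyticAt.comp (g := f) (f := fun s : ℂ => a0 + s) h1 (by fun_prop)
    have hφ := line_analytic hh.holo hτ' (vecMulVec z z) (E08_vsymm z)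
    have hψ := line_analytic hh.holo hmem (vecMulVec (E08_zh τ' i z) (E08_zh τ' i z))
      (E08_vsymm _)
    have hpair := mobius_pairing w hw N κ δ (fun s : ℂ => f (a0 + s))
      (fun s : ℂ => h (τ' + s • vecMulVec z z))
      (fun s : ℂ => h (DF.mJ i τ' + s • vecMulVec (E08_zh τ' i z) (E08_zh τ' i z))) ha hφ hψ ?_
    · have hsq : Tendsto (fun t : ℂ => t ^ 2) (𝓝 0) (𝓝 0) := by
        have h1 : Tendsto (fun t : ℂ => t ^ 2) (𝓝 0) (𝓝 (0 ^ 2)) :=
          (continuous_pow 2).tendsto 0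
        simpa using h1
      have h2 := hpair.comp_tendsto hsq
      have h3 : (fun t : ℂ => (t ^ 2) ^ N) =O[𝓝 0] fun t => t ^ K := by
        have h4 : (fun t : ℂ => (t ^ 2) ^ N) = fun t => t ^ (2 * N) := by
          funext t
          rw [← pow_mul]
        rw [h4]
        have h5 : (fun t : ℂ => t ^ (2 * N)) = fun t => t ^ (2 * N - K) * t ^ K := by
          funext t
          rw [← pow_add, Nat.sub_add_cancel hN]
        rw [h5]
        have h6 : (fun t : ℂ => t ^ (2 * N - K)) =O[𝓝 0] fun _ => (1 : ℂ) :=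
          (continuous_pow (2 * N - K)).continuousAt.isBigO_one ℂ
        have h7 := h6.mul (isBigO_refl (fun t : ℂ => t ^ K) (𝓝 0))
        simpa only [one_mul] using h7
      refine IsBigO.congr' (h2.trans h3) ?_ (EventuallyEq.refl _ _)
      filter_upwards [E08_sc_mem hτ] with t ht
      obtain ⟨e1, e2, -⟩ := DF.act_gJ i.succ (sc t τ) ht
      rw [e1, e2, E08_mJ_sc τ hτ.1 i t]
      have hit : ∀ (j : ℕ) (y : ℂ), iteratedDeriv j (fun s : ℂ => f (a0 + s)) y =
          iteratedDeriv j f (a0 + y) := fun j y => by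
        rw [iteratedDeriv_comp_const_add]
      simp only [Function.comp_apply, hit, add_zero]
      unfold PJ
      rw [Finset.mul_sum]
      refine congrArg₂ (· - ·) (Finset.sum_congr rfl fun j _ => ?_) ?_
      · rw [blk_00, zz_blk, lo_blk, Dz_smul hh.holo j t _ hmem]
        simp only [Dz]
        rw [← ha0, ← hz, ← hlo, ← hκ, pow_mul]
        ring
      · rw [Finset.mul_sum]
        refine Finset.sum_congr rfl fun j _ => ?_
        simp only [sc, blk_00, zz_blk, lo_blk, blk_ss]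
        rw [Dz_smul hh.holo j t _ hτ']
        simp only [Dz]
        rw [← ha0, ← hz, ← hlo, pow_mul, hδ]
        ring
    · have h1 : ∀ᶠ s in 𝓝 (0 : ℂ), 1 + κ * s ≠ 0 := by
        have h2 : ContinuousAt (fun s : ℂ => 1 + κ * s) 0 := by fun_prop
        exact h2.eventually_ne (by simp)
      filter_upwards [h1, E08_line_mem hτ' z] with s hs1 hs2
      obtain ⟨e1, e2, -⟩ := DF.act_gJ i _ hs2
      have e3 := hh.modular (DF.gJ i) hγ' _ hs2
      rw [e1, e2, E08_mJ_line hτ'.1 i z s hd hs1] at e3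
      refine e3.trans ?_
      rw [hδ, ← mul_pow]
      congr 2
      simp only [Matrix.add_apply, Matrix.smul_apply, vecMulVec_apply, smul_eq_mul]
      rw [hκ]
      field_simp

end DG
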