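import Pool.Agent.helper32.DG.C0

/-!
# E09 : generators of the block diagonal subgroup

PROOF. The maps `ε₀ : Matrix (Fin 1 ⊕ Fin 1) _ ℤ → ..`, `ε₁ : Matrix (Fin n ⊕ Fin n) _ ℤ → ..`, which put a matrix
in the block of the indices with `isz` (respectively not `isz`) and the identity matrix in the other
block are monoid homomorphisms which map generators (`DF.Gens`) to generators with `StabM`
(`gT S ↦ gT S~`, `gU U V ↦ gU U~ V~`, `gJ i ↦ gJ i.succ` or `gJ 0`).  If `γ` is symplectic with `StabM γ` then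
`γ = ε₀ α * ε₁ β` with `α`, `β` symplectic (`SymplecticGroup.mem_iff`), `DF.sp_closure` for both, and
`Submonoid.closure_induction` (or `MonoidHom.map_mclosure`).
-/

set_option linter.unusedVariables false
set_option linter.unusedSectionVars false

namespace DG

open Matrix Complex Filter Topology Asymptotics

attribute [local instance] Matrix.normedAddCommGroup Matrix.normedSpace

section E09

variable {n : ℕ}

/-- block diagonal matrix for the decomposition `1 + n` -/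
private def E09_D (a : Matrix (Fin 1) (Fin 1) ℤ) (b : Matrix (Fin n) (Fin n) ℤ) :
    Matrix (Fin (n + 1)) (Fin (n + 1)) ℤ :=
  Matrix.of fun i j => Fin.cases (Fin.cases (a 0 0) (fun _ => 0) j)
    (fun i' => Fin.cases 0 (fun j' => b i' j') j) i

private theorem E09_ext {M N : Matrix (Fin (n + 1)) (Fin (n + 1)) ℤ} (h0 : M 0 0 = N 0 0)
    (h1 : ∀ i : Fin n, M 0 i.succ = N 0 i.succ) (h2 : ∀ i : Fin n, M i.succ 0 = N i.succ 0)
    (h3 : ∀ i j : Fin n, M i.succ j.succ = N i.succ j.succ) : M = N := by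
  ext i j
  refine Fin.cases ?_ (fun i' => ?_) i
  · exact Fin.cases h0 (fun j' => h1 j') j
  · exact Fin.cases (h2 i') (fun j' => h3 i' j') j

private theorem E09_00 (a : Matrix (Fin 1) (Fin 1) ℤ) (b : Matrix (Fin n) (Fin n) ℤ) :
    E09_D a b 0 0 = a 0 0 := rfl
private theorem E09_0s (a : Matrix (Fin 1) (Fin 1) ℤ) (b : Matrix (Fin n) (Fin n) ℤ) (j : Fin n) :
    E09_D a b 0 j.succ = 0 := rfl
private theorem E09_s0 (a : Matrix (Fin 1) (Fin 1) ℤ) (b : Matrix (Fin n) (Fin n) ℤ) (i : Fin n) :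
    E09_D a b i.succ 0 = 0 := rfl
private theorem E09_ss (a : Matrix (Fin 1) (Fin 1) ℤ) (b : Matrix (Fin n) (Fin n) ℤ) (i j : Fin n) :
    E09_D a b i.succ j.succ = b i j := rfl

private theorem E09_D_mul (a a' : Matrix (Fin 1) (Fin 1) ℤ) (b b' : Matrix (Fin n) (Fin n) ℤ) :
    E09_D a b * E09_D a' b' = E09_D (a * a') (b * b') := by
  apply E09_ext
  · rw [Matrix.mul_apply, Fin.sum_univ_succ]
    simp [E09_00, E09_0s, Matrix.mul_apply]
  · intro i
    rw [Matrix.mul_apply, Fin.sum_univ_succ]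
    simp [E09_00, E09_0s]
  · intro i
    rw [Matrix.mul_apply, Fin.sum_univ_succ]
    simp [E09_ss, E09_s0]
  · intro i j
    rw [Matrix.mul_apply, Fin.sum_univ_succ]
    simp [E09_ss, E09_s0, Matrix.mul_apply]

private theorem E09_D_add (a a' : Matrix (Fin 1) (Fin 1) ℤ) (b b' : Matrix (Fin n) (Fin n) ℤ) :
    E09_D a b + E09_D a' b' = E09_D (a + a') (b + b') := by
  apply E09_ext
  · rfl
  · intro i; exact add_zero (0 : ℤ)
  · intro i; exact add_zero (0 : ℤ)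
  · intro i j; rfl

private theorem E09_D_sub (a a' : Matrix (Fin 1) (Fin 1) ℤ) (b b' : Matrix (Fin n) (Fin n) ℤ) :
    E09_D a b - E09_D a' b' = E09_D (a - a') (b - b') := by
  apply E09_ext
  · rfl
  · intro i; exact sub_zero (0 : ℤ)
  · intro i; exact sub_zero (0 : ℤ)
  · intro i j; rfl

private theorem E09_D_neg (a : Matrix (Fin 1) (Fin 1) ℤ) (b : Matrix (Fin n) (Fin n) ℤ) :
    -E09_D a b = E09_D (-a) (-b) := by
  apply E09_ext
  · rfl
  · intro i; exact neg_zero (G := ℤ)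
  · intro i; exact neg_zero (G := ℤ)
  · intro i j; rfl

private theorem E09_D_tr (a : Matrix (Fin 1) (Fin 1) ℤ) (b : Matrix (Fin n) (Fin n) ℤ) :
    (E09_D a b)ᵀ = E09_D aᵀ bᵀ := by
  apply E09_ext
  · rfl
  · intro i; rfl
  · intro i; rfl
  · intro i j; rfl

private theorem E09_D_one : (E09_D 1 1 : Matrix (Fin (n + 1)) (Fin (n + 1)) ℤ) = 1 := by
  apply E09_ext
  · rfl
  · intro i
    rw [E09_0s, Matrix.one_apply_ne (Fin.succ_ne_zero i).symm]
  · intro i
    rw [E09_s0, Matrix.one_apply_ne (Fin.succ_ne_zero i)]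
  · intro i j
    rw [E09_ss, Matrix.one_apply, Matrix.one_apply]
    simp only [Fin.succ_inj]

private theorem E09_D_zero : (E09_D 0 0 : Matrix (Fin (n + 1)) (Fin (n + 1)) ℤ) = 0 := by
  apply E09_ext
  · rfl
  · intro i; rfl
  · intro i; rfl
  · intro i j; rfl

private theorem E09_D_single0 (i : Fin 1) :
    (E09_D (Matrix.single i i 1) 0 : Matrix (Fin (n + 1)) (Fin (n + 1)) ℤ)
      = Matrix.single 0 0 1 := by
  have hi : i = 0 := Subsingleton.elim _ _
  subst hi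
  apply E09_ext
  · rw [E09_00, Matrix.single_apply, Matrix.single_apply]
    simp
  · intro i
    rw [E09_0s, Matrix.single_apply, if_neg]
    exact fun h => Fin.succ_ne_zero i h.2.symm
  · intro i
    rw [E09_s0, Matrix.single_apply, if_neg]
    exact fun h => Fin.succ_ne_zero i h.1.symm
  · intro i j
    rw [E09_ss, Matrix.single_apply, if_neg]
    · rfl
    · exact fun h => Fin.succ_ne_zero i h.1.symm

private theorem E09_D_singles (k : Fin n) :
    (E09_D 0 (Matrix.single k k 1) : Matrix (Fin (n + 1)) (Fin (n + 1)) ℤ)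
      = Matrix.single k.succ k.succ 1 := by
  apply E09_ext
  · rw [E09_00, Matrix.single_apply, if_neg]
    · rfl
    · exact fun h => Fin.succ_ne_zero k h.1
  · intro i
    rw [E09_0s, Matrix.single_apply, if_neg]
    exact fun h => Fin.succ_ne_zero k h.1
  · intro i
    rw [E09_s0, Matrix.single_apply, if_neg]
    exact fun h => Fin.succ_ne_zero k h.2
  · intro i j
    rw [E09_ss, Matrix.single_apply, Matrix.single_apply]
    simp only [Fin.succ_inj]

private theorem E09_D_inj {a a' : Matrix (Fin 1) (Fin 1) ℤ} {b b' : Matrix (Fin n) (Fin n) ℤ}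
    (h : E09_D a b = E09_D a' b') : a = a' ∧ b = b' := by
  constructor
  · ext i j
    have hi : i = 0 := Subsingleton.elim _ _
    have hj : j = 0 := Subsingleton.elim _ _
    subst hi hj
    have := congrFun (congrFun h 0) 0
    rwa [E09_00, E09_00] at this
  · ext i j
    have := congrFun (congrFun h i.succ) j.succ
    rwa [E09_ss, E09_ss] at this

/-- block diagonal matrix of size `2 (n + 1)` -/
private def E09_E (A : Matrix (Fin 1 ⊕ Fin 1) (Fin 1 ⊕ Fin 1) ℤ)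
    (B : Matrix (Fin n ⊕ Fin n) (Fin n ⊕ Fin n) ℤ) :
    Matrix (Fin (n + 1) ⊕ Fin (n + 1)) (Fin (n + 1) ⊕ Fin (n + 1)) ℤ :=
  fromBlocks (E09_D A.toBlocks₁₁ B.toBlocks₁₁) (E09_D A.toBlocks₁₂ B.toBlocks₁₂)
    (E09_D A.toBlocks₂₁ B.toBlocks₂₁) (E09_D A.toBlocks₂₂ B.toBlocks₂₂)

private theorem E09_E_blocks (a b c d : Matrix (Fin 1) (Fin 1) ℤ)
    (a' b' c' d' : Matrix (Fin n) (Fin n) ℤ) :
    E09_E (fromBlocks a b c d) (fromBlocks a' b' c' d')
      = fromBlocks (E09_D a a') (E09_D b b') (E09_D c c') (E09_D d d') := rfl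

private theorem E09_E_mul (A A' : Matrix (Fin 1 ⊕ Fin 1) (Fin 1 ⊕ Fin 1) ℤ)
    (B B' : Matrix (Fin n ⊕ Fin n) (Fin n ⊕ Fin n) ℤ) :
    E09_E A B * E09_E A' B' = E09_E (A * A') (B * B') := by
  obtain ⟨a, b, c, d, rfl⟩ : ∃ a b c d, A = fromBlocks a b c d := ⟨_, _, _, _, (fromBlocks_toBlocks A).symm⟩
  obtain ⟨a1, b1, c1, d1, rfl⟩ : ∃ a b c d, A' = fromBlocks a b c d :=
    ⟨_, _, _, _, (fromBlocks_toBlocks A').symm⟩
  obtain ⟨a2, b2, c2, d2, rfl⟩ : ∃ a b c d, B = fromBlocks a b c d :=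
    ⟨_, _, _, _, (fromBlocks_toBlocks B).symm⟩
  obtain ⟨a3, b3, c3, d3, rfl⟩ : ∃ a b c d, B' = fromBlocks a b c d :=
    ⟨_, _, _, _, (fromBlocks_toBlocks B').symm⟩
  rw [fromBlocks_multiply, fromBlocks_multiply, E09_E_blocks, E09_E_blocks, E09_E_blocks,
    fromBlocks_multiply]
  simp only [E09_D_mul, E09_D_add]

private theorem E09_E_tr (A : Matrix (Fin 1 ⊕ Fin 1) (Fin 1 ⊕ Fin 1) ℤ)
    (B : Matrix (Fin n ⊕ Fin n) (Fin n ⊕ Fin n) ℤ) : (E09_E A B)ᵀ = E09_E Aᵀ Bᵀ := by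
  unfold E09_E
  rw [fromBlocks_transpose, E09_D_tr, E09_D_tr, E09_D_tr, E09_D_tr]
  rfl

private theorem E09_E_one :
    (E09_E 1 1 : Matrix (Fin (n + 1) ⊕ Fin (n + 1)) (Fin (n + 1) ⊕ Fin (n + 1)) ℤ) = 1 := by
  rw [← fromBlocks_one, ← fromBlocks_one, ← fromBlocks_one, E09_E_blocks, E09_D_one, E09_D_zero]

private theorem E09_E_J : (E09_E (Matrix.J (Fin 1) ℤ) (Matrix.J (Fin n) ℤ) :
    Matrix (Fin (n + 1) ⊕ Fin (n + 1)) (Fin (n + 1) ⊕ Fin (n + 1)) ℤ)
      = Matrix.J (Fin (n + 1)) ℤ := by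
  unfold Matrix.J
  rw [E09_E_blocks, E09_D_one, E09_D_zero, ← E09_D_neg, E09_D_one]

private theorem E09_E_inj {A A' : Matrix (Fin 1 ⊕ Fin 1) (Fin 1 ⊕ Fin 1) ℤ}
    {B B' : Matrix (Fin n ⊕ Fin n) (Fin n ⊕ Fin n) ℤ} (h : E09_E A B = E09_E A' B') :
    A = A' ∧ B = B' := by
  unfold E09_E at h
  rw [fromBlocks_inj] at h
  obtain ⟨h1, h2, h3, h4⟩ := h
  obtain ⟨h1, h1'⟩ := E09_D_inj h1
  obtain ⟨h2, h2'⟩ := E09_D_inj h2
  obtain ⟨h3, h3'⟩ := E09_D_inj h3
  obtain ⟨h4, h4'⟩ := E09_D_inj h4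
  constructor
  · rw [← fromBlocks_toBlocks A, ← fromBlocks_toBlocks A', h1, h2, h3, h4]
  · rw [← fromBlocks_toBlocks B, ← fromBlocks_toBlocks B', h1', h2', h3', h4']

private theorem E09_D_off (a : Matrix (Fin 1) (Fin 1) ℤ) (b : Matrix (Fin n) (Fin n) ℤ)
    (i j : Fin (n + 1)) (h : ¬ (i = 0 ↔ j = 0)) : E09_D a b i j = 0 := by
  refine Fin.cases ?_ (fun i' => ?_) i (motive := fun i => ¬ (i = 0 ↔ j = 0) → E09_D a b i j = 0) h
  · refine Fin.cases ?_ (fun j' => ?_) j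
    · intro h'
      exact absurd (Iff.rfl) h'
    · intro _
      rfl
  · refine Fin.cases ?_ (fun j' => ?_) j
    · intro _
      rfl
    · intro h'
      exact absurd (by simp) h'

private theorem E09_stab (A : Matrix (Fin 1 ⊕ Fin 1) (Fin 1 ⊕ Fin 1) ℤ)
    (B : Matrix (Fin n ⊕ Fin n) (Fin n ⊕ Fin n) ℤ) : StabM (E09_E A B) := by
  intro x y h
  rcases x with x | x <;> rcases y with y | y
  all_goals exact E09_D_off _ _ x y h

/-- the generators with `StabM` -/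
private theorem E09_left {A : Matrix (Fin 1 ⊕ Fin 1) (Fin 1 ⊕ Fin 1) ℤ}
    (hA : A ∈ DF.Gens (Fin 1)) :
    E09_E A (1 : Matrix (Fin n ⊕ Fin n) (Fin n ⊕ Fin n) ℤ) ∈ DF.Gens (Fin (n + 1)) := by
  rw [← fromBlocks_one]
  rcases hA with ⟨S, hS, rfl⟩ | ⟨U, V, hUV, rfl⟩ | ⟨i, rfl⟩
  · refine Or.inl ⟨E09_D S 0, ?_, ?_⟩
    · rw [Matrix.IsSymm, E09_D_tr, hS.eq, Matrix.transpose_zero]
    · unfold DF.gT
      rw [E09_E_blocks, E09_D_one, E09_D_zero]
  · refine Or.inr (Or.inl ⟨E09_D U 1, E09_D V 1, ?_, ?_⟩)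
    · rw [E09_D_mul, hUV, one_mul, E09_D_one]
    · unfold DF.gU
      rw [E09_E_blocks, E09_D_zero, E09_D_tr, Matrix.transpose_one]
  · refine Or.inr (Or.inr ⟨0, ?_⟩)
    unfold DF.gJ
    rw [E09_E_blocks, E09_D_single0]
    have e1 : (E09_D (1 - Matrix.single i i 1) 1 : Matrix (Fin (n + 1)) (Fin (n + 1)) ℤ)
        = 1 - Matrix.single 0 0 1 := by
      have h := E09_D_sub (1 : Matrix (Fin 1) (Fin 1) ℤ) (Matrix.single i i 1)
        (1 : Matrix (Fin n) (Fin n) ℤ) 0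
      rw [E09_D_one, E09_D_single0, sub_zero] at h
      exact h.symm
    have e2 : (E09_D (-Matrix.single i i 1) 0 : Matrix (Fin (n + 1)) (Fin (n + 1)) ℤ)
        = -Matrix.single 0 0 1 := by
      rw [← E09_D_single0 i, E09_D_neg, neg_zero]
    rw [e1, e2]

private theorem E09_right {B : Matrix (Fin n ⊕ Fin n) (Fin n ⊕ Fin n) ℤ}
    (hB : B ∈ DF.Gens (Fin n)) :
    E09_E (1 : Matrix (Fin 1 ⊕ Fin 1) (Fin 1 ⊕ Fin 1) ℤ) B ∈ DF.Gens (Fin (n + 1)) := by
  rw [← fromBlocks_one]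
  rcases hB with ⟨S, hS, rfl⟩ | ⟨U, V, hUV, rfl⟩ | ⟨i, rfl⟩
  · refine Or.inl ⟨E09_D 0 S, ?_, ?_⟩
    · rw [Matrix.IsSymm, E09_D_tr, hS.eq, Matrix.transpose_zero]
    · unfold DF.gT
      rw [E09_E_blocks, E09_D_one, E09_D_zero]
  · refine Or.inr (Or.inl ⟨E09_D 1 U, E09_D 1 V, ?_, ?_⟩)
    · rw [E09_D_mul, hUV, one_mul, E09_D_one]
    · unfold DF.gU
      rw [E09_E_blocks, E09_D_zero, E09_D_tr, Matrix.transpose_one]
  · refine Or.inr (Or.inr ⟨i.succ, ?_⟩)
    unfold DF.gJ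
    rw [E09_E_blocks, E09_D_singles]
    have e1 : (E09_D 1 (1 - Matrix.single i i 1) : Matrix (Fin (n + 1)) (Fin (n + 1)) ℤ)
        = 1 - Matrix.single i.succ i.succ 1 := by
      have h := E09_D_sub (1 : Matrix (Fin 1) (Fin 1) ℤ) 0
        (1 : Matrix (Fin n) (Fin n) ℤ) (Matrix.single i i 1)
      rw [E09_D_one, E09_D_singles, sub_zero] at h
      exact h.symm
    have e2 : (E09_D 0 (-Matrix.single i i 1) : Matrix (Fin (n + 1)) (Fin (n + 1)) ℤ)
        = -Matrix.single i.succ i.succ 1 := by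
      rw [← E09_D_singles i, E09_D_neg, neg_zero]
    rw [e1, e2]

end E09

theorem stab_closure {n : ℕ} (γ : Matrix (Fin (n + 1) ⊕ Fin (n + 1)) (Fin (n + 1) ⊕ Fin (n + 1)) ℤ)
    (hγ : γ ∈ Matrix.symplecticGroup (Fin (n + 1)) ℤ) (hs : StabM γ) :
    γ ∈ Submonoid.closure {σ | σ ∈ DF.Gens (Fin (n + 1)) ∧ StabM σ} := by
  obtain ⟨A, hA⟩ : ∃ A : Matrix (Fin 1 ⊕ Fin 1) (Fin 1 ⊕ Fin 1) ℤ,
    A = fromBlocks (Matrix.of fun _ _ => γ (Sum.inl 0) (Sum.inl 0))
      (Matrix.of fun _ _ => γ (Sum.inl 0) (Sum.inr 0))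
      (Matrix.of fun _ _ => γ (Sum.inr 0) (Sum.inl 0))
      (Matrix.of fun _ _ => γ (Sum.inr 0) (Sum.inr 0)) := ⟨_, rfl⟩
  obtain ⟨B, hB⟩ : ∃ B : Matrix (Fin n ⊕ Fin n) (Fin n ⊕ Fin n) ℤ,
    B = fromBlocks (Matrix.of fun i j => γ (Sum.inl i.succ) (Sum.inl j.succ))
      (Matrix.of fun i j => γ (Sum.inl i.succ) (Sum.inr j.succ))
      (Matrix.of fun i j => γ (Sum.inr i.succ) (Sum.inl j.succ))
      (Matrix.of fun i j => γ (Sum.inr i.succ) (Sum.inr j.succ)) := ⟨_, rfl⟩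
  have hE : γ = E09_E A B := by
    rw [hA, hB, E09_E_blocks, ← fromBlocks_toBlocks γ]
    congr 1
    · apply E09_ext
      · rfl
      · intro i
        exact hs _ _ (by simp [isz])
      · intro i
        exact hs _ _ (by simp [isz])
      · intro i j; rfl
    · apply E09_ext
      · rfl
      · intro i
        exact hs _ _ (by simp [isz])
      · intro i
        exact hs _ _ (by simp [isz])
      · intro i j; rfl
    · apply E09_ext
      · rfl
      · intro i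
        exact hs _ _ (by simp [isz])
      · intro i
        exact hs _ _ (by simp [isz])
      · intro i j; rfl
    · apply E09_ext
      · rfl
      · intro i
        exact hs _ _ (by simp [isz])
      · intro i
        exact hs _ _ (by simp [isz])
      · intro i j; rfl
  rw [SymplecticGroup.mem_iff, hE, E09_E_tr, ← E09_E_J, E09_E_mul, E09_E_mul] at hγ
  obtain ⟨h1, h2⟩ := E09_E_inj hγ
  have hAs : A ∈ Submonoid.closure (DF.Gens (Fin 1)) := DF.sp_closure A (SymplecticGroup.mem_iff.2 h1)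
  have hBs : B ∈ Submonoid.closure (DF.Gens (Fin n)) := DF.sp_closure B (SymplecticGroup.mem_iff.2 h2)
  have h3 : E09_E A (1 : Matrix (Fin n ⊕ Fin n) (Fin n ⊕ Fin n) ℤ) ∈
      Submonoid.closure {σ | σ ∈ DF.Gens (Fin (n + 1)) ∧ StabM σ} := by
    clear hE h1 hA hγ
    induction hAs using Submonoid.closure_induction with
    | mem x hx => exact Submonoid.subset_closure ⟨E09_left hx, E09_stab _ _⟩
    | one =>
      rw [E09_E_one]
      exact one_mem _
    | mul x y _ _ hx hy =>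
      have := mul_mem hx hy
      rwa [E09_E_mul, one_mul] at this
  have h4 : E09_E (1 : Matrix (Fin 1 ⊕ Fin 1) (Fin 1 ⊕ Fin 1) ℤ) B ∈
      Submonoid.closure {σ | σ ∈ DF.Gens (Fin (n + 1)) ∧ StabM σ} := by
    clear hE h2 hB hγ h3
    induction hBs using Submonoid.closure_induction with
    | mem x hx => exact Submonoid.subset_closure ⟨E09_right hx, E09_stab _ _⟩
    | one =>
      rw [E09_E_one]
      exact one_mem _
    | mul x y _ _ hx hy =>
      have := mul_mem hx hy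
      rwa [E09_E_mul, one_mul] at this
  have h5 := mul_mem h3 h4
  rwa [E09_E_mul, mul_one, one_mul, ← hE] at h5

end DG
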