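import Pool.Agent.helper32.DG.C0
import Pool.Agent.helper32.DG.E02
import Pool.Agent.helper32.DG.E03

/-!
# E10 : properties of block diagonal symplectic matrices

PROOF. `mul`, `one`: entries.  `stab_inv`: `γ' = -J γᵀ J` (`SymplecticGroup`, or `DF.sp_closure` and
`DF.closure_inv` for the existence of the inverse, whose entries are given by `γ⁻¹ = -J γᵀ J`; `J` is `StabM`).
`stab_Blk`: `StabM γ` and `Blk τ`, `τ` symmetric: `num γ τ` and `den γ τ` are block diagonal (`1 + n`), hence so is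
the product `num * den⁻¹` (the inverse of a block diagonal invertible matrix is block diagonal:
the row `0` of `M⁻¹`: from `M⁻¹ * M = 1`; or: `act γ τ * den γ τ = num γ τ` (`DF.C1_act_den`), so the row vector
`(act γ τ) 0 i.succ` times the invertible lower block of `den` is `0`).
`stab_zz`: each entry `τ ↦ act γ τ 0 i.succ` is holomorphic (`Hol.act_entry`) and vanishes at `sc 0 τ`
(`stab_Blk`, `sc 0 τ = blk (τ 0 0) 0 (lo τ) ∈ HH`), so it is `O(t)` along `sc t τ`; use `radial_zz` with `K = 1`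
and the sup norm on `Fin n → ℂ`.
-/

set_option linter.unusedVariables false
set_option linter.unusedSectionVars false

namespace DG

open Matrix Complex Filter Topology Asymptotics

attribute [local instance] Matrix.normedAddCommGroup Matrix.normedSpace

theorem StabM.one {n : ℕ} : StabM (1 : Matrix (Fin (n + 1) ⊕ Fin (n + 1)) (Fin (n + 1) ⊕ Fin (n + 1)) ℤ) := by
  intro x y h
  apply Matrix.one_apply_ne
  rintro rfl
  exact h Iff.rfl

theorem StabM.mul {n : ℕ} {γ γ' : Matrix (Fin (n + 1) ⊕ Fin (n + 1)) (Fin (n + 1) ⊕ Fin (n + 1)) ℤ}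
    (h : StabM γ) (h' : StabM γ') : StabM (γ * γ') := by
  intro x y hxy
  rw [Matrix.mul_apply]
  apply Finset.sum_eq_zero
  intro z _
  by_cases hz : isz x ↔ isz z
  · rw [h' z y (fun h2 => hxy (hz.trans h2)), mul_zero]
  · rw [h x z hz, zero_mul]

private theorem E10_transpose {n : ℕ}
    {γ : Matrix (Fin (n + 1) ⊕ Fin (n + 1)) (Fin (n + 1) ⊕ Fin (n + 1)) ℤ}
    (h : StabM γ) : StabM γᵀ := by
  intro x y hxy
  rw [Matrix.transpose_apply]
  exact h y x (fun h2 => hxy h2.symm)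

private theorem E10_neg {n : ℕ}
    {γ : Matrix (Fin (n + 1) ⊕ Fin (n + 1)) (Fin (n + 1) ⊕ Fin (n + 1)) ℤ}
    (h : StabM γ) : StabM (-γ) := by
  intro x y hxy
  rw [Matrix.neg_apply, h x y hxy, neg_zero]

private theorem E10_J {n : ℕ} : StabM (Matrix.J (Fin (n + 1)) ℤ) := by
  intro x y hxy
  unfold Matrix.J
  rcases x with x | x <;> rcases y with y | y
  · rfl
  · rw [Matrix.fromBlocks_apply₁₂, Matrix.neg_apply, Matrix.one_apply_ne, neg_zero]
    rintro rfl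
    exact hxy Iff.rfl
  · rw [Matrix.fromBlocks_apply₂₁, Matrix.one_apply_ne]
    rintro rfl
    exact hxy Iff.rfl
  · rfl

theorem stab_inv {n : ℕ} {γ : Matrix (Fin (n + 1) ⊕ Fin (n + 1)) (Fin (n + 1) ⊕ Fin (n + 1)) ℤ}
    (hγ : γ ∈ Matrix.symplecticGroup (Fin (n + 1)) ℤ) (hs : StabM γ) :
    ∃ γ' ∈ Matrix.symplecticGroup (Fin (n + 1)) ℤ, StabM γ' ∧ γ' * γ = 1 ∧ γ * γ' = 1 := by
  let G : Matrix.symplecticGroup (Fin (n + 1)) ℤ := ⟨γ, hγ⟩
  refine ⟨(G⁻¹ : Matrix.symplecticGroup (Fin (n + 1)) ℤ), (G⁻¹).2, ?_, ?_, ?_⟩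
  · rw [SymplecticGroup.coe_inv]
    exact ((E10_neg E10_J).mul (E10_transpose hs)).mul E10_J
  · have h1 : ((G⁻¹ * G : Matrix.symplecticGroup (Fin (n + 1)) ℤ) :
        Matrix (Fin (n + 1) ⊕ Fin (n + 1)) (Fin (n + 1) ⊕ Fin (n + 1)) ℤ) = 1 := by
      rw [inv_mul_cancel]
      rfl
    exact h1
  · have h1 : ((G * G⁻¹ : Matrix.symplecticGroup (Fin (n + 1)) ℤ) :
        Matrix (Fin (n + 1) ⊕ Fin (n + 1)) (Fin (n + 1) ⊕ Fin (n + 1)) ℤ) = 1 := by
      rw [mul_inv_cancel]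
      rfl
    exact h1

/-- block diagonal `1 + n` matrices -/
private def E10_BD {n : ℕ} (M : Mt (n + 1)) : Prop := ∀ i : Fin n, M 0 i.succ = 0 ∧ M i.succ 0 = 0

private theorem E10_BD_mul {n : ℕ} {M N : Mt (n + 1)} (h : E10_BD M) (h' : E10_BD N) :
    E10_BD (M * N) := by
  intro i
  rw [Matrix.mul_apply, Matrix.mul_apply, Fin.sum_univ_succ, Fin.sum_univ_succ, (h' i).1,
    (h i).2, mul_zero, zero_mul, zero_add, zero_add]
  constructor
  · exact Finset.sum_eq_zero fun j _ => by rw [(h j).1, zero_mul]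
  · exact Finset.sum_eq_zero fun j _ => by rw [(h' j).2, mul_zero]

private theorem E10_BD_add {n : ℕ} {M N : Mt (n + 1)} (h : E10_BD M) (h' : E10_BD N) :
    E10_BD (M + N) := by
  intro i
  rw [Matrix.add_apply, Matrix.add_apply, (h i).1, (h i).2, (h' i).1, (h' i).2, add_zero]
  exact ⟨rfl, rfl⟩

private theorem E10_isz {n : ℕ} (i : Fin n) : ¬ ((0 : Fin (n + 1)) = 0 ↔ i.succ = 0) :=
  fun h => Fin.succ_ne_zero i (h.1 rfl)

private theorem E10_blocks {n : ℕ}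
    {γ : Matrix (Fin (n + 1) ⊕ Fin (n + 1)) (Fin (n + 1) ⊕ Fin (n + 1)) ℤ} (hs : StabM γ) :
    E10_BD (γ.map (Int.cast : ℤ → ℂ)).toBlocks₁₁ ∧ E10_BD (γ.map (Int.cast : ℤ → ℂ)).toBlocks₁₂ ∧
      E10_BD (γ.map (Int.cast : ℤ → ℂ)).toBlocks₂₁ ∧
      E10_BD (γ.map (Int.cast : ℤ → ℂ)).toBlocks₂₂ := by
  have h1 : ∀ (x y : Fin (n + 1) ⊕ Fin (n + 1)), ¬ (isz x ↔ isz y) →
      γ.map (Int.cast : ℤ → ℂ) x y = 0 := fun x y h => by
    rw [Matrix.map_apply, hs x y h, Int.cast_zero]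
  refine ⟨fun i => ⟨?_, ?_⟩, fun i => ⟨?_, ?_⟩, fun i => ⟨?_, ?_⟩, fun i => ⟨?_, ?_⟩⟩
  · exact h1 (Sum.inl 0) (Sum.inl i.succ) (E10_isz i)
  · exact h1 (Sum.inl i.succ) (Sum.inl 0) (fun h => E10_isz i h.symm)
  · exact h1 (Sum.inl 0) (Sum.inr i.succ) (E10_isz i)
  · exact h1 (Sum.inl i.succ) (Sum.inr 0) (fun h => E10_isz i h.symm)
  · exact h1 (Sum.inr 0) (Sum.inl i.succ) (E10_isz i)
  · exact h1 (Sum.inr i.succ) (Sum.inl 0) (fun h => E10_isz i h.symm)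
  · exact h1 (Sum.inr 0) (Sum.inr i.succ) (E10_isz i)
  · exact h1 (Sum.inr i.succ) (Sum.inr 0) (fun h => E10_isz i h.symm)

theorem stab_Blk {n : ℕ} {γ : Matrix (Fin (n + 1) ⊕ Fin (n + 1)) (Fin (n + 1) ⊕ Fin (n + 1)) ℤ}
    (hγ : γ ∈ Matrix.symplecticGroup (Fin (n + 1)) ℤ) (hs : StabM γ) {τ : Mt (n + 1)}
    (hτ : τ ∈ HH (n + 1)) (hB : Blk τ) : Blk (DF.act γ τ) := by
  obtain ⟨h11, h12, h21, h22⟩ := E10_blocks hs
  have hτB : E10_BD τ := fun i => ⟨hB i, by rw [← hB i]; exact (hτ.1.apply _ _)⟩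
  have hnum : E10_BD (DF.num γ τ) := E10_BD_add (E10_BD_mul h11 hτB) h12
  have hden : E10_BD (DF.den γ τ) := E10_BD_add (E10_BD_mul h21 hτB) h22
  have hne := den_ne hγ hτ
  have hact := DF.C1_act_den γ τ (isUnit_iff_ne_zero.2 hne)
  have hv : (Fin.cons 0 (zz (DF.act γ τ)) : Fin (n + 1) → ℂ) = 0 := by
    apply Matrix.eq_zero_of_vecMul_eq_zero hne
    funext j
    rw [Matrix.vecMul, dotProduct, Fin.sum_univ_succ, Fin.cons_zero, zero_mul, zero_add,
      Pi.zero_apply]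
    refine Fin.cases ?_ (fun i => ?_) j
    · exact Finset.sum_eq_zero fun k _ => by rw [(hden k).2, mul_zero]
    · have h1 := congrFun (congrFun hact 0) i.succ
      rw [(hnum i).1, Matrix.mul_apply, Fin.sum_univ_succ, (hden i).1, mul_zero, zero_add] at h1
      rw [← h1]
      exact Finset.sum_congr rfl fun k _ => by rw [Fin.cons_succ, zz_apply]
  intro i
  have h1 := congrFun hv i.succ
  rw [Fin.cons_succ, zz_apply] at h1
  exact h1

private theorem E10_sc {n : ℕ} {τ : Mt (n + 1)} (t : ℂ) :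
    sc t τ = blk (τ 0 0) 0 (lo τ) + t • offd (zz τ) := by
  apply mt_ext
  · simp [sc, offd]
  · intro i
    simp [sc, offd]
  · intro i
    simp [sc, offd]
  · intro i j
    simp [sc, offd]

private theorem E10_line {n : ℕ} {u : Mt (n + 1) → ℂ} (hu : Hol (n + 1) u)
    (hv : ∀ τ ∈ HH (n + 1), Blk τ → u τ = 0) {τ : Mt (n + 1)} (hτ : τ ∈ HH (n + 1)) :
    (fun t : ℂ => u (sc t τ)) =O[𝓝 0] fun t => t ^ 1 := by
  have h0 : sc 0 τ = blk (τ 0 0) 0 (lo τ) := by rw [E10_sc, zero_smul, add_zero]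
  have h0H : sc 0 τ ∈ HH (n + 1) := by
    rw [h0]
    exact HH_blk (im_pos_00 hτ) (HH_lo hτ)
  have hsym : ∀ t : ℂ, symm (sc t τ) = sc t τ := by
    intro t
    apply symm_eq
    apply mt_ext
    · rfl
    · intro i; rfl
    · intro i; rfl
    · intro i j
      exact hτ.1.apply _ _
  have h1 : AnalyticAt ℂ (fun M : Mt (n + 1) => u (symm M)) (sc 0 τ) :=
    hu (sc 0 τ) (by rw [Set.mem_ofPred_eq, hsym]; exact h0H)
  have h2 : DifferentiableAt ℂ (fun t : ℂ => sc t τ) 0 := by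
    have h3 : (fun t : ℂ => sc t τ) = fun t => blk (τ 0 0) 0 (lo τ) + t • offd (zz τ) := by
      funext t
      exact E10_sc t
    rw [h3]
    fun_prop
  have h4 : DifferentiableAt ℂ (fun t : ℂ => u (symm (sc t τ))) 0 :=
    DifferentiableAt.comp (g := fun M : Mt (n + 1) => u (symm M)) (f := fun t : ℂ => sc t τ) 0
      h1.differentiableAt h2
  have h5 := h4.isBigO_sub
  simp only [hsym, hv _ h0H (by rw [h0]; exact Blk_blk _ _), sub_zero] at h5
  simpa using h5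

theorem stab_zz {n : ℕ} {γ : Matrix (Fin (n + 1) ⊕ Fin (n + 1)) (Fin (n + 1) ⊕ Fin (n + 1)) ℤ}
    (hγ : γ ∈ Matrix.symplecticGroup (Fin (n + 1)) ℤ) (hs : StabM γ) {p : Mt (n + 1)}
    (hp : p ∈ HH (n + 1)) (hB : Blk p) :
    (fun τ => ‖zz (DF.act γ τ)‖) =O[𝓝[HH (n + 1)] p] fun τ => ‖zz τ‖ := by
  have h1 : ∀ i : Fin n, (fun τ => zz (DF.act γ τ) i) =O[𝓝[HH (n + 1)] p] fun τ => ‖zz τ‖ := by
    intro i
    have h2 := radial_zz 1 (fun τ => DF.act γ τ 0 i.succ) (Hol.act_entry hγ 0 i.succ) p hp hB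
      (fun τ hτ => E10_line (Hol.act_entry hγ 0 i.succ)
        (fun τ hτ hBτ => stab_Blk hγ hs hτ hBτ i) hτ)
    simpa using h2
  exact (isBigO_pi.2 h1).norm_left

end DG
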