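import Pool.Agent.helper32.DG.C0
import Pool.Agent.helper32.DG.E09
import Pool.Agent.helper32.DG.E10

/-!
# E11 : compatibility for the block diagonal subgroup

PROOF. `Comp_mul`: with `den (γ γ') τ = den γ (act γ' τ) * den γ' τ`, `act (γ γ') τ = act γ (act γ' τ)` (`DF.den_mul`,
`DF.act_mul`, `DF.unit_act`) for `τ ∈ HH`:
`J (act (γγ') τ) - det^k J τ = [J (act γ σ) - det(den γ σ)^k J σ] + det(den γ σ)^k [J σ - det(den γ' τ)^k J τ]`,
`σ = act γ' τ`.  The first bracket is `O(‖zz σ‖^K)` as `σ → act γ' p` within `HH` (`tendsto_act`; `act γ' p` is `Blk` by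
`stab_Blk`), and `‖zz σ‖ = O(‖zz τ‖)` (`stab_zz`); the factor `det(den γ σ)^k` is bounded near `p` (continuity).
`Comp_one`: `act 1 τ = τ`, `den 1 τ = 1` (`DF.act_one`).  `Comp_stab`: `stab_closure` and
`Submonoid.closure_induction` (carry `γ ∈ Sp ∧ StabM γ ∧ Comp k K J γ`; `DF.gens_sp`).
-/

set_option linter.unusedVariables false
set_option linter.unusedSectionVars false

namespace DG

open Matrix Complex Filter Topology Asymptotics

attribute [local instance] Matrix.normedAddCommGroup Matrix.normedSpace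

theorem Comp_mul {n k K : ℕ} {J : Mt (n + 1) → ℂ}
    {γ γ' : Matrix (Fin (n + 1) ⊕ Fin (n + 1)) (Fin (n + 1) ⊕ Fin (n + 1)) ℤ}
    (hγ : γ ∈ Matrix.symplecticGroup (Fin (n + 1)) ℤ) (hs : StabM γ)
    (hγ' : γ' ∈ Matrix.symplecticGroup (Fin (n + 1)) ℤ) (hs' : StabM γ')
    (h : Comp k K J γ) (h' : Comp k K J γ') : Comp k K J (γ * γ') := by
  intro p hp hB
  have hq : DF.act γ' p ∈ HH (n + 1) := act_mem hγ' hp
  have hBq : Blk (DF.act γ' p) := stab_Blk hγ' hs' hp hB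
  have htend := tendsto_act hγ' hp
  have h1 : (fun τ => J (DF.act γ (DF.act γ' τ)) -
      (DF.den γ (DF.act γ' τ)).det ^ k * J (DF.act γ' τ)) =O[𝓝[HH (n + 1)] p]
        fun τ => ‖zz τ‖ ^ K :=
    ((h _ hq hBq).comp_tendsto htend).trans ((stab_zz hγ' hs' hp hB).pow K)
  have h2 : (fun τ => (DF.den γ (DF.act γ' τ)).det ^ k) =O[𝓝[HH (n + 1)] p]
      fun _ => (1 : ℝ) := by
    have hc : Continuous fun τ : Mt (n + 1) => (DF.den γ τ).det ^ k :=
      ((continuous_den γ).matrix_det).pow k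
    have h3 : Tendsto (fun τ => (DF.den γ (DF.act γ' τ)).det ^ k) (𝓝[HH (n + 1)] p)
        (𝓝 ((DF.den γ (DF.act γ' p)).det ^ k)) :=
      (hc.tendsto _).comp (htend.mono_right nhdsWithin_le_nhds)
    exact h3.isBigO_one ℝ
  have h4 : (fun τ => (DF.den γ (DF.act γ' τ)).det ^ k *
      (J (DF.act γ' τ) - (DF.den γ' τ).det ^ k * J τ)) =O[𝓝[HH (n + 1)] p]
        fun τ => ‖zz τ‖ ^ K := by
    have h5 := h2.mul (h' p hp hB)
    simpa only [one_mul] using h5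
  refine (h1.add h4).congr' ?_ (Filter.EventuallyEq.refl _ _)
  filter_upwards [self_mem_nhdsWithin] with τ hτ
  have hu' := (DF.unit_act γ' hγ' τ hτ).1
  have hu := (DF.unit_act γ hγ _ (act_mem hγ' hτ)).1
  rw [DF.den_mul γ γ' τ hu', DF.act_mul γ γ' τ hu' hu, Matrix.det_mul, mul_pow]
  ring

theorem Comp_stab {n k K : ℕ} {J : Mt (n + 1) → ℂ}
    (h : ∀ σ ∈ DF.Gens (Fin (n + 1)), StabM σ → Comp k K J σ)
    (γ : Matrix (Fin (n + 1) ⊕ Fin (n + 1)) (Fin (n + 1) ⊕ Fin (n + 1)) ℤ)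
    (hγ : γ ∈ Matrix.symplecticGroup (Fin (n + 1)) ℤ) (hs : StabM γ) : Comp k K J γ := by
  have key : γ ∈ Matrix.symplecticGroup (Fin (n + 1)) ℤ ∧ StabM γ ∧ Comp k K J γ := by
    refine Submonoid.closure_induction
      (motive := fun γ _ => γ ∈ Matrix.symplecticGroup (Fin (n + 1)) ℤ ∧ StabM γ ∧ Comp k K J γ)
      ?_ ?_ ?_ (stab_closure γ hγ hs)
    · intro x hx
      exact ⟨DF.gens_sp x hx.1, hx.2, h x hx.1 hx.2⟩
    · refine ⟨one_mem _, StabM.one, fun p hp hB => ?_⟩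
      have h0 : (fun τ : Mt (n + 1) =>
          J (DF.act (1 : Matrix (Fin (n + 1) ⊕ Fin (n + 1)) (Fin (n + 1) ⊕ Fin (n + 1)) ℤ) τ) -
            (DF.den (1 : Matrix (Fin (n + 1) ⊕ Fin (n + 1)) (Fin (n + 1) ⊕ Fin (n + 1)) ℤ)
              τ).det ^ k * J τ) = fun _ => 0 := by
        funext τ
        rw [(DF.act_one τ).1, (DF.act_one τ).2, Matrix.det_one, one_pow, one_mul, sub_self]
      rw [h0]
      exact isBigO_zero _ _
    · intro x y _ _ hx hy
      exact ⟨mul_mem hx.1 hy.1, hx.2.1.mul hy.2.1,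
        Comp_mul hx.1 hx.2.1 hy.1 hy.2.1 hx.2.2 hy.2.2⟩
  exact key.2.2

end DG
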