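import Pool.Agent.helper32.DG.C0

/-!
# E12a : positivity of the polarisation

PROOF. Put `X = re τ`, `Y = im τ` (symmetric, `Y` positive definite), `x = (x1, x2)`, `y = (y1, y2)` (the `inl` and
`inr` parts), `v = lat τ y = τ y1 + y2`, `q = r + i s`, `s > 0`.  `re v = X y1 + y2`, `im v = Y y1`;
`lat τ x = q v`: `X x1 + x2 = r re v - s im v`, `Y x1 = r im v + s re v`.  Hence
`Ep x y = x1 ⬝ y2 - x2 ⬝ y1 = x1 ⬝ (re v - X y1) - (r re v - s Y y1 - X x1) ⬝ y1 = (x1 - r y1) ⬝ re v + s y1 ⬝ Y y1`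
and `s re v = Y x1 - r Y y1 = Y (x1 - r y1)`, so `s Ep x y = (x1 - r y1) ⬝ Y (x1 - r y1) + s² y1 ⬝ Y y1 ≥ 0`.
If it is `0` then `y1 = 0`, `x1 = 0`, so `im v = 0` and `re v = 0`, `v = 0`, `y2 = 0`, and `q v = 0` gives `x2 = 0`
(or `DF.latL_injective`).
-/

set_option linter.unusedVariables false
set_option linter.unusedSectionVars false

namespace DG

open Matrix Complex Filter Topology Asymptotics

attribute [local instance] Matrix.normedAddCommGroup Matrix.normedSpace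

theorem Ep_pos {g : ℕ} {τ : Mt g} (hτ : τ ∈ HH g) (x y : Fin g ⊕ Fin g → ℤ) (q : ℂ)
    (hq : 0 < q.im) (h : DF.lat τ (DF.zr x) = q • DF.lat τ (DF.zr y)) :
    0 ≤ DF.Ep x y ∧ (DF.Ep x y = 0 → x = 0 ∧ y = 0) := by
  obtain ⟨hs, hp⟩ := hτ
  set X : Matrix (Fin g) (Fin g) ℝ := τ.map Complex.re with hX
  set Y : Matrix (Fin g) (Fin g) ℝ := τ.map Complex.im with hY
  have hXs : Xᵀ = X := by
    ext i j; simp [hX, hs.apply]
  have hYs : Yᵀ = Y := by
    ext i j; simp [hY, hs.apply]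
  set x1 : Fin g → ℝ := fun i => (x (Sum.inl i) : ℝ) with hx1
  set x2 : Fin g → ℝ := fun i => (x (Sum.inr i) : ℝ) with hx2
  set y1 : Fin g → ℝ := fun i => (y (Sum.inl i) : ℝ) with hy1
  set y2 : Fin g → ℝ := fun i => (y (Sum.inr i) : ℝ) with hy2
  have hre : ∀ z : Fin g ⊕ Fin g → ℤ, ∀ i, (DF.lat τ (DF.zr z) i).re =
      (X *ᵥ fun i => (z (Sum.inl i) : ℝ)) i + (z (Sum.inr i) : ℝ) := by
    intro z i
    simp only [DF.lat, DF.zr, add_re, re_sum, ofReal_re, mulVec, dotProduct, hX, map_apply]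
    congr 1
    refine Finset.sum_congr rfl fun j _ => ?_
    simp [mul_re]
  have him : ∀ z : Fin g ⊕ Fin g → ℤ, ∀ i, (DF.lat τ (DF.zr z) i).im =
      (Y *ᵥ fun i => (z (Sum.inl i) : ℝ)) i := by
    intro z i
    simp only [DF.lat, DF.zr, add_im, im_sum, ofReal_im, mulVec, dotProduct, hY, map_apply,
      add_zero]
    refine Finset.sum_congr rfl fun j _ => ?_
    simp [mul_im]
  -- real and imaginary parts of the equation
  have e1 : ∀ i, (X *ᵥ x1) i + x2 i = q.re * ((X *ᵥ y1) i + y2 i) - q.im * (Y *ᵥ y1) i := by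
    intro i
    have h1 := congrArg Complex.re (congrFun h i)
    rw [Pi.smul_apply, smul_eq_mul, mul_re, hre, hre, him] at h1
    exact h1
  have e2 : ∀ i, (Y *ᵥ x1) i = q.re * (Y *ᵥ y1) i + q.im * ((X *ᵥ y1) i + y2 i) := by
    intro i
    have h1 := congrArg Complex.im (congrFun h i)
    rw [Pi.smul_apply, smul_eq_mul, mul_im, him, hre, him] at h1
    exact h1
  have hsx : x1 ⬝ᵥ (X *ᵥ y1) = y1 ⬝ᵥ (X *ᵥ x1) := by
    rw [dotProduct_mulVec, ← mulVec_transpose, hXs, dotProduct_comm]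
  have hsy : x1 ⬝ᵥ (Y *ᵥ y1) = y1 ⬝ᵥ (Y *ᵥ x1) := by
    rw [dotProduct_mulVec, ← mulVec_transpose, hYs, dotProduct_comm]
  have hEp : ((DF.Ep x y : ℤ) : ℝ) = x1 ⬝ᵥ y2 - x2 ⬝ᵥ y1 := by
    simp only [DF.Ep, dotProduct, hx1, hx2, hy1, hy2]
    push_cast
    rw [← Finset.sum_sub_distrib]
  -- vector equations
  have v1 : x2 = q.re • (X *ᵥ y1 + y2) - q.im • (Y *ᵥ y1) - X *ᵥ x1 := by
    funext i
    have := e1 i
    simp only [Pi.sub_apply, Pi.smul_apply, Pi.add_apply, smul_eq_mul]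
    linarith
  have v2 : q.im • y2 = Y *ᵥ x1 - q.re • (Y *ᵥ y1) - q.im • (X *ᵥ y1) := by
    funext i
    have := e2 i
    simp only [Pi.sub_apply, Pi.smul_apply, smul_eq_mul]
    linarith
  have key : q.im * ((DF.Ep x y : ℤ) : ℝ) =
      (x1 - q.re • y1) ⬝ᵥ (Y *ᵥ (x1 - q.re • y1)) + q.im ^ 2 * (y1 ⬝ᵥ (Y *ᵥ y1)) := by
    have k1 : q.im * (x1 ⬝ᵥ y2) = x1 ⬝ᵥ (Y *ᵥ x1) - q.re * (x1 ⬝ᵥ (Y *ᵥ y1)) -
        q.im * (x1 ⬝ᵥ (X *ᵥ y1)) := by
      rw [← smul_eq_mul, ← dotProduct_smul, v2]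
      simp only [dotProduct_sub, dotProduct_smul, smul_eq_mul]
    have k1' : q.im * (y1 ⬝ᵥ y2) = y1 ⬝ᵥ (Y *ᵥ x1) - q.re * (y1 ⬝ᵥ (Y *ᵥ y1)) -
        q.im * (y1 ⬝ᵥ (X *ᵥ y1)) := by
      rw [← smul_eq_mul, ← dotProduct_smul, v2]
      simp only [dotProduct_sub, dotProduct_smul, smul_eq_mul]
    have k2 : x2 ⬝ᵥ y1 = q.re * (y1 ⬝ᵥ (X *ᵥ y1) + y1 ⬝ᵥ y2) - q.im * (y1 ⬝ᵥ (Y *ᵥ y1)) -
        y1 ⬝ᵥ (X *ᵥ x1) := by
      rw [dotProduct_comm, v1]
      simp only [dotProduct_sub, dotProduct_add, dotProduct_smul, smul_eq_mul]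
    rw [hEp, k2]
    simp only [mulVec_sub, mulVec_smul, dotProduct_sub, sub_dotProduct, dotProduct_smul,
      smul_dotProduct, smul_eq_mul]
    rw [hsy] at k1 ⊢
    rw [hsx] at k1
    linear_combination k1 - q.re * k1'
  have hpos : ∀ w : Fin g → ℝ, 0 ≤ w ⬝ᵥ (Y *ᵥ w) := by
    intro w
    have := hp.posSemidef.dotProduct_mulVec_nonneg w
    simpa using this
  have hzero : ∀ w : Fin g → ℝ, w ⬝ᵥ (Y *ᵥ w) = 0 → w = 0 := by
    intro w hw
    by_contra hne
    have h4 := hp.dotProduct_mulVec_pos hne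
    simp only [star_trivial] at h4
    exact h4.ne' hw
  constructor
  · have h1 : 0 ≤ q.im * ((DF.Ep x y : ℤ) : ℝ) := by
      rw [key]
      have := hpos (x1 - q.re • y1)
      have := hpos y1
      positivity
    have h2 : (0 : ℝ) ≤ ((DF.Ep x y : ℤ) : ℝ) := nonneg_of_mul_nonneg_right h1 hq
    exact_mod_cast h2
  · intro h0
    rw [h0, Int.cast_zero, mul_zero] at key
    have a1 := hpos (x1 - q.re • y1)
    have a2 := hpos y1
    have a3 : 0 ≤ q.im ^ 2 * (y1 ⬝ᵥ (Y *ᵥ y1)) := by positivity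
    have b1 : (x1 - q.re • y1) ⬝ᵥ (Y *ᵥ (x1 - q.re • y1)) = 0 := by linarith
    have b2 : q.im ^ 2 * (y1 ⬝ᵥ (Y *ᵥ y1)) = 0 := by linarith
    have b3 : y1 ⬝ᵥ (Y *ᵥ y1) = 0 := by
      rcases mul_eq_zero.1 b2 with h | h
      · exact absurd h (by positivity)
      · exact h
    have c1 := hzero _ b3
    have c2 := hzero _ b1
    rw [c1, smul_zero, sub_zero] at c2
    have c3 : y2 = 0 := by
      have := v2
      rw [c1, c2] at this
      simp only [mulVec_zero, smul_zero, sub_zero] at this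
      exact (smul_eq_zero.1 this).resolve_left hq.ne'
    have c4 : x2 = 0 := by
      rw [v1, c1, c2, c3]
      simp
    constructor
    · funext k
      rcases k with i | i
      · have := congrFun c2 i
        simp only [hx1, Pi.zero_apply] at this
        exact_mod_cast this
      · have := congrFun c4 i
        simp only [hx2, Pi.zero_apply] at this
        exact_mod_cast this
    · funext k
      rcases k with i | i
      · have := congrFun c1 i
        simp only [hy1, Pi.zero_apply] at this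
        exact_mod_cast this
      · have := congrFun c3 i
        simp only [hy2, Pi.zero_apply] at this
        exact_mod_cast this

end DG
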