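import Pool.Agent.helper32.DG.C0
import Pool.Agent.helper32.DG.E12a

/-!
# E12 : two elliptic factors are equal or orthogonal

NOTATION. `μ = γ (inl 0)`, `ν = γ (inr 0)` (rows), `q = act γ p 0 0`, `0 < im q` (`im_pos_00`, `act_mem`).
PROOF. `γᵀ *ᵥ e_(inl 0) = μ` etc.  `DF.lat_act` with `x = e_(inl 0)` and `e_(inr 0)`: `lat (act γ p) (zr e_(inl 0))` is the
column `0` of `act γ p`, which is `q e_0` (`Blk`, symmetric), `lat (act γ p) (zr e_(inr 0)) = e_0`.  So
`lat p (zr μ) = q • lat p (zr ν)`.  As `Blk p`: coordinate `0`: `p00 μ(inl 0) + μ(inr 0) = q (p00 ν(inl 0) + ν(inr 0))`,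
i.e. the hypothesis of `Ep_pos` for the `1 × 1` matrix `p00` (in `HH 1`) and the restrictions `μ₀`, `ν₀` of `μ`, `ν` to
the indices `0`; the other coordinates: `lat (lo p) μ' = q • lat (lo p) ν'` with the restrictions to the indices
`i.succ`.  So `Ep μ₀ ν₀ ≥ 0`, `Ep μ' ν' ≥ 0`, integers with sum `DF.Ep μ ν = 1` (`γᵀ` is symplectic, `DF.c4_inv` or
`SymplecticGroup.mem_iff`).  If `Ep μ₀ ν₀ = 0` then `μ₀ = ν₀ = 0`: second alternative.
If `Ep μ' ν' = 0`: `μ' = ν' = 0`: the rows `inl 0`, `inr 0` are supported on the two indices with `isz`.  The other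
rows `ρ` are `Ep`-orthogonal to `μ`, `ν` (rows of a symplectic matrix), and `μ₀`, `ν₀` have determinant `Ep μ₀ ν₀ = 1`,
so `ρ(inl 0) = ρ(inr 0) = 0`: `StabM γ`.
-/

set_option linter.unusedVariables false
set_option linter.unusedSectionVars false

namespace DG

open Matrix Complex Filter Topology Asymptotics

attribute [local instance] Matrix.normedAddCommGroup Matrix.normedSpace

theorem dichotomy {n : ℕ} {γ : Matrix (Fin (n + 1) ⊕ Fin (n + 1)) (Fin (n + 1) ⊕ Fin (n + 1)) ℤ}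
    (hγ : γ ∈ Matrix.symplecticGroup (Fin (n + 1)) ℤ) {p : Mt (n + 1)} (hp : p ∈ HH (n + 1))
    (hB : Blk p) (hB' : Blk (DF.act γ p)) : StabM γ ∨
      ((γ (Sum.inl 0) (Sum.inl 0) = 0 ∧ γ (Sum.inl 0) (Sum.inr 0) = 0) ∧
        γ (Sum.inr 0) (Sum.inl 0) = 0 ∧ γ (Sum.inr 0) (Sum.inr 0) = 0) := by
  sorry

end DG
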