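import Pool.Agent.helper32.DG.C0
import Pool.Agent.helper32.DG.E10

/-!
# E13a : decomposition of a symplectic matrix which moves the first plane to an orthogonal one

PROOF. Let `μ = γ (inl 0)`, `ν = γ (inr 0)` (rows): `Ep μ ν = 1` and both vanish at `inl 0`, `inr 0`.
`DF.pair_transitive {0} 1` gives `σ` in the closure of the generators, fixing `e_(inl 0)`, `e_(inr 0)`, with
`σ *ᵥ μ = e_(inl 1)`, `σ *ᵥ ν = e_(inr 1)`.  `β = (σ⁻¹)ᵀ` (`DF.closure_inv`; symplectic: `SymplecticGroup.transpose_mem`).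
`γ β⁻¹ = γ σᵀ` has rows `inl 0` and `inr 0` equal to `σ *ᵥ μ = e_(inl 1)`, `σ *ᵥ ν = e_(inr 1)`; `SW` has the same two
rows, `SW * SW = 1`, so `δ = γ σᵀ SW` has rows `e_(inl 0)`, `e_(inr 0)`, and is symplectic.  `γ = δ * SW * β`.
`StabM δ`: the other rows are `Ep`-orthogonal to `e_(inl 0)`, `e_(inr 0)`.  `StabM β`: `σ` fixes `e_(inl 0)`, `e_(inr 0)`
and preserves `Ep`, so it preserves the orthogonal complement of the plane, i.e. `StabM σ`, then `StabM σ⁻¹`
and the transpose.  `no_case`: for `n = 0` the rows would be `0`, but `Ep μ ν = 1`.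
`SW_act`: `act SW τ = mU swp τ = swp τ swpᵀ` (`DF.act_gU`), with `det (den) ^ 2 = 1`; entries: exchange of the
coordinates `0` and `1`: `act SW τ i j = τ (swap 0 1 i) (swap 0 1 j)`.
-/

set_option linter.unusedVariables false
set_option linter.unusedSectionVars false

namespace DG

open Matrix Complex Filter Topology Asymptotics

attribute [local instance] Matrix.normedAddCommGroup Matrix.normedSpace

theorem SW_mem {n : ℕ} : (SW : Matrix (Fin (n + 2) ⊕ Fin (n + 2)) _ ℤ) ∈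
    Matrix.symplecticGroup (Fin (n + 2)) ℤ := by
  sorry

theorem SW_act {n : ℕ} {τ : Mt (n + 2)} (hτ : τ ∈ HH (n + 2)) (i j : Fin (n + 2)) :
    DF.act SW τ i j = τ (Equiv.swap 0 1 i) (Equiv.swap 0 1 j) := by
  sorry

theorem SW_det {n : ℕ} {τ : Mt (n + 2)} (hτ : τ ∈ HH (n + 2)) {k : ℕ} (hk : Even k) :
    (DF.den SW τ).det ^ k = 1 := by
  sorry

theorem no_case {γ : Matrix (Fin (0 + 1) ⊕ Fin (0 + 1)) (Fin (0 + 1) ⊕ Fin (0 + 1)) ℤ}
    (hγ : γ ∈ Matrix.symplecticGroup (Fin (0 + 1)) ℤ)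
    (h : (γ (Sum.inl 0) (Sum.inl 0) = 0 ∧ γ (Sum.inl 0) (Sum.inr 0) = 0) ∧
        γ (Sum.inr 0) (Sum.inl 0) = 0 ∧ γ (Sum.inr 0) (Sum.inr 0) = 0) : False := by
  sorry

end DG
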