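import Pool.Agent.helper32.DG.C0
import Pool.Agent.helper32.DG.E10
import Pool.Agent.helper32.DG.E13a

/-!
# E13 : decomposition of a symplectic matrix which moves the first plane to an orthogonal one

PROOF. Let `μ = γ (inl 0)`, `ν = γ (inr 0)` (rows): `Ep μ ν = 1` and both vanish at `inl 0`, `inr 0`.
`DF.pair_transitive {0} 1` gives `σ` in the closure of the generators, fixing `e_(inl 0)`, `e_(inr 0)`, with
`σ *ᵥ μ = e_(inl 1)`, `σ *ᵥ ν = e_(inr 1)`.  `β = (σ⁻¹)ᵀ` (`DF.closure_inv`; symplectic: `SymplecticGroup.transpose_mem`).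
`γ β⁻¹ = γ σᵀ` has rows `inl 0` and `inr 0` equal to `σ *ᵥ μ = e_(inl 1)`, `σ *ᵥ ν = e_(inr 1)`; `SW` has the same two
rows, `SW * SW = 1`, so `δ = γ σᵀ SW` has rows `e_(inl 0)`, `e_(inr 0)`, and is symplectic.  `γ = δ * SW * β`.
`StabM δ`: the other rows are `Ep`-orthogonal to `e_(inl 0)`, `e_(inr 0)`.  `StabM β`: `σ` fixes `e_(inl 0)`, `e_(inr 0)`
and preserves `Ep`, so it preserves the orthogonal complement of the plane, i.e. `StabM σ`, then `StabM σ⁻¹`
and the transpose.  `no_case`: for `n = 0` the rows would be `0`, but `Ep μ ν = 1`.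
`SW_act`: `act SW τ = mU swp τ = swp τ swpᵀ` (`DF.act_gU`), with `det (den) ^ 2 = 1`; entries: exchange of the
coordinates `0` and `1`: `act SW τ i j = τ (swap 0 1 i) (swap 0 1 j)`.
-/

set_option linter.unusedVariables false
set_option linter.unusedSectionVars false

namespace DG

open Matrix Complex Filter Topology Asymptotics

attribute [local instance] Matrix.normedAddCommGroup Matrix.normedSpace

theorem e13_row {ι : Type} [Fintype ι] [DecidableEq ι] {γ : Matrix (ι ⊕ ι) (ι ⊕ ι) ℤ}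
    (hγ : γ ∈ Matrix.symplecticGroup ι ℤ) (x y : ι ⊕ ι) :
    DF.Ep (γ x) (γ y) = DF.Ep (Pi.single x 1) (Pi.single y 1) := by
  have h := DF.c4_inv (SymplecticGroup.transpose_mem hγ) (Pi.single x 1) (Pi.single y 1)
  rw [Matrix.mulVec_single_one, Matrix.mulVec_single_one] at h
  exact h

theorem e13_stab {n : ℕ} {δ : Matrix (Fin (n + 1) ⊕ Fin (n + 1)) (Fin (n + 1) ⊕ Fin (n + 1)) ℤ}
    (hδ : δ ∈ Matrix.symplecticGroup (Fin (n + 1)) ℤ)
    (h1 : δ (Sum.inl 0) = Pi.single (Sum.inl 0) 1) (h2 : δ (Sum.inr 0) = Pi.single (Sum.inr 0) 1) :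
    StabM δ := by
  have hz : ∀ x y, isz x → ¬ isz y → δ x y = 0 := by
    intro x y hx hy
    have hxy : x ≠ y := fun h => hy (h ▸ hx)
    have hr : δ x = Pi.single x 1 := by
      cases x with
      | inl i =>
        have : i = 0 := hx
        subst this
        exact h1
      | inr i =>
        have : i = 0 := hx
        subst this
        exact h2
    rw [hr]
    exact Pi.single_eq_of_ne hxy.symm _
  have hl : ∀ x, x ≠ Sum.inl 0 → δ x (Sum.inl 0) = 0 := by
    intro x hx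
    have h := e13_row hδ x (Sum.inr 0)
    rw [h2, DF.c3_Ep_single_inr, DF.c3_Ep_single_inr] at h
    rw [h]
    exact Pi.single_eq_of_ne hx.symm _
  have hr : ∀ x, x ≠ Sum.inr 0 → δ x (Sum.inr 0) = 0 := by
    intro x hx
    have h := e13_row hδ x (Sum.inl 0)
    rw [h1, DF.c3_Ep_single_inl, DF.c3_Ep_single_inl] at h
    rw [neg_inj.1 h]
    exact Pi.single_eq_of_ne hx.symm _
  intro x y hxy
  by_cases hx : isz x
  · exact hz x y hx fun hy => hxy ⟨fun _ => hy, fun _ => hx⟩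
  · have hy : isz y := by
      by_contra hy
      exact hxy ⟨fun h => absurd h hx, fun h => absurd h hy⟩
    cases y with
    | inl i =>
      have : i = 0 := hy
      subst this
      exact hl x fun h => hx (by rw [h]; rfl)
    | inr i =>
      have : i = 0 := hy
      subst this
      exact hr x fun h => hx (by rw [h]; rfl)

theorem e13_swp {n : ℕ} : (swp : Matrix (Fin (n + 2)) (Fin (n + 2)) ℤ) * swp = 1 := by
  rw [swp, ← PEquiv.toMatrix_trans, ← Equiv.toPEquiv_trans]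
  rw [show (Equiv.swap (0 : Fin (n + 2)) 1).trans (Equiv.swap 0 1) = Equiv.refl _ from
    Equiv.swap_swap 0 1]
  rw [Equiv.toPEquiv_refl, PEquiv.toMatrix_refl]

theorem e13_SW {n : ℕ} : (SW : Matrix (Fin (n + 2) ⊕ Fin (n + 2)) _ ℤ) * SW = 1 := by
  rw [SW, DF.gU, fromBlocks_multiply, e13_swp, ← Matrix.transpose_mul, e13_swp, ← fromBlocks_one]
  simp

theorem e13_swp1 {n : ℕ} (j : Fin (n + 2)) :
    (swp : Matrix (Fin (n + 2)) (Fin (n + 2)) ℤ) 1 j = if j = 0 then 1 else 0 := by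
  simp [swp, PEquiv.toMatrix_apply, Equiv.toPEquiv_apply, eq_comm]

theorem e13_swp1' {n : ℕ} (j : Fin (n + 2)) :
    (swp : Matrix (Fin (n + 2)) (Fin (n + 2)) ℤ) j 1 = if j = 0 then 1 else 0 := by
  have h : 1 = Equiv.swap (0 : Fin (n + 2)) 1 j ↔ j = 0 := by
    constructor
    · intro h
      have h2 := congrArg (Equiv.swap (0 : Fin (n + 2)) 1) h
      rw [Equiv.swap_apply_right, Equiv.swap_apply_self] at h2
      exact h2.symm
    · rintro rfl
      simp
  simp [swp, PEquiv.toMatrix_apply, Equiv.toPEquiv_apply, h, eq_comm]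

theorem e13_SWl {n : ℕ} : (SW : Matrix (Fin (n + 2) ⊕ Fin (n + 2)) _ ℤ) (Sum.inl 1) =
    Pi.single (Sum.inl 0) 1 := by
  funext y
  cases y with
  | inl j =>
    rw [SW, DF.gU, fromBlocks_apply₁₁, e13_swp1, Pi.single_apply]
    simp
  | inr j =>
    rw [SW, DF.gU, fromBlocks_apply₁₂, Pi.single_apply]
    simp

theorem e13_SWr {n : ℕ} : (SW : Matrix (Fin (n + 2) ⊕ Fin (n + 2)) _ ℤ) (Sum.inr 1) =
    Pi.single (Sum.inr 0) 1 := by
  funext y
  cases y with
  | inl j =>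
    rw [SW, DF.gU, fromBlocks_apply₂₁, Pi.single_apply]
    simp
  | inr j =>
    rw [SW, DF.gU, fromBlocks_apply₂₂, Matrix.transpose_apply, e13_swp1', Pi.single_apply]
    simp

theorem decomp {n : ℕ} {γ : Matrix (Fin (n + 2) ⊕ Fin (n + 2)) (Fin (n + 2) ⊕ Fin (n + 2)) ℤ}
    (hγ : γ ∈ Matrix.symplecticGroup (Fin (n + 2)) ℤ)
    (h : (γ (Sum.inl 0) (Sum.inl 0) = 0 ∧ γ (Sum.inl 0) (Sum.inr 0) = 0) ∧
        γ (Sum.inr 0) (Sum.inl 0) = 0 ∧ γ (Sum.inr 0) (Sum.inr 0) = 0) :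
    ∃ δ ∈ Matrix.symplecticGroup (Fin (n + 2)) ℤ, ∃ β ∈ Matrix.symplecticGroup (Fin (n + 2)) ℤ,
      StabM δ ∧ StabM β ∧ γ = δ * SW * β := by
  have hE : DF.Ep (γ (Sum.inl 0)) (γ (Sum.inr 0)) = 1 := by
    rw [e13_row hγ, DF.c4_El]
    simp
  obtain ⟨σ, hσ, hσ0, hσ1, hσ2⟩ := DF.pair_transitive {0} (1 : Fin (n + 2)) (by simp)
    (γ (Sum.inl 0)) (γ (Sum.inr 0))
    (by intro i hi; rw [Finset.mem_singleton.1 hi]; exact h.1)
    (by intro i hi; rw [Finset.mem_singleton.1 hi]; exact h.2) hE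
  have hσS : σ ∈ Matrix.symplecticGroup (Fin (n + 2)) ℤ :=
    Submonoid.closure_le.2 DF.gens_sp hσ
  have hσT : σᵀ ∈ Matrix.symplecticGroup (Fin (n + 2)) ℤ := SymplecticGroup.transpose_mem hσS
  have hst : StabM σᵀ := by
    apply e13_stab hσT
    · have h1 := (hσ0 0 (by simp)).1
      rw [Matrix.mulVec_single_one] at h1
      exact h1
    · have h1 := (hσ0 0 (by simp)).2
      rw [Matrix.mulVec_single_one] at h1
      exact h1
  obtain ⟨β, hβ, hβs, hβ1, hβ2⟩ := stab_inv hσT hst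
  have hrow : ∀ x, (γ * σᵀ) x = σ *ᵥ (γ x) := by
    intro x
    funext y
    simp only [Matrix.mul_apply, Matrix.transpose_apply, Matrix.mulVec, dotProduct]
    exact Finset.sum_congr rfl fun z _ => mul_comm _ _
  have hδm : γ * σᵀ * SW ∈ Matrix.symplecticGroup (Fin (n + 2)) ℤ :=
    mul_mem (mul_mem hγ hσT) SW_mem
  have hrow2 : ∀ x z, (γ * σᵀ) x = Pi.single z 1 →
      (γ * σᵀ * (SW : Matrix (Fin (n + 2) ⊕ Fin (n + 2)) _ ℤ)) x =
        (SW : Matrix (Fin (n + 2) ⊕ Fin (n + 2)) _ ℤ) z := by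
    intro x z hz
    funext y
    rw [Matrix.mul_apply]
    have : ∀ w, (γ * σᵀ) x w = if w = z then 1 else 0 := by
      intro w
      rw [hz, Pi.single_apply]
    simp only [this]
    simp
  refine ⟨γ * σᵀ * SW, hδm, β, hβ, ?_, hβs, ?_⟩
  · apply e13_stab hδm
    · rw [hrow2 _ _ ((hrow _).trans hσ1), e13_SWl]
    · rw [hrow2 _ _ ((hrow _).trans hσ2), e13_SWr]
  · rw [Matrix.mul_assoc (γ * σᵀ), e13_SW, Matrix.mul_one, Matrix.mul_assoc, hβ2, Matrix.mul_one]

end DG
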