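import Pool.Agent.helper32.DG.C0

/-!
# E14 : the combinatorial identity (Chu-Vandermonde)

PROOF. Notation `(k)_j = k.ascFactorial j`.  Claim: `L(a,b,c,u) := ∑_{i ≤ u} C(a,i) / ((u-i)! (k)_(a+b+u) (k)_(b+c+i))
= (k+a+b+c)_u / (u! (k)_(a+b+u) (k)_(b+c+u))` (here `(x)_u = x.ascFactorial u`); the right hand side is symmetric
in `a`, `c`.  Multiply by `u! (k)_(a+b+u) (k)_(b+c+u)`: with `x = k+b+c`, `(k)_(b+c+u) / (k)_(b+c+i) =
(x+i)_(u-i)`, the claim is `∑_{i≤u} C(u,i) (i! C(a,i)) (x+i)_(u-i) = (x+a)_u`, i.e. the Vandermonde identity for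
rising factorials `∑_i C(u,i) a^(falling i) (x+i)_(u-i) = (x + a)_u`: induction on `a`: or divide by `u!`:
`∑_i C(a,i) C(x+u-1, u-i) = C(x+a+u-1, u)` (`(x+i)_(u-i) / (u-i)! = C(x+u-1, u-i)`), which is
`Nat.add_choose_eq` (Vandermonde).  `k ≥ 1` is needed only for the denominators to be nonzero.
-/

set_option linter.unusedVariables false
set_option linter.unusedSectionVars false

namespace DG

open Matrix Complex Filter Topology Asymptotics

attribute [local instance] Matrix.normedAddCommGroup Matrix.normedSpace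

theorem vander (k : ℕ) (hk : 1 ≤ k) (a b c u : ℕ) :
    ∑ i ∈ Finset.range (u + 1), (a.choose i : ℂ) / (((u - i).factorial : ℂ) *
      (k.ascFactorial (a + b + u) : ℂ) * (k.ascFactorial (b + c + i) : ℂ)) =
    ((k + a + b + c).ascFactorial u : ℂ) / ((u.factorial : ℂ) *
      (k.ascFactorial (a + b + u) : ℂ) * (k.ascFactorial (b + c + u) : ℂ)) := by
  obtain ⟨m, rfl⟩ : ∃ m, k = m + 1 := ⟨k - 1, by omega⟩
  have hpos : ∀ n : ℕ, ((m + 1).ascFactorial n : ℂ) ≠ 0 := fun n =>
    Nat.cast_ne_zero.2 (Nat.ascFactorial_pos _ _).ne'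
  have hfac : ∀ n : ℕ, (n.factorial : ℂ) ≠ 0 := fun n => Nat.cast_ne_zero.2 (Nat.factorial_ne_zero n)
  have h1 : ∀ i ∈ Finset.range (u + 1), (a.choose i : ℂ) / (((u - i).factorial : ℂ) *
      ((m + 1).ascFactorial (a + b + u) : ℂ) * ((m + 1).ascFactorial (b + c + i) : ℂ)) =
      ((a.choose i * (m + b + c + u).choose (u - i) : ℕ) : ℂ) /
        (((m + 1).ascFactorial (a + b + u) : ℂ) * ((m + 1).ascFactorial (b + c + u) : ℂ)) := by
    intro i hi
    have hi' : i ≤ u := Nat.lt_succ_iff.1 (Finset.mem_range.1 hi)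
    have h2 : (m + 1).ascFactorial (b + c + u) =
        (m + 1).ascFactorial (b + c + i) * ((u - i).factorial * (m + b + c + u).choose (u - i)) := by
      have e1 : b + c + u = b + c + i + (u - i) := by omega
      rw [e1, ← Nat.ascFactorial_mul_ascFactorial]
      congr 1
      rw [Nat.ascFactorial_eq_factorial_mul_choose']
      congr 2
      omega
    have h3 : ((m + 1).ascFactorial (b + c + u) : ℂ) =
        ((m + 1).ascFactorial (b + c + i) : ℂ) *
          (((u - i).factorial : ℂ) * ((m + b + c + u).choose (u - i) : ℂ)) := by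
      exact_mod_cast h2
    have h4 := hpos (b + c + i)
    have h5 := hpos (b + c + u)
    have h6 := hpos (a + b + u)
    have h7 := hfac (u - i)
    rw [div_eq_div_iff (by positivity) (by positivity)]
    rw [h3]
    push_cast
    ring
  rw [Finset.sum_congr rfl h1, ← Finset.sum_div, ← Nat.cast_sum]
  have h8 : ∑ i ∈ Finset.range (u + 1), a.choose i * (m + b + c + u).choose (u - i) =
      (a + (m + b + c + u)).choose u := by
    rw [Nat.add_choose_eq, Finset.Nat.sum_antidiagonal_eq_sum_range_succ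
      (fun i j => a.choose i * (m + b + c + u).choose j)]
  rw [h8]
  have h9 : (m + 1 + a + b + c).ascFactorial u = u.factorial * (a + (m + b + c + u)).choose u := by
    rw [Nat.ascFactorial_eq_factorial_mul_choose']
    congr 2
    omega
  rw [h9]
  push_cast
  have h5 := hpos (b + c + u)
  have h6 := hpos (a + b + u)
  have h7 := hfac u
  rw [div_eq_div_iff (by positivity) (by positivity)]
  ring

theorem vander_symm (k : ℕ) (hk : 1 ≤ k) (a b c u : ℕ) :
    ∑ i ∈ Finset.range (u + 1), (a.choose i : ℂ) / (((u - i).factorial : ℂ) *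
      (k.ascFactorial (a + b + u) : ℂ) * (k.ascFactorial (b + c + i) : ℂ)) =
    ∑ i ∈ Finset.range (u + 1), (c.choose i : ℂ) / (((u - i).factorial : ℂ) *
      (k.ascFactorial (c + b + u) : ℂ) * (k.ascFactorial (b + a + i) : ℂ)) := by
  rw [vander k hk, vander k hk, show k + a + b + c = k + c + b + a by ring,
    show b + c + u = c + b + u by ring, show b + a + u = a + b + u by ring]
  ring

end DG
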