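import Pool.Agent.helper32.DG.C0

/-!
# EE0 : the swap expression (definition)

For `τ ∈ H_(n+2)` with entries `a = τ 0 0`, `c = τ 0 1`, `b = τ 1 1`, `z₁`, `z₂` (rest of the first and second row)
the function `t ↦ PJ f k h N (sc2 t τ)` is, up to `O(t^K)`, `EE k N c f₁ f₂ P t` with `f₁ s = f (a + s)`,
`f₂ s = f (b + s)`, `P α β γ = h0 (τ'' + α z₁z₁ᵀ + β (z₁z₂ᵀ + z₂z₁ᵀ) + γ z₂z₂ᵀ)`.
-/

set_option linter.unusedVariables false
set_option linter.unusedSectionVars false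

namespace DG

open Matrix Complex Filter Topology Asymptotics

attribute [local instance] Matrix.normedAddCommGroup Matrix.normedSpace

/-- the swap expression in one variable -/
noncomputable def EE (k N : ℕ) (c : ℂ) (f₁ f₂ : ℂ → ℂ) (P : ℂ → ℂ → ℂ → ℂ) (t : ℂ) : ℂ :=
  ∑ j ∈ Finset.range N, iteratedDeriv j f₁ 0 / cst k j *
    iteratedDeriv j (fun σ : ℂ => ∑ i ∈ Finset.range N,
      iteratedDeriv i f₂ (t ^ 2 * σ * c ^ 2) / cst k i *
      iteratedDeriv i (fun r : ℂ => P (t ^ 2 * σ + r * t ^ 4 * σ ^ 2 * c ^ 2)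
        (r * t ^ 3 * σ * c) (r * t ^ 2)) 0) 0

end DG
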