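import Pool.Agent.helper32.DG.C0
import Pool.Agent.helper32.DG.EE0

/-!
# E15 : the swap expression for monomials

PROOF. Fix `t`.  `P = α^A β^B γ^C` gives `P(..) = (t²σ)^A (1 + r t² σ c²)^A (r t³ σ c)^B (r t²)^C`, a polynomial in `r`:
its `i`-th derivative at `0` is `i!` times the coefficient of `r^i`, which is `0` if `i < B + C` and otherwise, with
`u = i - B - C`, `C(A,u) (t²σc²)^u (t²σ)^A (t³σc)^B t^(2C) = C(A,u) t^(2u+2A+3B+2C) c^(2u+B) σ^(u+A+B)`.
The `j`-th derivative in `σ` at `0` of `σ^e f₂^(i)(t² c² σ)` (`e = u+A+B`, `f₂` analytic at `0`) is `0` if `j < e` and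
`j! / v! (t² c²)^v f₂^(i+v)(0)` if `j = e + v` (Leibniz, or Taylor coefficients).
Total: sum over `u ≤ A`, `v` with `i = B+C+u < N`, `j = A+B+u+v < N` of
`f₁^(j)(0) / (j! (k)_j) · 1 / (i! (k)_i) · i! C(A,u) · j! / v! · f₂^(i+v)(0) t^(2(A+C+u+v)+3B) c^(2(u+v)+B)`.
(For `v ≥ N` there is no term, so `v ∈ range N`.)
-/

set_option linter.unusedVariables false
set_option linter.unusedSectionVars false

namespace DG

open Matrix Complex Filter Topology Asymptotics

attribute [local instance] Matrix.normedAddCommGroup Matrix.normedSpace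

theorem EE_mono (k N : ℕ) (hk : 1 ≤ k) (c : ℂ) (f₁ f₂ : ℂ → ℂ) (h₂ : AnalyticAt ℂ f₂ 0)
    (A B C : ℕ) (t : ℂ) : EE k N c f₁ f₂ (fun α β γ => α ^ A * β ^ B * γ ^ C) t =
      ∑ u ∈ Finset.range (A + 1), ∑ v ∈ Finset.range N,
        if A + B + u + v < N ∧ B + C + u < N then
          iteratedDeriv (A + B + u + v) f₁ 0 * iteratedDeriv (B + C + u + v) f₂ 0 *
          ((A.choose u : ℂ) / ((v.factorial : ℂ) * (k.ascFactorial (A + B + u + v) : ℂ) *
            (k.ascFactorial (B + C + u) : ℂ))) *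
          t ^ (2 * (A + C + u + v) + 3 * B) * c ^ (2 * (u + v) + B)
        else 0 := by
  sorry

end DG
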