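import Pool.Agent.helper32.DG.C0
import Pool.Agent.helper32.DG.EE0
import Pool.Agent.helper32.DG.E01

/-!
# E16b : the swap expression is linear in `P`, and small if `P` is

PROOF. Write `Φ t σ r = (t²σ + r t⁴σ²c², r t³σc, r t²)`.  For every `t`, `(σ, r) ↦ P (Φ t σ r)` is analytic at `(0,0)`
because `Φ t 0 0 = 0`; so the inner iterated derivatives at `r = 0` are analytic in `σ` at `0`
(`analyticAt_param'`), and iterated derivatives of sums and multiples are as expected
(`iteratedDeriv_add`, `iteratedDeriv_const_mul`.. with `AnalyticAt.contDiffAt`); apply the inner statement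
for all `σ` near `0` (`analyticAt` holds in a neighbourhood).
`EE_small`: let `R` be analytic at `0`, `‖R x‖ ≤ C ‖x‖^M` for `‖x‖ ≤ ρ`.  For `‖σ‖ ≤ 1`, `‖r‖ ≤ 1`, `‖t‖ ≤ 1`:
`‖Φ t σ r‖ ≤ (1 + ‖c‖)² ‖t‖²` (sup norm), so for `t` near `0`, `‖R (Φ t σ r)‖ ≤ C' ‖t‖^(2M)`, and `R ∘ Φ t` is analytic
near all `(σ, r)` of the closed bidisc.  Cauchy estimate in `r` (radius `1`): the `i`-th derivative at `r = 0` is
`≤ i! C' ‖t‖^(2M)`, for all `‖σ‖ ≤ 1`; the factors `iteratedDeriv i f₂ (t² σ c²)` are bounded for `t` near `0`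
(continuity at `0`); Cauchy estimate in `σ` (radius `1`, the function of `σ` is analytic near the closed
disc).  (`Complex.norm_iteratedDeriv_le_of_forall_mem_sphere_norm_le`.)
-/

set_option linter.unusedVariables false
set_option linter.unusedSectionVars false

namespace DG

open Matrix Complex Filter Topology Asymptotics

attribute [local instance] Matrix.normedAddCommGroup Matrix.normedSpace

theorem EE_small (k N M : ℕ) (hk : 1 ≤ k) (c : ℂ) (f₁ f₂ : ℂ → ℂ) (h₂ : AnalyticAt ℂ f₂ 0)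
    (R : ℂ → ℂ → ℂ → ℂ) (hR : AnalyticAt ℂ (fun x : ℂ × ℂ × ℂ => R x.1 x.2.1 x.2.2) 0)
    (hM : (fun x : ℂ × ℂ × ℂ => R x.1 x.2.1 x.2.2) =O[𝓝 0] fun x => ‖x‖ ^ M) :
    (fun t => EE k N c f₁ f₂ R t) =O[𝓝 0] fun t => t ^ (2 * M) := by
  sorry

end DG
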