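import Pool.Agent.helper32.DG.E16a
import Pool.Agent.helper32.DG.E16b

/-! # E16 : collects its parts -/
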