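import Pool.Agent.helper32.DG.C0
import Pool.Agent.helper32.DG.E14
import Pool.Agent.helper32.DG.E15
import Pool.Agent.helper32.DG.E16

/-!
# E17a : monomials, part (1) below; the swap expression is symmetric

PROOF. (1) Monomials `α^A β^B γ^C`: by `EE_mono` both `EE f₁ f₂ (α^A β^B γ^C)` and `EE f₂ f₁ (α^C β^B γ^A)` are
finite sums of terms const `· t^(2(A+C+U)+3B)`, `U = u + v`.  Terms with exponent `≥ K` are `O(t^K)`.  If
`2(A+C+U)+3B < K ≤ 2N` then the conditions `A+B+U < N`, `B+C+u < N` hold (also `U < N`), for all `u ≤ U` (`C(A,u) = 0` for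
`u > A`), so the coefficient of `t^(2(A+C+U)+3B)` is
`f₁^(A+B+U)(0) f₂^(B+C+U)(0) c^(2U+B) ∑_{u≤U} C(A,u) / ((U-u)! (k)_(A+B+U) (k)_(B+C+u))`, and for the second
expression the same with `A`, `C` and `f₁`, `f₂` exchanged: equal by `vander_symm`.
(2) General `P`: with `p` the power series of `P` at `0` and `M = N`: `P = ∑_{m<M} p_m(x,..,x) + R`, `R = O(‖x‖^M)`
(`HasFPowerSeriesAt.isBigO_sub_partialSum_pow`), and `p_m(x,..,x)`, `x = α e₁ + β e₂ + γ e₃`, is a finite sum of
constants times monomials (`MultilinearMap.map_sum` and `map_smul`).  `EE_add`, `EE_smul` for finite sums,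
`EE_small` for `R` and for the exchanged `R` (norm is invariant under the exchange of coordinates),
`2 M ≥ K`.
-/

set_option linter.unusedVariables false
set_option linter.unusedSectionVars false

namespace DG

open Matrix Complex Filter Topology Asymptotics

attribute [local instance] Matrix.normedAddCommGroup Matrix.normedSpace

theorem swap_mono (k N K : ℕ) (hk : 1 ≤ k) (hN : K ≤ 2 * N) (c : ℂ) (f₁ f₂ : ℂ → ℂ)
    (h₁ : AnalyticAt ℂ f₁ 0) (h₂ : AnalyticAt ℂ f₂ 0) (A B C : ℕ) :
    (fun t => EE k N c f₁ f₂ (fun α β γ => α ^ A * β ^ B * γ ^ C) t -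
      EE k N c f₂ f₁ (fun α β γ => α ^ C * β ^ B * γ ^ A) t) =O[𝓝 0] fun t => t ^ K := by
  sorry

end DG
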