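import Pool.Agent.helper32.DG.C0
import Pool.Agent.helper32.DG.E17a
import Pool.Agent.helper32.DG.E16

/-!
# E17 : the swap expression is symmetric

PROOF. (1) `swap_mono`, module E17a.  Monomials `α^A β^B γ^C`: by `EE_mono` both `EE f₁ f₂ (α^A β^B γ^C)` and `EE f₂ f₁ (α^C β^B γ^A)` are
finite sums of terms const `· t^(2(A+C+U)+3B)`, `U = u + v`.  Terms with exponent `≥ K` are `O(t^K)`.  If
`2(A+C+U)+3B < K ≤ 2N` then the conditions `A+B+U < N`, `B+C+u < N` hold (also `U < N`), for all `u ≤ U` (`C(A,u) = 0` for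
`u > A`), so the coefficient of `t^(2(A+C+U)+3B)` is
`f₁^(A+B+U)(0) f₂^(B+C+U)(0) c^(2U+B) ∑_{u≤U} C(A,u) / ((U-u)! (k)_(A+B+U) (k)_(B+C+u))`, and for the second
expression the same with `A`, `C` and `f₁`, `f₂` exchanged: equal by `vander_symm`.
(2) General `P`: with `p` the power series of `P` at `0` and `M = N`: `P = ∑_{m<M} p_m(x,..,x) + R`, `R = O(‖x‖^M)`
(`HasFPowerSeriesAt.isBigO_sub_partialSum_pow`), and `p_m(x,..,x)`, `x = α e₁ + β e₂ + γ e₃`, is a finite sum of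
constants times monomials (`MultilinearMap.map_sum` and `map_smul`).  `EE_add`, `EE_smul` for finite sums,
`EE_small` for `R` and for the exchanged `R` (norm is invariant under the exchange of coordinates),
`2 M ≥ K`.
-/

set_option linter.unusedVariables false
set_option linter.unusedSectionVars false

namespace DG

open Matrix Complex Filter Topology Asymptotics

attribute [local instance] Matrix.normedAddCommGroup Matrix.normedSpace

/-- the swap property for the function `P` -/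
def SwOK (k N K : ℕ) (c : ℂ) (f₁ f₂ : ℂ → ℂ) (P : ℂ → ℂ → ℂ → ℂ) : Prop :=
  (fun t => EE k N c f₁ f₂ P t - EE k N c f₂ f₁ (fun α β γ => P γ β α) t)
      =O[𝓝 0] fun t => t ^ K

/-- analyticity at the origin -/
def An3 (P : ℂ → ℂ → ℂ → ℂ) : Prop := AnalyticAt ℂ (fun x : ℂ × ℂ × ℂ => P x.1 x.2.1 x.2.2) 0

theorem e17_a1 : AnalyticAt ℂ (fun x : ℂ × ℂ × ℂ => x.1) 0 := analyticAt_fst

theorem e17_a2 : AnalyticAt ℂ (fun x : ℂ × ℂ × ℂ => x.2.1) 0 :=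
  ((ContinuousLinearMap.fst ℂ ℂ ℂ).comp (ContinuousLinearMap.snd ℂ ℂ (ℂ × ℂ))).analyticAt 0

theorem e17_a3 : AnalyticAt ℂ (fun x : ℂ × ℂ × ℂ => x.2.2) 0 :=
  ((ContinuousLinearMap.snd ℂ ℂ ℂ).comp (ContinuousLinearMap.snd ℂ ℂ (ℂ × ℂ))).analyticAt 0

theorem An3.swap {P : ℂ → ℂ → ℂ → ℂ} (h : An3 P) : An3 (fun α β γ => P γ β α) := by
  have h2 : AnalyticAt ℂ (fun x : ℂ × ℂ × ℂ => ((x.2.2, x.2.1, x.1) : ℂ × ℂ × ℂ)) 0 :=
    e17_a3.prod (e17_a2.prod e17_a1)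
  exact AnalyticAt.fun_comp (f := fun x : ℂ × ℂ × ℂ => ((x.2.2, x.2.1, x.1) : ℂ × ℂ × ℂ))
    (g := fun x : ℂ × ℂ × ℂ => P x.1 x.2.1 x.2.2) h h2

theorem SwOK.add {k N K : ℕ} {c : ℂ} {f₁ f₂ : ℂ → ℂ} (h₁ : AnalyticAt ℂ f₁ 0)
    (h₂ : AnalyticAt ℂ f₂ 0) {P Q : ℂ → ℂ → ℂ → ℂ} (hP : An3 P) (hQ : An3 Q)
    (h : SwOK k N K c f₁ f₂ P) (h' : SwOK k N K c f₁ f₂ Q) :
    SwOK k N K c f₁ f₂ (fun α β γ => P α β γ + Q α β γ) := by
  refine (IsBigO.add h h').congr_left fun t => ?_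
  rw [EE_add k N c f₁ f₂ h₂ P Q hP hQ t,
    EE_add k N c f₂ f₁ h₁ (fun α β γ => P γ β α) (fun α β γ => Q γ β α) hP.swap hQ.swap t]
  ring

theorem SwOK.smul {k N K : ℕ} {c : ℂ} {f₁ f₂ : ℂ → ℂ} (h₁ : AnalyticAt ℂ f₁ 0)
    (h₂ : AnalyticAt ℂ f₂ 0) {P : ℂ → ℂ → ℂ → ℂ} (hP : An3 P) (y : ℂ)
    (h : SwOK k N K c f₁ f₂ P) :
    SwOK k N K c f₁ f₂ (fun α β γ => y * P α β γ) := by
  refine (IsBigO.const_mul_left h y).congr_left fun t => ?_
  rw [EE_smul k N c f₁ f₂ h₂ P hP y t,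
    EE_smul k N c f₂ f₁ h₁ (fun α β γ => P γ β α) hP.swap y t]
  ring

theorem An3.mono (A B C : ℕ) : An3 (fun α β γ => α ^ A * β ^ B * γ ^ C) :=
  ((e17_a1.pow A).mul (e17_a2.pow B)).mul (e17_a3.pow C)

theorem SwOK.mono {k N K : ℕ} (hk : 1 ≤ k) (hN : K ≤ 2 * N) {c : ℂ} {f₁ f₂ : ℂ → ℂ}
    (h₁ : AnalyticAt ℂ f₁ 0) (h₂ : AnalyticAt ℂ f₂ 0) (A B C : ℕ) :
    SwOK k N K c f₁ f₂ (fun α β γ => α ^ A * β ^ B * γ ^ C) := by
  have h := swap_mono k N K hk hN c f₁ f₂ h₁ h₂ A B C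
  refine h.congr_left fun t => ?_
  congr 2
  funext α β γ
  ring

theorem An3.cmul {P : ℂ → ℂ → ℂ → ℂ} (hP : An3 P) (y : ℂ) : An3 (fun α β γ => y * P α β γ) := by
  unfold An3 at *
  fun_prop

theorem An3.sum {κ : Type} (s : Finset κ) {P : κ → ℂ → ℂ → ℂ → ℂ} (hP : ∀ i ∈ s, An3 (P i)) :
    An3 (fun α β γ => ∑ i ∈ s, P i α β γ) := by
  unfold An3
  exact Finset.analyticAt_fun_sum s hP

theorem SwOK.sum {k N K : ℕ} (hk : 1 ≤ k) (hN : K ≤ 2 * N) {c : ℂ} {f₁ f₂ : ℂ → ℂ}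
    (h₁ : AnalyticAt ℂ f₁ 0) (h₂ : AnalyticAt ℂ f₂ 0) {κ : Type} (s : Finset κ)
    {P : κ → ℂ → ℂ → ℂ → ℂ} (hP : ∀ i ∈ s, An3 (P i)) (h : ∀ i ∈ s, SwOK k N K c f₁ f₂ (P i)) :
    SwOK k N K c f₁ f₂ (fun α β γ => ∑ i ∈ s, P i α β γ) := by
  classical
  induction s using Finset.induction_on with
  | empty =>
    have h0 := SwOK.smul (c := c) h₁ h₂ (An3.mono 0 0 0) 0 (SwOK.mono hk hN h₁ h₂ 0 0 0)
    simpa using h0
  | insert a s ha ih =>
    have e : (fun α β γ => ∑ i ∈ insert a s, P i α β γ) =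
        fun α β γ => P a α β γ + ∑ i ∈ s, P i α β γ := by
      funext α β γ
      rw [Finset.sum_insert ha]
    rw [e]
    exact SwOK.add h₁ h₂ (hP a (Finset.mem_insert_self _ _))
      (An3.sum s fun i hi => hP i (Finset.mem_insert_of_mem hi))
      (h a (Finset.mem_insert_self _ _))
      (ih (fun i hi => hP i (Finset.mem_insert_of_mem hi))
        (fun i hi => h i (Finset.mem_insert_of_mem hi)))

/-- the standard basis of `ℂ³` -/
def e17e : Fin 3 → ℂ × ℂ × ℂ := ![(1, 0, 0), (0, 1, 0), (0, 0, 1)]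

theorem homog {m : ℕ} (q : ContinuousMultilinearMap ℂ (fun _ : Fin m => ℂ × ℂ × ℂ) ℂ)
    (α β γ : ℂ) : q (fun _ => (α, β, γ)) = ∑ r : Fin m → Fin 3, q (fun i => e17e (r i)) *
      (α ^ (Finset.univ.filter fun i => r i = 0).card *
        β ^ (Finset.univ.filter fun i => r i = 1).card *
        γ ^ (Finset.univ.filter fun i => r i = 2).card) := by
  have h : (fun _ : Fin m => ((α, β, γ) : ℂ × ℂ × ℂ)) =
      fun _ => ∑ a : Fin 3, (![α, β, γ] : Fin 3 → ℂ) a • e17e a := by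
    funext i
    simp [Fin.sum_univ_three, e17e]
  rw [h, ContinuousMultilinearMap.map_sum]
  refine Finset.sum_congr rfl fun r _ => ?_
  rw [ContinuousMultilinearMap.map_smul_univ, smul_eq_mul, mul_comm]
  congr 1
  rw [← Finset.prod_fiberwise' Finset.univ r (![α, β, γ] : Fin 3 → ℂ), Fin.prod_univ_three]
  simp [Finset.prod_const]

theorem swap_one (k N K : ℕ) (hk : 1 ≤ k) (hN : K ≤ 2 * N) (c : ℂ) (f₁ f₂ : ℂ → ℂ)
    (h₁ : AnalyticAt ℂ f₁ 0) (h₂ : AnalyticAt ℂ f₂ 0) (P : ℂ → ℂ → ℂ → ℂ)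
    (hP : AnalyticAt ℂ (fun x : ℂ × ℂ × ℂ => P x.1 x.2.1 x.2.2) 0) :
    (fun t => EE k N c f₁ f₂ P t - EE k N c f₂ f₁ (fun α β γ => P γ β α) t)
      =O[𝓝 0] fun t => t ^ K := by
  obtain ⟨p, hp⟩ := id hP
  have hT0 : (fun α β γ => p.partialSum N (α, β, γ)) = fun α β γ => ∑ m ∈ Finset.range N,
      ∑ r : Fin m → Fin 3, p m (fun i => e17e (r i)) *
      (α ^ (Finset.univ.filter fun i => r i = 0).card *
        β ^ (Finset.univ.filter fun i => r i = 1).card *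
        γ ^ (Finset.univ.filter fun i => r i = 2).card) := by
    funext α β γ
    rw [FormalMultilinearSeries.partialSum]
    exact Finset.sum_congr rfl fun m _ => homog (p m) α β γ
  have hTa : An3 (fun α β γ => p.partialSum N (α, β, γ)) := by
    rw [hT0]
    refine An3.sum _ fun m _ => An3.sum _ fun r _ => ?_
    exact (An3.mono _ _ _).cmul _
  have hT : SwOK k N K c f₁ f₂ (fun α β γ => p.partialSum N (α, β, γ)) := by
    rw [hT0]
    refine SwOK.sum hk hN h₁ h₂ _ (fun m _ => An3.sum _ fun r _ => (An3.mono _ _ _).cmul _)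
      fun m _ => SwOK.sum hk hN h₁ h₂ _ (fun r _ => (An3.mono _ _ _).cmul _) fun r _ => ?_
    exact SwOK.smul h₁ h₂ (An3.mono _ _ _) _ (SwOK.mono hk hN h₁ h₂ _ _ _)
  have hRa : An3 (fun α β γ => P α β γ - p.partialSum N (α, β, γ)) :=
    AnalyticAt.sub hP hTa
  have hRO : (fun x : ℂ × ℂ × ℂ => P x.1 x.2.1 x.2.2 - p.partialSum N (x.1, x.2.1, x.2.2))
      =O[𝓝 0] fun x => ‖x‖ ^ N := by
    have h := hp.isBigO_sub_partialSum_pow N
    refine h.congr_left fun x => ?_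
    simp
  have hRO' : (fun x : ℂ × ℂ × ℂ => P x.2.2 x.2.1 x.1 - p.partialSum N (x.2.2, x.2.1, x.1))
      =O[𝓝 0] fun x => ‖x‖ ^ N := by
    have hc : Tendsto (fun x : ℂ × ℂ × ℂ => ((x.2.2, x.2.1, x.1) : ℂ × ℂ × ℂ)) (𝓝 0) (𝓝 0) := by
      have : Continuous (fun x : ℂ × ℂ × ℂ => ((x.2.2, x.2.1, x.1) : ℂ × ℂ × ℂ)) := by fun_prop
      exact this.tendsto 0
    have h := hRO.comp_tendsto hc
    refine (h.congr_left fun x => rfl).congr_right fun x => ?_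
    simp only [Function.comp_apply, Prod.norm_def]
    congr 1
    rw [max_comm ‖x.2.1‖ ‖x.1‖, ← max_assoc, max_comm ‖x.2.2‖ ‖x.1‖, max_assoc,
      max_comm ‖x.2.2‖ ‖x.2.1‖]
  have hle : (fun t : ℂ => t ^ (2 * N)) =O[𝓝 0] fun t => t ^ K := by
    refine IsBigO.of_bound 1 ?_
    filter_upwards [Metric.closedBall_mem_nhds (0 : ℂ) one_pos] with t ht
    rw [norm_pow, norm_pow, one_mul]
    exact pow_le_pow_of_le_one (norm_nonneg _) (by simpa using ht) hN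
  have hR : SwOK k N K c f₁ f₂ (fun α β γ => P α β γ - p.partialSum N (α, β, γ)) := by
    have a := (EE_small k N N hk c f₁ f₂ h₂
      (fun α β γ => P α β γ - p.partialSum N (α, β, γ)) hRa hRO).trans hle
    have b := (EE_small k N N hk c f₂ f₁ h₁
      (fun α β γ => P γ β α - p.partialSum N (γ, β, α)) hRa.swap hRO').trans hle
    exact a.sub b
  have h := SwOK.add h₁ h₂ hRa hTa hR hT
  have e : (fun α β γ => P α β γ - p.partialSum N (α, β, γ) + p.partialSum N (α, β, γ)) = P := by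
    funext α β γ
    ring
  rw [e] at h
  exact h

end DG
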