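import Pool.Agent.helper32.DG.C0

/-!
# E18a : only `PP3_analytic`; the iterated canonical extension along the rays of `sc2`

NOTATION. `a = τ 0 0`, `c = τ 0 1`, `b = τ 1 1`, `z₁ i = τ 0 i.succ.succ`, `z₂ i = τ 1 i.succ.succ`, `τ'' = lo (lo τ)`.
PROOF. For `t` near `0`.  `zz (sc2 t τ) = t • (c, z₁)`, `lo (sc2 t τ) = sc t (lo τ) = blk b (t z₂) τ''`, and
`sc t (lo τ) + s • (t (c,z₁)) (t (c,z₁))ᵀ = blk (b + s t² c²) (t z₂ + s t² c z₁) (τ'' + s t² z₁z₁ᵀ) =: θ(t,s)`, so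
`PJ f k h N (sc2 t τ) = ∑_{j<N} f^(j)(a) / cst k j · iteratedDeriv j (fun s => h (θ(t,s))) 0`.
`zz (θ(t,s)) = t (z₂ + s t c z₁)`.  Put `e = h - PJ f k h0 N`, holomorphic on `H_(n+1)` (`Hol_PJ`), with
`e = O(‖zz‖^K)` near the point `p' = blk b 0 τ''`.  (i) For `‖s‖ ≤ 1` and `t` near `0`: `‖e (θ(t,s))‖ ≤ C ‖t‖^K`, and
`s ↦ e (θ(t,s))` is analytic near the closed unit disc; Cauchy estimate: the `j`-th derivative at `0` is
`≤ j! C ‖t‖^K`.  (ii) `PJ f k h0 N (θ(t,s)) = ∑_{i<N} f^(i)(b + s t² c²) / cst k i · Dz h0 i (t (z₂ + s t c z₁)) (τ'' + s t² z₁z₁ᵀ)`,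
and `Dz .. = iteratedDeriv i (fun r => h0 (τ'' + s t² z₁z₁ᵀ + r t² (z₂ + s t c z₁)(z₂ + s t c z₁)ᵀ)) 0`, whose argument
is `τ'' + α z₁z₁ᵀ + β (z₁z₂ᵀ + z₂z₁ᵀ) + γ z₂z₂ᵀ` with `α = t² s + r t⁴ s² c²`, `β = r t³ s c`, `γ = r t²`.  So (with `σ = s`)
the sum is `EE` (`iteratedDeriv i f (b + x) = iteratedDeriv i (fun y => f (b + y)) x`).
`PP3_analytic`: the argument is symmetric, equals `τ` at `0`; `h0 = h0 ∘ symm` on symmetric matrices.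
-/

set_option linter.unusedVariables false
set_option linter.unusedSectionVars false

namespace DG

open Matrix Complex Filter Topology Asymptotics

attribute [local instance] Matrix.normedAddCommGroup Matrix.normedSpace

/-- the function `P` of three variables attached to `h0` and a point -/
noncomputable def PP3 {n : ℕ} (h0 : Mt n → ℂ) (z₁ z₂ : Fin n → ℂ) (τ' : Mt n) (α β γ : ℂ) : ℂ :=
  h0 (τ' + α • vecMulVec z₁ z₁ + β • (vecMulVec z₁ z₂ + vecMulVec z₂ z₁) + γ • vecMulVec z₂ z₂)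

theorem PP3_analytic {n : ℕ} {h0 : Mt n → ℂ} (hh0 : Hol n h0) (z₁ z₂ : Fin n → ℂ) {τ' : Mt n}
    (hτ : τ' ∈ HH n) :
    AnalyticAt ℂ (fun x : ℂ × ℂ × ℂ => PP3 h0 z₁ z₂ τ' x.1 x.2.1 x.2.2) 0 := by
  sorry

end DG
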