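import Pool.Agent.helper32.DG.C0
import Pool.Agent.helper32.DG.E05

/-!
# E18b : derivatives of a function which vanishes to high order

PROOF. For `t` near `0`: `zz (sc2 t τ) = t • zz τ`, `lo (sc2 t τ) = sc t (lo τ)`.  Put
`θ(t,s) = sc t (lo τ) + s • vecMulVec (t • zz τ) (t • zz τ)`, a symmetric matrix, polynomial in `(t, s)`, with
`θ(0,s) = sc 0 (lo τ) =: p' ∈ HH (n+1)`, `Blk p'`; so `θ(t,s) → p'` as `t → 0`, uniformly for `‖s‖ ≤ 1`, and
`zz (θ(t,s)) i = t τ 1 i.succ.succ + s t² τ 0 1 τ 0 i.succ.succ`, of norm `≤ C ‖t‖` for `‖s‖ ≤ 1`, `‖t‖ ≤ 1`.  Hence for `t` near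
`0` and all `‖s‖ ≤ 1`: `‖e (θ(t,s))‖ ≤ C' ‖t‖^K`, and `s ↦ e (θ(t,s))` is analytic near the closed unit disc
(`e = e ∘ symm` on symmetric matrices).  Cauchy estimate for the `j`-th derivative at `0`.
-/

set_option linter.unusedVariables false
set_option linter.unusedSectionVars false

namespace DG

open Matrix Complex Filter Topology Asymptotics

attribute [local instance] Matrix.normedAddCommGroup Matrix.normedSpace

theorem Dz_small {n K : ℕ} {e : Mt (n + 1) → ℂ} (he : Hol (n + 1) e)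
    (hc : ∀ p ∈ HH (n + 1), Blk p → e =O[𝓝[HH (n + 1)] p] fun τ => ‖zz τ‖ ^ K) (j : ℕ)
    {τ : Mt (n + 2)} (hτ : τ ∈ HH (n + 2)) :
    (fun t : ℂ => Dz e j (zz (sc2 t τ)) (lo (sc2 t τ))) =O[𝓝 0] fun t => t ^ K := by
  sorry

end DG
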