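import Pool.Agent.helper32.DG.C0
import Pool.Agent.helper32.DG.EE0
import Pool.Agent.helper32.DG.E18a

/-!
# E18c : the twice iterated canonical extension is the swap expression (an identity without conditions)

PROOF. Unfold.  `a = τ 0 0`, `c = τ 0 1`, `b = τ 1 1`, `z₁ i = τ 0 i.succ.succ`, `z₂ i = τ 1 i.succ.succ`, `τ'' = lo (lo τ)`.
`zz (sc2 t τ) = t • zz τ`, `zz τ = (c, z₁)`, `lo (sc2 t τ) = blk b (t z₂) τ''`, and
`lo (sc2 t τ) + σ • (t zz τ)(t zz τ)ᵀ` has entry `(0,0)` equal to `b + t² σ c²`, `zz = t z₂ + σ t² c z₁`,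
`lo = τ'' + σ t² z₁z₁ᵀ`.  So the left side is
`∑_j f^(j)(a) / cst k j · iteratedDeriv j (fun σ => ∑_i f^(i)(b + t² σ c²) / cst k i · iteratedDeriv i (fun r => h0 (X(σ,r))) 0) 0`,
`X(σ,r) = τ'' + σ t² z₁z₁ᵀ + r (t z₂ + σ t² c z₁)(t z₂ + σ t² c z₁)ᵀ = τ'' + α z₁z₁ᵀ + β (z₁z₂ᵀ + z₂z₁ᵀ) + γ z₂z₂ᵀ` with
`α = t² σ + r t⁴ σ² c²`, `β = r t³ σ c`, `γ = r t²`.
`iteratedDeriv i f (b + x) = iteratedDeriv i (fun s => f (b + s)) x` (`iteratedDeriv_comp_const_add`), also for `a`, `x = 0`.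
-/

set_option linter.unusedVariables false
set_option linter.unusedSectionVars false

namespace DG

open Matrix Complex Filter Topology Asymptotics

attribute [local instance] Matrix.normedAddCommGroup Matrix.normedSpace

theorem PJ_PJ {n : ℕ} (k N : ℕ) (f : ℂ → ℂ) (h0 : Mt n → ℂ) (τ : Mt (n + 2)) (t : ℂ) :
    PJ f k (PJ f k h0 N) N (sc2 t τ) = EE k N (τ 0 1) (fun s => f (τ 0 0 + s))
      (fun s => f (τ 1 1 + s))
      (PP3 h0 (fun i => τ 0 i.succ.succ) (fun i => τ 1 i.succ.succ) (lo (lo τ))) t := by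
  sorry

end DG
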