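import Pool.Agent.helper32.DG.C0
import Pool.Agent.helper32.DG.E18a
import Pool.Agent.helper32.DG.E18b
import Pool.Agent.helper32.DG.E18c
import Pool.Agent.helper32.DG.E05

/-!
# E18 : the canonical extension of an almost canonical function along the rays of `sc2`

PROOF. By `PJ_PJ` the difference is `PJ f k h N (sc2 t τ) - PJ f k g N (sc2 t τ)`, `g = PJ f k h0 N`, which is
`∑_j f^(j)(τ 0 0) (Dz h j - Dz g j) (zz (sc2 t τ)) (lo (sc2 t τ)) / cst k j`.  For `t` near `0` `lo (sc2 t τ) ∈ HH (n+1)` and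
`Dz h j - Dz g j = Dz (h - g) j` there (`iteratedDeriv_sub`; both functions are analytic on the line,
`line_analytic`, `Hol_PJ`).  `Dz_small` for `e = h - g`.
-/

set_option linter.unusedVariables false
set_option linter.unusedSectionVars false

namespace DG

open Matrix Complex Filter Topology Asymptotics

attribute [local instance] Matrix.normedAddCommGroup Matrix.normedSpace

theorem PJ_sc2 {n k N K : ℕ} (hk : 1 ≤ k) (hN : K ≤ 2 * N) {f : ℂ → ℂ}
    (hf : AnalyticOnNhd ℂ f {z | 0 < z.im}) {h : Mt (n + 1) → ℂ} (hh : Hol (n + 1) h)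
    {h0 : Mt n → ℂ} (hh0 : Hol n h0)
    (hc : ∀ p ∈ HH (n + 1), Blk p → (fun τ => h τ - PJ f k h0 N τ)
      =O[𝓝[HH (n + 1)] p] fun τ => ‖zz τ‖ ^ K) {τ : Mt (n + 2)} (hτ : τ ∈ HH (n + 2)) :
    (fun t : ℂ => PJ f k h N (sc2 t τ) - EE k N (τ 0 1) (fun s => f (τ 0 0 + s))
      (fun s => f (τ 1 1 + s))
      (PP3 h0 (fun i => τ 0 i.succ.succ) (fun i => τ 1 i.succ.succ) (lo (lo τ))) t)
      =O[𝓝 0] fun t => t ^ K := by
  sorry

end DG
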