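import Pool.Agent.helper32.DG.C0
import Pool.Agent.helper32.DG.E03
import Pool.Agent.helper32.DG.E13
import Pool.Agent.helper32.DG.E17
import Pool.Agent.helper32.DG.E18

/-!
# E19 : the canonical extension is symmetric under the exchange of two elliptic factors

PROOF. `radial_sc2` for `u τ = PJ f k h N (act SW τ) - PJ f k h N τ` (holomorphic: `Hol_PJ`, `Hol.comp_act`,
`SW_mem`).  Fix `τ ∈ HH (n+2)` and let `τˢ = act SW τ ∈ HH (n+2)` (entries: `SW_act`).  For `t` near `0`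
(`sc2 t τ ∈ HH (n+2)`, since it tends to the block diagonal matrix `sc2 0 τ ∈ HH (n+2)`):
`act SW (sc2 t τ) = sc2 t τˢ` (entries).  `PJ_sc2` for `τ` and `τˢ`: `τˢ 0 1 = τ 1 0 = τ 0 1`, `τˢ 0 0 = τ 1 1`,
`τˢ 0 i.succ.succ = τ 1 i.succ.succ`, `lo (lo τˢ) = lo (lo τ)`, and `PP3 h0 z₂ z₁ τ' α β γ = PP3 h0 z₁ z₂ τ' γ β α`
(`β`-term is symmetric).  `swap_one` gives the claim.
-/

set_option linter.unusedVariables false
set_option linter.unusedSectionVars false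

namespace DG

open Matrix Complex Filter Topology Asymptotics

attribute [local instance] Matrix.normedAddCommGroup Matrix.normedSpace

theorem swap_bound {n k N K : ℕ} (hk : 1 ≤ k) (hN : K ≤ 2 * N) {f : ℂ → ℂ}
    (hf : AnalyticOnNhd ℂ f {z | 0 < z.im}) {h : Mt (n + 1) → ℂ} (hh : Hol (n + 1) h)
    {h0 : Mt n → ℂ} (hh0 : Hol n h0)
    (hc : ∀ p ∈ HH (n + 1), Blk p → (fun τ => h τ - PJ f k h0 N τ)
      =O[𝓝[HH (n + 1)] p] fun τ => ‖zz τ‖ ^ K)
    (p : Mt (n + 2)) (hp : p ∈ HH (n + 2)) (hB : Blk p) (hB2 : Blk (lo p)) :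
    (fun τ => PJ f k h N (DF.act SW τ) - PJ f k h N τ)
      =O[𝓝[HH (n + 2)] p] fun τ => (‖zz τ‖ + ‖zz (lo τ)‖) ^ K := by
  sorry

end DG
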