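import Pool.Agent.helper32.DG.C0

/-!
# E20b : the discriminant

PROOF. `Dl` is differentiable on the open upper half plane
(`ModularForm.differentiableAt_eta_of_mem_upperHalfPlaneSet`), hence analytic
(`DifferentiableOn.analyticOnNhd`, open set); `Dl (z+1) = Dl z`, `Dl (-1/z) = z^12 Dl z` from
`ModularForm.discriminant_T_invariant`, `discriminant_S_invariant` (`ModularForm.discriminant z = eta z ^ 24`), or
from the product formula `ModularForm.discriminant_eq_q_prod`.
`Dl_decay`: `Dl x = q ∏ (1 - q^(n+1))^24`, `q = exp (2 π i x)`, and the product is bounded on each half plane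
`im x ≥ ε > 0` (a continuous function of `q`, `‖q‖ ≤ exp(-2πε) < 1`; `tendsto_atImInfty_tprod_one_sub_eta_q_pow` near
`i ∞`, and periodicity and compactness for `ε ≤ im x ≤ R`), so `‖Dl x ^ m‖ ≤ C exp(-2π m im x)` for `im x ≥ ε`.
With `ε = im z / 2` and the Cauchy estimate on the disc of radius `im z / 2` about `z + t`:
`‖iteratedDeriv j (Dl^m) (z+t)‖ ≤ C' exp(-2π m im t)`.
`Dl_lim`: `y = 0`: constant, nonzero (`ModularForm.eta_ne_zero`).  `y > 0`: `Dl (z + i l y) exp(2π l y) = exp(2π i z) ∏ ..`
and the product tends to `1`; the limit is `exp(2π i m z)`.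
-/

set_option linter.unusedVariables false
set_option linter.unusedSectionVars false

namespace DG

open Matrix Complex Filter Topology Asymptotics

attribute [local instance] Matrix.normedAddCommGroup Matrix.normedSpace

theorem Dl_decay (m j : ℕ) (z : ℂ) (hz : 0 < z.im) : ∃ C : ℝ, ∀ t : ℂ, 0 ≤ t.im →
    ‖iteratedDeriv j (fun x => Dl x ^ m) (z + t)‖ ≤
      C * Real.exp (-2 * Real.pi * (m : ℝ) * t.im) := by
  sorry

end DG
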