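import Pool.Agent.helper32.DG.C0

/-!
# E20a : the discriminant

PROOF. `Dl` is differentiable on the open upper half plane
(`ModularForm.differentiableAt_eta_of_mem_upperHalfPlaneSet`), hence analytic
(`DifferentiableOn.analyticOnNhd`, open set); `Dl (z+1) = Dl z`, `Dl (-1/z) = z^12 Dl z` from
`ModularForm.discriminant_T_invariant`, `discriminant_S_invariant` (`ModularForm.discriminant z = eta z ^ 24`), or
from the product formula `ModularForm.discriminant_eq_q_prod`.
`Dl_decay`: `Dl x = q ∏ (1 - q^(n+1))^24`, `q = exp (2 π i x)`, and the product is bounded on each half plane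
`im x ≥ ε > 0` (a continuous function of `q`, `‖q‖ ≤ exp(-2πε) < 1`; `tendsto_atImInfty_tprod_one_sub_eta_q_pow` near
`i ∞`, and periodicity and compactness for `ε ≤ im x ≤ R`), so `‖Dl x ^ m‖ ≤ C exp(-2π m im x)` for `im x ≥ ε`.
With `ε = im z / 2` and the Cauchy estimate on the disc of radius `im z / 2` about `z + t`:
`‖iteratedDeriv j (Dl^m) (z+t)‖ ≤ C' exp(-2π m im t)`.
`Dl_lim`: `y = 0`: constant, nonzero (`ModularForm.eta_ne_zero`).  `y > 0`: `Dl (z + i l y) exp(2π l y) = exp(2π i z) ∏ ..`
and the product tends to `1`; the limit is `exp(2π i m z)`.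
-/

set_option linter.unusedVariables false
set_option linter.unusedSectionVars false

namespace DG

open Matrix Complex Filter Topology Asymptotics

attribute [local instance] Matrix.normedAddCommGroup Matrix.normedSpace

private theorem Dl_add_one {z : ℂ} (hz : 0 < z.im) : Dl (z + 1) = Dl z := by
  have hz1 : 0 < (z + 1).im := by
    rw [Complex.add_im, Complex.one_im, add_zero]
    exact hz
  have h1 := ModularForm.discriminant_eq_q_prod ⟨z + 1, hz1⟩
  have h2 := ModularForm.discriminant_eq_q_prod ⟨z, hz⟩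
  have e1 : cexp (2 * Real.pi * I * (z + 1)) = cexp (2 * Real.pi * I * z) := by
    rw [mul_add, mul_one, Complex.exp_add, Complex.exp_two_pi_mul_I, mul_one]
  have e2 : ∀ n, ModularForm.eta_q n (z + 1) = ModularForm.eta_q n z := by
    intro n
    rw [ModularForm.eta_q_eq_pow, ModularForm.eta_q_eq_pow, e1]
  have e3 : Function.Periodic.qParam 1 (z + 1) = Function.Periodic.qParam 1 z := by
    have e4 : ∀ w : ℂ, Function.Periodic.qParam 1 w = cexp (2 * Real.pi * I * w) := by
      intro w
      simp [Function.Periodic.qParam]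
    rw [e4, e4, e1]
  have h3 : Dl (z + 1) = Function.Periodic.qParam 1 (z + 1) *
      ∏' n, (1 - ModularForm.eta_q n (z + 1)) ^ 24 := h1
  have h4 : Dl z = Function.Periodic.qParam 1 z *
      ∏' n, (1 - ModularForm.eta_q n z) ^ 24 := h2
  rw [h3, h4, e3]
  simp only [e2]

private theorem Dl_inv {z : ℂ} (hz : 0 < z.im) : Dl (-1 / z) = z ^ 12 * Dl z := by
  have hz0 : z ≠ 0 := by
    intro h
    rw [h, Complex.zero_im] at hz
    exact lt_irrefl _ hz
  have hs : ∀ w : ℂ, w ≠ 0 → Complex.sqrt w ^ 24 = w ^ 12 := by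
    intro w hw
    rw [_root_.sqrt_eq_exp hw, ← Complex.exp_nat_mul]
    rw [show ((24 : ℕ) : ℂ) * (Complex.log w / 2) = ((12 : ℕ) : ℂ) * Complex.log w by
      push_cast; ring, Complex.exp_nat_mul, Complex.exp_log hw]
  have hI : Complex.sqrt I ^ 24 = 1 := by
    rw [hs I Complex.I_ne_zero, show 12 = 4 * 3 by norm_num, pow_mul, Complex.I_pow_four, one_pow]
  have h1 : ModularForm.eta (-1 / z) = (Complex.sqrt I)⁻¹ * (Complex.sqrt z * ModularForm.eta z) :=
    ModularForm.eta_comp_eq_csqrt_I_inv hz
  unfold Dl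
  rw [h1, mul_pow, mul_pow, inv_pow, hI, hs z hz0, inv_one, one_mul]

theorem ModOne_Dl (m : ℕ) : ModOne (12 * m) (fun z => Dl z ^ m) := by
  refine ⟨?_, fun z hz => ?_, fun z hz => ?_⟩
  · have ho : IsOpen {z : ℂ | 0 < z.im} := isOpen_lt continuous_const Complex.continuous_im
    refine DifferentiableOn.analyticOnNhd (fun z hz => ?_) ho
    have h1 : DifferentiableAt ℂ ModularForm.eta z :=
      ModularForm.differentiableAt_eta_of_mem_upperHalfPlaneSet hz
    exact ((h1.pow 24).pow m).differentiableWithinAt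
  · rw [Dl_add_one hz]
  · rw [Dl_inv hz, mul_pow, ← pow_mul]

end DG
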