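import Pool.Agent.helper32.DG.C0
import Pool.Agent.helper32.DG.E05

/-!
# E21a : uniform decay at the cusps

PROOF. `sec_unif`: choose `r > 0` such that `τ + s • z zᵀ ∈ HH n` for `‖s‖ ≤ r` (`mem_nhds`); adding `t • rk v` with
`0 ≤ im t` stays in `HH n` (the imaginary part grows by `im t · v vᵀ ≥ 0`).  For such `s` let
`G_s t = h (τ + s • z zᵀ + t • rk v) exp(-2π i m t)`, `‖exp(-2π i m t)‖ = exp(2π m im t)`.  `G_s` is holomorphic near the closed
upper half plane `0 ≤ im t` (analytic in `t`), has period `1` (`hh.modular (DF.gT ..)` for the symmetric integral matrix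
`v vᵀ`, `DF.act_gT`, and `m` integral) and is bounded on `0 ≤ im t` by `hh.cusp`.  By the maximum principle for
bounded holomorphic functions on a half plane (Phragmen-Lindelöf, e.g.
`PhragmenLindelof.right_half_plane_of_bounded_on_real` or similar, or through the variable `q = exp(2π i t)`)
`‖G_s t‖ ≤ sup_{x real} ‖G_s x‖ = sup_{0≤x≤1} ‖G_s x‖ ≤ C`, where `C` is the maximum of the continuous function
`(s, x) ↦ ‖G_s x‖` on the compact set `‖s‖ ≤ r`, `0 ≤ x ≤ 1`.
`Dz_decay`: Cauchy estimate for the `j`-th derivative at `s = 0` of `s ↦ h (τ + t • rk v + s • z zᵀ)` on the disc of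
radius `r`.
-/

set_option linter.unusedVariables false
set_option linter.unusedSectionVars false

namespace DG

open Matrix Complex Filter Topology Asymptotics

attribute [local instance] Matrix.normedAddCommGroup Matrix.normedSpace

theorem E21a_rk_symm {n : ℕ} (v : Fin n → ℤ) : (rk v).IsSymm := by
  ext i j
  simp only [Matrix.transpose_apply, rk, Matrix.of_apply]
  ring

theorem E21a_vmv_symm {n : ℕ} (z : Fin n → ℂ) : (vecMulVec z z).IsSymm := by
  ext i j
  simp only [Matrix.transpose_apply, vecMulVec_apply]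
  ring

theorem E21a_lower_add_rk {n : ℕ} {τ' : Mt n} {c : ℝ}
    (h : ∀ x : Fin n → ℝ, c * ∑ i, x i ^ 2 ≤ x ⬝ᵥ ((τ'.map Complex.im) *ᵥ x))
    (v : Fin n → ℤ) {t : ℂ} (ht : 0 ≤ t.im) (x : Fin n → ℝ) :
    c * ∑ i, x i ^ 2 ≤ x ⬝ᵥ (((τ' + t • rk v).map Complex.im) *ᵥ x) := by
  refine (h x).trans ?_
  have h1 : x ⬝ᵥ (((τ' + t • rk v).map Complex.im) *ᵥ x) =
      x ⬝ᵥ ((τ'.map Complex.im) *ᵥ x) + t.im * (∑ i, (v i : ℝ) * x i) ^ 2 := by
    have h2 : ∀ i j, ((τ' + t • rk v).map Complex.im) i j =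
        (τ' i j).im + t.im * ((v i : ℝ) * v j) := by
      intro i j
      simp only [Matrix.map_apply, Matrix.add_apply, Matrix.smul_apply, rk, Matrix.of_apply,
        smul_eq_mul, Complex.add_im]
      congr 1
      have : ((v i : ℂ) * (v j : ℂ)) = (((v i : ℝ) * (v j : ℝ) : ℝ) : ℂ) := by push_cast; rfl
      rw [this, Complex.im_mul_ofReal]
    simp only [dotProduct, mulVec]
    simp only [h2, Matrix.map_apply]
    rw [sq, Finset.sum_mul_sum, Finset.mul_sum, ← Finset.sum_add_distrib]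
    refine Finset.sum_congr rfl fun i _ => ?_
    rw [Finset.mul_sum, Finset.mul_sum, Finset.mul_sum, ← Finset.sum_add_distrib]
    refine Finset.sum_congr rfl fun j _ => ?_
    ring
  rw [h1]
  have : 0 ≤ t.im * (∑ i, (v i : ℝ) * x i) ^ 2 := mul_nonneg ht (sq_nonneg _)
  linarith

theorem E21a_sec_per {n w m : ℕ} {h : Mt n → ℂ} (hh : IsSec n w m h) {τ : Mt n} (hτ : τ ∈ HH n)
    (v : Fin n → ℤ) : h (τ + rk v) = h τ := by
  have hS : (Matrix.of fun i j => v i * v j : Matrix (Fin n) (Fin n) ℤ).IsSymm := by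
    ext i j
    simp only [Matrix.transpose_apply, Matrix.of_apply]
    ring
  obtain ⟨h1, h2, h3⟩ := DF.act_gT _ hS τ hτ
  have hg : DF.gT (Matrix.of fun i j => v i * v j : Matrix (Fin n) (Fin n) ℤ) ∈
      Matrix.symplecticGroup (Fin n) ℤ := by
    have h0 : DF.Gens (Fin n) ⊆ (Matrix.symplecticGroup (Fin n) ℤ : Set _) := DF.gens_sp
    exact h0 (Or.inl ⟨_, hS, rfl⟩)
  have h4 := hh.modular _ hg τ hτ
  rw [h1, one_pow, one_mul, h2] at h4
  rw [← h4]
  congr 1
  unfold DF.mT
  congr 1
  ext i j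
  simp [rk]

theorem sec_unif {n w m : ℕ} {h : Mt n → ℂ} (hh : IsSec n w m h) {τ : Mt n} (hτ : τ ∈ HH n)
    (v : Fin n → ℤ) (hv : v ≠ 0) (z : Fin n → ℂ) : ∃ r > 0, ∃ C : ℝ, ∀ s : ℂ, ‖s‖ ≤ r →
      ∀ t : ℂ, 0 ≤ t.im → τ + s • vecMulVec z z + t • rk v ∈ HH n ∧
      ‖h (τ + s • vecMulVec z z + t • rk v)‖ ≤ C * Real.exp (-2 * Real.pi * (m : ℝ) * t.im) := by
  obtain ⟨c, hc, δ, hδ, hlow⟩ := lower_nhds hτ
  set Z : Mt n := vecMulVec z z with hZ
  have hr : 0 < δ / (‖Z‖ + 1) := div_pos hδ (by positivity)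
  set r : ℝ := δ / (‖Z‖ + 1) with hrdef
  have hlow' : ∀ s : ℂ, ‖s‖ ≤ r → ∀ x : Fin n → ℝ,
      c * ∑ i, x i ^ 2 ≤ x ⬝ᵥ (((τ + s • Z).map Complex.im) *ᵥ x) := by
    intro s hs
    apply hlow
    rw [add_sub_cancel_left, norm_smul]
    calc ‖s‖ * ‖Z‖ ≤ r * (‖Z‖ + 1) := by
          apply mul_le_mul hs (by linarith) (norm_nonneg _) hr.le
      _ = δ := by rw [hrdef]; field_simp
  have hsym : ∀ s t : ℂ, (τ + s • Z + t • rk v).IsSymm := fun s t =>
    ((HH_symm hτ).add ((E21a_vmv_symm z).smul s)).add ((E21a_rk_symm v).smul t)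
  have hmem : ∀ s : ℂ, ‖s‖ ≤ r → ∀ t : ℂ, 0 ≤ t.im → τ + s • Z + t • rk v ∈ HH n := by
    intro s hs t ht
    exact HH_of_lower (hsym s t) hc (E21a_lower_add_rk (hlow' s hs) v ht)
  have hmem0 : ∀ s : ℂ, ‖s‖ ≤ r → τ + s • Z ∈ HH n := by
    intro s hs
    have := hmem s hs 0 (by simp)
    simpa using this
  -- bound on the compact set
  have hcomp : IsCompact ((Metric.closedBall (0 : ℂ) r) ×ˢ (Set.Icc (0 : ℝ) 1)) :=
    (isCompact_closedBall _ _).prod isCompact_Icc
  have hcont : ContinuousOn (fun p : ℂ × ℝ => h (τ + p.1 • Z + (p.2 : ℂ) • rk v))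
      ((Metric.closedBall (0 : ℂ) r) ×ˢ (Set.Icc (0 : ℝ) 1)) := by
    have h1 : ContinuousOn h (HH n) := fun p hp => hh.holo.continuousAt hp
    refine h1.comp (f := fun p : ℂ × ℝ => τ + p.1 • Z + (p.2 : ℂ) • rk v) ?_ ?_
    · apply Continuous.continuousOn
      refine (continuous_const.add (continuous_fst.smul continuous_const)).add ?_
      exact (Complex.continuous_ofReal.comp continuous_snd).smul continuous_const
    · intro p hp
      apply hmem
      · have := hp.1
        rwa [Metric.mem_closedBall, dist_zero_right] at this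
      · simp
  obtain ⟨C, hC⟩ := hcomp.exists_bound_of_continuousOn hcont
  refine ⟨r, hr, C, fun s hs t ht => ⟨hmem s hs t ht, ?_⟩⟩
  -- the function on the right half plane
  set G : ℂ → ℂ := fun u => h (τ + s • Z + (I * u) • rk v) *
    cexp (-2 * Real.pi * I * m * (I * u)) with hG
  have hnexp : ∀ u : ℂ, ‖cexp (-2 * Real.pi * I * m * (I * u))‖ =
      Real.exp (2 * Real.pi * (m : ℝ) * u.re) := by
    intro u
    rw [Complex.norm_exp]
    congr 1
    have : -2 * (Real.pi : ℂ) * I * m * (I * u) = ((2 * Real.pi * (m : ℝ) : ℝ) : ℂ) * u := by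
      have hI : I * I = -1 := Complex.I_mul_I
      push_cast
      linear_combination (-2 * (Real.pi : ℂ) * m * u) * hI
    rw [this, Complex.re_ofReal_mul]
  have hIm : ∀ u : ℂ, (I * u).im = u.re := by
    intro u
    simp
  obtain ⟨C', hC'⟩ := hh.cusp _ (hmem0 s hs) v hv
  have hGb : ∀ u : ℂ, 0 ≤ u.re → ‖G u‖ ≤ C' := by
    intro u hu
    rw [hG]
    simp only
    rw [norm_mul, hnexp]
    have h1 := hC' (I * u) (by rw [hIm]; exact hu)
    rw [hIm] at h1
    calc ‖h (τ + s • Z + (I * u) • rk v)‖ * Real.exp (2 * Real.pi * (m : ℝ) * u.re)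
        ≤ (C' * Real.exp (-2 * Real.pi * (m : ℝ) * u.re)) *
          Real.exp (2 * Real.pi * (m : ℝ) * u.re) :=
          mul_le_mul_of_nonneg_right h1 (Real.exp_pos _).le
      _ = C' := by
          rw [mul_assoc, ← Real.exp_add]
          have : -2 * Real.pi * (m : ℝ) * u.re + 2 * Real.pi * (m : ℝ) * u.re = 0 := by ring
          rw [this, Real.exp_zero, mul_one]
  have hper : ∀ x : ℝ, ‖h (τ + s • Z + (x : ℂ) • rk v)‖ ≤ C := by
    have hp : Function.Periodic (fun x : ℝ => h (τ + s • Z + (x : ℂ) • rk v)) 1 := by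
      intro x
      have h1 := E21a_sec_per hh (hmem s hs (x : ℂ) (by simp)) v
      simp only
      rw [← h1]
      congr 1
      push_cast
      rw [add_smul, one_smul, ← add_assoc]
    intro x
    obtain ⟨y, hy, hxy⟩ := hp.exists_mem_Ico₀ one_pos x
    have hxy' : h (τ + s • Z + (x : ℂ) • rk v) = h (τ + s • Z + (y : ℂ) • rk v) := hxy
    rw [hxy']
    refine hC (s, y) ⟨?_, ⟨hy.1, hy.2.le⟩⟩
    rw [Metric.mem_closedBall, dist_zero_right]
    exact hs
  have hdiff : DiffContOnCl ℂ G {u | 0 < u.re} := by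
    have hd : DifferentiableOn ℂ G {u | 0 ≤ u.re} := by
      intro u hu
      apply DifferentiableAt.differentiableWithinAt
      rw [hG]
      have h1 : DifferentiableAt ℂ (fun u : ℂ => h (symm (τ + s • Z + (I * u) • rk v))) u := by
        have h2 := hh.holo (τ + s • Z + (I * u) • rk v) (by
          rw [Set.mem_ofPred_eq, symm_eq (hsym _ _)]
          exact hmem s hs _ (by rw [hIm]; exact hu))
        have h3 : DifferentiableAt ℂ (fun u : ℂ => τ + s • Z + (I * u) • rk v) u := by
          fun_prop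
        exact DifferentiableAt.comp (g := fun M : Mt n => h (symm M))
          (f := fun u : ℂ => τ + s • Z + (I * u) • rk v) u h2.differentiableAt h3
      have h4 : (fun u : ℂ => h (symm (τ + s • Z + (I * u) • rk v))) =
          fun u : ℂ => h (τ + s • Z + (I * u) • rk v) := by
        funext u
        rw [symm_eq (hsym _ _)]
      rw [h4] at h1
      exact h1.mul (by fun_prop)
    refine DifferentiableOn.diffContOnCl ?_
    rw [Complex.closure_setOfPred_lt_re]
    exact hd
  have hmax := PhragmenLindelof.right_half_plane_of_bounded_on_real (C := C) (z := -I * t) hdiff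
    ⟨0, by norm_num, 0, by
      refine Asymptotics.IsBigO.of_bound C' ?_
      rw [eventually_inf_principal]
      refine Eventually.of_forall fun u hu => ?_
      have hu' : 0 < u.re := hu
      simpa using hGb u hu'.le⟩
    (by
      refine isBoundedUnder_of_eventually_le (a := C') ?_
      filter_upwards [eventually_ge_atTop 0] with x hx
      exact hGb x (by simpa using hx))
    (by
      intro x
      rw [hG]
      simp only
      rw [norm_mul, hnexp]
      have h1 : I * ((x : ℂ) * I) = ((-x : ℝ) : ℂ) := by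
        have hI : I * I = -1 := Complex.I_mul_I
        push_cast
        linear_combination (x : ℂ) * hI
      rw [h1]
      have h2 : ((x : ℂ) * I).re = 0 := by simp
      rw [h2, mul_zero, Real.exp_zero, mul_one]
      exact hper _)
    (by
      have : (-I * t).re = t.im := by simp
      rw [this]
      exact ht)
  have h5 : I * (-I * t) = t := by
    have hI : I * I = -1 := Complex.I_mul_I
    linear_combination (-t) * hI
  have h6 : (-I * t).re = t.im := by simp
  rw [hG] at hmax
  simp only at hmax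
  rw [norm_mul, hnexp, h5, h6] at hmax
  have hpos := Real.exp_pos (2 * Real.pi * (m : ℝ) * t.im)
  have h7 : Real.exp (-2 * Real.pi * (m : ℝ) * t.im) =
      (Real.exp (2 * Real.pi * (m : ℝ) * t.im))⁻¹ := by
    rw [← Real.exp_neg]
    congr 1
    ring
  rw [h7, ← div_eq_mul_inv, le_div_iff₀ hpos]
  exact hmax

end DG
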