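import Pool.Agent.helper32.DG.C0
import Pool.Agent.helper32.DG.E05
import Pool.Agent.helper32.DG.E21a

/-!
# E21 : uniform decay at the cusps

PROOF. `sec_unif`: choose `r > 0` such that `τ + s • z zᵀ ∈ HH n` for `‖s‖ ≤ r` (`mem_nhds`); adding `t • rk v` with
`0 ≤ im t` stays in `HH n` (the imaginary part grows by `im t · v vᵀ ≥ 0`).  For such `s` let
`G_s t = h (τ + s • z zᵀ + t • rk v) exp(-2π i m t)`, `‖exp(-2π i m t)‖ = exp(2π m im t)`.  `G_s` is holomorphic near the closed
upper half plane `0 ≤ im t` (analytic in `t`), has period `1` (`hh.modular (DF.gT ..)` for the symmetric integral matrix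
`v vᵀ`, `DF.act_gT`, and `m` integral) and is bounded on `0 ≤ im t` by `hh.cusp`.  By the maximum principle for
bounded holomorphic functions on a half plane (Phragmen-Lindelöf, e.g.
`PhragmenLindelof.right_half_plane_of_bounded_on_real` or similar, or through the variable `q = exp(2π i t)`)
`‖G_s t‖ ≤ sup_{x real} ‖G_s x‖ = sup_{0≤x≤1} ‖G_s x‖ ≤ C`, where `C` is the maximum of the continuous function
`(s, x) ↦ ‖G_s x‖` on the compact set `‖s‖ ≤ r`, `0 ≤ x ≤ 1`.
`Dz_decay`: Cauchy estimate for the `j`-th derivative at `s = 0` of `s ↦ h (τ + t • rk v + s • z zᵀ)` on the disc of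
radius `r`.
-/

set_option linter.unusedVariables false
set_option linter.unusedSectionVars false

namespace DG

open Matrix Complex Filter Topology Asymptotics

attribute [local instance] Matrix.normedAddCommGroup Matrix.normedSpace

theorem Dz_decay {n w m : ℕ} {h : Mt n → ℂ} (hh : IsSec n w m h) {τ : Mt n} (hτ : τ ∈ HH n)
    (v : Fin n → ℤ) (hv : v ≠ 0) (z : Fin n → ℂ) (j : ℕ) : ∃ C : ℝ, ∀ t : ℂ, 0 ≤ t.im →
      ‖Dz h j z (τ + t • rk v)‖ ≤ C * Real.exp (-2 * Real.pi * (m : ℝ) * t.im) := by
  obtain ⟨r, hr, C, hC⟩ := sec_unif hh hτ v hv z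
  refine ⟨(j.factorial : ℝ) * C / r ^ j, fun t ht => ?_⟩
  unfold Dz
  have hsym : ∀ s : ℂ, (τ + t • rk v + s • vecMulVec z z).IsSymm := fun s =>
    ((HH_symm hτ).add ((E21a_rk_symm v).smul t)).add ((E21a_vmv_symm z).smul s)
  have hcomm : ∀ s : ℂ, τ + t • rk v + s • vecMulVec z z = τ + s • vecMulVec z z + t • rk v :=
    fun s => by abel
  have hd : DifferentiableOn ℂ (fun s : ℂ => h (τ + t • rk v + s • vecMulVec z z))
      (Metric.closedBall 0 r) := by
    intro s hs
    rw [Metric.mem_closedBall, dist_zero_right] at hs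
    apply DifferentiableAt.differentiableWithinAt
    have h1 : DifferentiableAt ℂ
        (fun s : ℂ => h (symm (τ + t • rk v + s • vecMulVec z z))) s := by
      have h2 := hh.holo (τ + t • rk v + s • vecMulVec z z) (by
        rw [Set.mem_ofPred_eq, symm_eq (hsym _), hcomm]
        exact (hC s hs t ht).1)
      have h3 : DifferentiableAt ℂ (fun s : ℂ => τ + t • rk v + s • vecMulVec z z) s := by
        fun_prop
      exact DifferentiableAt.comp (g := fun M : Mt n => h (symm M))
        (f := fun s : ℂ => τ + t • rk v + s • vecMulVec z z) s h2.differentiableAt h3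
    have h4 : (fun s : ℂ => h (symm (τ + t • rk v + s • vecMulVec z z))) =
        fun s : ℂ => h (τ + t • rk v + s • vecMulVec z z) := by
      funext s
      rw [symm_eq (hsym _)]
    rwa [h4] at h1
  have hcau := Complex.norm_iteratedDeriv_le_of_forall_mem_sphere_norm_le (c := 0) (R := r)
    (C := C * Real.exp (-2 * Real.pi * (m : ℝ) * t.im))
    (f := fun s : ℂ => h (τ + t • rk v + s • vecMulVec z z)) j hr
    (DifferentiableOn.diffContOnCl_ball hd (subset_refl _))
    (by
      intro s hs
      rw [mem_sphere_iff_norm, sub_zero] at hs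
      rw [hcomm]
      exact (hC s hs.le t ht).2)
  refine hcau.trans (le_of_eq ?_)
  ring

end DG
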