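import Pool.Agent.helper32.DG.C0
import Pool.Agent.helper32.DG.E20
import Pool.Agent.helper32.DG.E21

/-!
# E22 : the canonical extension has the right order at the cusps

PROOF. Let `w` be as in the statement and `0 ≤ im t`.  `w 0 * w i.succ = 0` for all `i`, so
`τ + t • rk w + s • offd ζ` has entry `(0,0)` equal to `x_t = τ 0 0 + t (w 0)²`, `zz = s • ζ`, `lo = τ'_t = lo τ + t • rk w'`,
`w' i = w i.succ` (note `τ` is `Blk`).  `τ'_t ∈ HH n`, so by `Dz_smul`
`CJ (..) = ∑_{i<N} (Dl^m)^(i)(x_t) s^(2i) Dz h i ζ τ'_t / cst (12m) i` for all `s`; the `j`-th derivative in `s` at `0` is `0`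
if `j` is odd or `j = 2 i`, `i ≥ N`, and `(2i)! (Dl^m)^(i)(x_t) Dz h i ζ τ'_t / cst (12m) i` if `j = 2i`, `i < N`.
If `w' = 0`: `w 0 ≠ 0`, `τ'_t = lo τ`, `Dl_decay` with `t (w 0)²` and `exp(-2π m (w 0)² im t) ≤ exp(-2π m im t)`.
If `w 0 = 0`: `w' ≠ 0`, `x_t = τ 0 0`, `Dz_decay`.
-/

set_option linter.unusedVariables false
set_option linter.unusedSectionVars false

namespace DG

open Matrix Complex Filter Topology Asymptotics

attribute [local instance] Matrix.normedAddCommGroup Matrix.normedSpace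

private theorem E22_Dz_smul {n : ℕ} (h : Mt n → ℂ) (j : ℕ) (s : ℂ) (z : Fin n → ℂ)
    (τ' : Mt n) : Dz h j (s • z) τ' = s ^ (2 * j) * Dz h j z τ' := by
  unfold Dz
  have h1 : (fun x : ℂ => h (τ' + x • vecMulVec (s • z) (s • z))) =
      fun x : ℂ => (fun y : ℂ => h (τ' + y • vecMulVec z z)) (s ^ 2 * x) := by
    funext x
    have h2 : x • vecMulVec (s • z) (s • z) = (s ^ 2 * x) • vecMulVec z z := by
      ext i k
      simp only [Matrix.smul_apply, vecMulVec_apply, Pi.smul_apply, smul_eq_mul]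
      ring
    change h (τ' + x • vecMulVec (s • z) (s • z)) = h (τ' + (s ^ 2 * x) • vecMulVec z z)
    rw [h2]
  rw [h1, iter_scale (s ^ 2) j (fun y : ℂ => h (τ' + y • vecMulVec z z))]
  change (s ^ 2) ^ j * iteratedDeriv j (fun y : ℂ => h (τ' + y • vecMulVec z z)) (s ^ 2 * 0) = _
  rw [mul_zero, pow_mul]

theorem CJ_cusp {n m K : ℕ} {h : Mt n → ℂ} (hh : IsSec n (12 * m) m h) (j : ℕ)
    (ζ : Fin n → ℂ) (τ : Mt (n + 1)) (hτ : τ ∈ HH (n + 1)) (hB : Blk τ) (w : Fin (n + 1) → ℤ)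
    (hw : w ≠ 0) (hw' : w 0 = 0 ∨ ∀ i : Fin n, w i.succ = 0) : ∃ C : ℝ, ∀ t : ℂ, 0 ≤ t.im →
      ‖iteratedDeriv j (fun s : ℂ => CJ m h K (τ + t • rk w + s • offd ζ)) 0‖ ≤
        C * Real.exp (-2 * Real.pi * (m : ℝ) * t.im) := by
  set w' : Fin n → ℤ := fun i => w i.succ with hw'def
  have hprod : ∀ i : Fin n, (w 0 : ℂ) * (w i.succ : ℂ) = 0 := by
    intro i
    rcases hw' with h0 | h0
    · rw [h0]
      simp
    · rw [h0 i]
      simp
  have e00 : ∀ t s : ℂ, (τ + t • rk w + s • offd ζ) 0 0 =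
      τ 0 0 + t * ((w 0 : ℂ) * (w 0 : ℂ)) := by
    intro t s
    rw [Matrix.add_apply, Matrix.add_apply, Matrix.smul_apply, Matrix.smul_apply]
    have h1 : (offd ζ) 0 0 = 0 := rfl
    have h2 : (rk w) 0 0 = (w 0 : ℂ) * (w 0 : ℂ) := rfl
    rw [h1, h2, smul_zero, add_zero, smul_eq_mul]
  have ezz : ∀ t s : ℂ, zz (τ + t • rk w + s • offd ζ) = s • ζ := by
    intro t s
    funext i
    rw [zz_apply, Matrix.add_apply, Matrix.add_apply, Matrix.smul_apply, Matrix.smul_apply,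
      Pi.smul_apply]
    have h1 : (offd ζ) 0 i.succ = ζ i := rfl
    have h2 : (rk w) 0 i.succ = (w 0 : ℂ) * (w i.succ : ℂ) := rfl
    rw [h1, h2, hprod, hB i, smul_zero, zero_add, zero_add]
  have elo : ∀ t s : ℂ, lo (τ + t • rk w + s • offd ζ) = lo τ + t • rk w' := by
    intro t s
    ext i k
    rw [lo_apply, Matrix.add_apply, Matrix.add_apply, Matrix.smul_apply, Matrix.smul_apply,
      Matrix.add_apply, Matrix.smul_apply]
    have h1 : (offd ζ) i.succ k.succ = 0 := rfl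
    have h2 : (rk w) i.succ k.succ = (rk w') i k := rfl
    rw [h1, h2, smul_zero, add_zero, lo_apply]
  -- the coefficients
  set c : ℕ → ℂ → ℂ := fun i t =>
    iteratedDeriv i (fun x => Dl x ^ m) (τ 0 0 + t * ((w 0 : ℂ) * (w 0 : ℂ))) *
      Dz h i ζ (lo τ + t • rk w') / cst (12 * m) i with hc
  have hCJ : ∀ t s : ℂ, CJ m h K (τ + t • rk w + s • offd ζ) =
      ∑ i ∈ Finset.range ((K + 1) / 2), c i t * s ^ (2 * i) := by
    intro t s
    unfold CJ PJ
    refine Finset.sum_congr rfl fun i _ => ?_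
    rw [e00, ezz, elo, E22_Dz_smul, hc]
    ring
  have key : ∀ i : ℕ, ∃ C : ℝ, ∀ t : ℂ, 0 ≤ t.im →
      ‖c i t‖ ≤ C * Real.exp (-2 * Real.pi * (m : ℝ) * t.im) := by
    intro i
    by_cases hz : w' = 0
    · have hw0 : w 0 ≠ 0 := by
        intro h0
        apply hw
        funext k
        refine Fin.cases h0 (fun k' => ?_) k
        exact congrFun hz k'
      obtain ⟨C, hC⟩ := Dl_decay m i (τ 0 0) (im_pos_00 hτ)
      refine ⟨C * ‖Dz h i ζ (lo τ)‖ / ‖cst (12 * m) i‖, fun t ht => ?_⟩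
      have hr : rk w' = 0 := by
        ext a b
        have h1 : (rk w') a b = (w' a : ℂ) * (w' b : ℂ) := rfl
        rw [h1, hz]
        simp
      have him : (t * ((w 0 : ℂ) * (w 0 : ℂ))).im = t.im * ((w 0 : ℝ) * (w 0 : ℝ)) := by
        have e : ((w 0 : ℂ) * (w 0 : ℂ)) = (((w 0 : ℝ) * (w 0 : ℝ) : ℝ) : ℂ) := by
          push_cast
          ring
        rw [e, Complex.im_mul_ofReal]
      have hsq : (1 : ℝ) ≤ (w 0 : ℝ) * (w 0 : ℝ) := by
        have h3 : 1 ≤ w 0 * w 0 := by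
          have := mul_self_pos.2 hw0
          omega
        exact_mod_cast h3
      have h1 := hC (t * ((w 0 : ℂ) * (w 0 : ℂ))) (by rw [him]; positivity)
      have hC0 : 0 ≤ C := by
        have h2 := (norm_nonneg _).trans h1
        exact nonneg_of_mul_nonneg_left h2 (Real.exp_pos _)
      have h4 : Real.exp (-2 * Real.pi * (m : ℝ) * (t * ((w 0 : ℂ) * (w 0 : ℂ))).im) ≤
          Real.exp (-2 * Real.pi * (m : ℝ) * t.im) := by
        apply Real.exp_le_exp.2
        rw [him]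
        have h5 : t.im ≤ t.im * ((w 0 : ℝ) * (w 0 : ℝ)) := le_mul_of_one_le_right ht hsq
        have h6 : 0 ≤ 2 * Real.pi * (m : ℝ) := by positivity
        nlinarith
      have h7 : ‖iteratedDeriv i (fun x => Dl x ^ m) (τ 0 0 + t * ((w 0 : ℂ) * (w 0 : ℂ)))‖ ≤
          C * Real.exp (-2 * Real.pi * (m : ℝ) * t.im) :=
        h1.trans (mul_le_mul_of_nonneg_left h4 hC0)
      rw [hc]
      dsimp only
      rw [hr, smul_zero, add_zero, norm_div, norm_mul]
      calc ‖iteratedDeriv i (fun x => Dl x ^ m) (τ 0 0 + t * ((w 0 : ℂ) * (w 0 : ℂ)))‖ *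
            ‖Dz h i ζ (lo τ)‖ / ‖cst (12 * m) i‖
          ≤ C * Real.exp (-2 * Real.pi * (m : ℝ) * t.im) *
            ‖Dz h i ζ (lo τ)‖ / ‖cst (12 * m) i‖ := by gcongr
        _ = _ := by ring
    · have hw0 : w 0 = 0 := by
        rcases hw' with h0 | h0
        · exact h0
        · exact absurd (funext h0) hz
      obtain ⟨C, hC⟩ := Dz_decay hh (HH_lo hτ) w' hz ζ i
      refine ⟨‖iteratedDeriv i (fun x => Dl x ^ m) (τ 0 0)‖ * C / ‖cst (12 * m) i‖,
        fun t ht => ?_⟩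
      rw [hc]
      dsimp only
      rw [hw0, Int.cast_zero, mul_zero, mul_zero, add_zero, norm_div, norm_mul]
      calc ‖iteratedDeriv i (fun x => Dl x ^ m) (τ 0 0)‖ *
            ‖Dz h i ζ (lo τ + t • rk w')‖ / ‖cst (12 * m) i‖
          ≤ ‖iteratedDeriv i (fun x => Dl x ^ m) (τ 0 0)‖ *
            (C * Real.exp (-2 * Real.pi * (m : ℝ) * t.im)) / ‖cst (12 * m) i‖ := by
            have := hC t ht
            gcongr
        _ = _ := by ring
  choose Ci hCi using key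
  refine ⟨∑ i ∈ Finset.range ((K + 1) / 2),
    Ci i * ‖iteratedDeriv j (fun s : ℂ => s ^ (2 * i)) 0‖, fun t ht => ?_⟩
  have hf : (fun s : ℂ => CJ m h K (τ + t • rk w + s • offd ζ)) =
      fun s : ℂ => ∑ i ∈ Finset.range ((K + 1) / 2), c i t * s ^ (2 * i) := by
    funext s
    exact hCJ t s
  rw [hf, iteratedDeriv_fun_sum (fun i _ => by fun_prop), Finset.sum_mul]
  refine (norm_sum_le _ _).trans (Finset.sum_le_sum fun i _ => ?_)
  rw [iteratedDeriv_const_mul_field, norm_mul]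
  calc ‖c i t‖ * ‖iteratedDeriv j (fun s : ℂ => s ^ (2 * i)) 0‖
      ≤ Ci i * Real.exp (-2 * Real.pi * (m : ℝ) * t.im) *
        ‖iteratedDeriv j (fun s : ℂ => s ^ (2 * i)) 0‖ :=
        mul_le_mul_of_nonneg_right (hCi i t ht) (norm_nonneg _)
    _ = _ := by ring

end DG
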