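import Pool.Agent.helper32.DG.C0

/-!
# E23 : sums of exponentials of linear forms are analytic

PROOF. Translate to `x0 = 0` (replace `c i` by `c i * cexp (L i x0)`).  For `‖y‖ < r`:
`cexp (L i y) = ∑_k (L i y)^k / k!` and `∑_i ∑_k ‖c i‖ ‖L i y‖^k / k! ≤ ∑_i ‖c i‖ exp(‖L i‖ r) < ∞`, so the sum may be
exchanged: `∑_i c i cexp (L i y) = ∑_k p_k(y,..,y)`, `p_k = ∑_i (c i / k!) (L i)^{⊗k}`, a continuous multilinear map with
`‖p_k‖ ≤ ∑_i ‖c i‖ ‖L i‖^k / k!` (absolutely summable, `(‖L i‖ r)^k / k! ≤ exp(r ‖L i‖)`), and `∑_k ‖p_k‖ ρ^k < ∞` for `ρ ≤ r`, so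
`HasFPowerSeriesOnBall .. p 0 r`.  `(L i)^{⊗k}` is
`(ContinuousMultilinearMap.mkPiAlgebraFin ℂ k ℂ).compContinuousLinearMap fun _ => L i`.
-/

set_option linter.unusedVariables false
set_option linter.unusedSectionVars false

namespace DG

open Matrix Complex Filter Topology Asymptotics

attribute [local instance] Matrix.normedAddCommGroup Matrix.normedSpace

theorem analyticAt_expsum {E : Type*} [NormedAddCommGroup E] [NormedSpace ℂ E] [CompleteSpace E]
    {ι : Type*} (L : ι → E →L[ℂ] ℂ) (c : ι → ℂ) (x0 : E) (r : ℝ) (hr : 0 < r)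
    (hs : Summable fun i => ‖c i * cexp (L i x0)‖ * Real.exp (r * ‖L i‖)) :
    AnalyticAt ℂ (fun x => ∑' i, c i * cexp (L i x)) x0 := by
  sorry

end DG
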