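import Pool.Agent.helper32.DG.C0

/-!
# E28a : the cone and the function `DD`

PROOF. `IsRep.add`: merge two representations (union of the finsets, sum of the coefficients, extended by `0`).
`IsRep.single`: one vector.  `IsRep.symm`, `IsRep.psd`: clear.  `IsRep.le_trace`: `c = ∑ l_v ≤ ∑ l_v |v|² = tr Y` as
`|v|² ≥ 1`.  `DD_block`: Let `Y` be block diagonal.  If `IsRep Y c`, split `s` into the `v` with `v' = 0` (`v' i = v i.succ`)
and the others: `Y' = ∑_{v' ≠ 0} l_v v' v'ᵀ`, so `∑_{v' ≠ 0} l_v ≤ DD Y'` (`IsRep Y' ..`, after merging equal `v'`), and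
`∑_{v' = 0} l_v ≤ ∑ l_v (v 0)² = Y 0 0`.  Conversely `IsRep Y' c'` gives `IsRep Y (Y 0 0 + c')` (vectors `(0, v')` and
`e_0` with the coefficient `Y 0 0 ≥ 0`).  (Sets are nonempty and bounded above by the trace: `csSup_le`, `le_csSup`.)
`pt_mem`: `im (pt τ Y l) = im τ + l Y`, `Y` symmetric positive semidefinite.
`DD_zero`: for `g = 0`, `Y = 0`, the only representation is empty.
-/

set_option linter.unusedVariables false
set_option linter.unusedSectionVars false

namespace DG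

open Matrix Complex Filter Topology Asymptotics

attribute [local instance] Matrix.normedAddCommGroup Matrix.normedSpace

theorem IsRep.add {g : ℕ} {Y Y' : Matrix (Fin g) (Fin g) ℝ} {c c' : ℝ} (h : IsRep Y c)
    (h' : IsRep Y' c') : IsRep (Y + Y') (c + c') := by
  obtain ⟨s, l, hl, hY, hc⟩ := h
  obtain ⟨s', l', hl', hY', hc'⟩ := h'
  refine ⟨s ∪ s', fun v => (if v ∈ s then l v else 0) + (if v ∈ s' then l' v else 0),
    fun v hv => ?_, ?_, ?_⟩
  · rcases Finset.mem_union.1 hv with h1 | h1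
    · refine ⟨(hl v h1).1, ?_⟩
      dsimp only
      rw [if_pos h1]
      by_cases h2 : v ∈ s'
      · rw [if_pos h2]
        exact add_nonneg (hl v h1).2 (hl' v h2).2
      · rw [if_neg h2, add_zero]
        exact (hl v h1).2
    · refine ⟨(hl' v h1).1, ?_⟩
      dsimp only
      rw [if_pos h1]
      by_cases h2 : v ∈ s
      · rw [if_pos h2]
        exact add_nonneg (hl v h2).2 (hl' v h1).2
      · rw [if_neg h2, zero_add]
        exact (hl' v h1).2
  · simp only [add_smul, ite_smul, zero_smul]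
    rw [Finset.sum_add_distrib, Finset.sum_ite_mem, Finset.sum_ite_mem,
      Finset.union_inter_cancel_left, Finset.union_inter_cancel_right, ← hY, ← hY']
  · rw [Finset.sum_add_distrib, Finset.sum_ite_mem, Finset.sum_ite_mem,
      Finset.union_inter_cancel_left, Finset.union_inter_cancel_right, ← hc, ← hc']

theorem IsRep.single {g : ℕ} (v : Fin g → ℤ) (hv : v ≠ 0) {l : ℝ} (hl : 0 ≤ l) :
    IsRep (l • Matrix.of fun i j => (v i : ℝ) * v j) l := by
  refine ⟨{v}, fun _ => l, fun w hw => ?_, ?_, ?_⟩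
  · rw [Finset.mem_singleton] at hw
    subst hw
    exact ⟨hv, hl⟩
  · rw [Finset.sum_singleton]
  · rw [Finset.sum_singleton]

theorem IsRep.zero {g : ℕ} : IsRep (0 : Matrix (Fin g) (Fin g) ℝ) 0 :=
  ⟨∅, fun _ => 0, fun v hv => absurd hv (Finset.notMem_empty v), by rw [Finset.sum_empty],
    by rw [Finset.sum_empty]⟩

theorem IsRep.symm {g : ℕ} {Y : Matrix (Fin g) (Fin g) ℝ} {c : ℝ} (h : IsRep Y c) : Y.IsSymm := by
  obtain ⟨s, l, hl, hY, hc⟩ := h
  subst hY
  ext i j
  rw [Matrix.transpose_apply, Matrix.sum_apply, Matrix.sum_apply]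
  refine Finset.sum_congr rfl fun v _ => ?_
  rw [Matrix.smul_apply, Matrix.smul_apply, Matrix.of_apply, Matrix.of_apply, mul_comm (v j : ℝ)]

theorem IsRep.nonneg {g : ℕ} {Y : Matrix (Fin g) (Fin g) ℝ} {c : ℝ} (h : IsRep Y c) : 0 ≤ c := by
  obtain ⟨s, l, hl, hY, hc⟩ := h
  rw [hc]
  exact Finset.sum_nonneg fun v hv => (hl v hv).2

theorem IsRep.psd {g : ℕ} {Y : Matrix (Fin g) (Fin g) ℝ} {c : ℝ} (h : IsRep Y c)
    (x : Fin g → ℝ) : 0 ≤ x ⬝ᵥ (Y *ᵥ x) := by
  obtain ⟨s, l, hl, hY, hc⟩ := h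
  subst hY
  rw [Matrix.sum_mulVec, dotProduct_sum]
  refine Finset.sum_nonneg fun v hv => ?_
  rw [Matrix.smul_mulVec, dotProduct_smul, smul_eq_mul]
  refine mul_nonneg (hl v hv).2 ?_
  have e : (Matrix.of fun i j => (v i : ℝ) * v j) = vecMulVec (fun i => (v i : ℝ))
      (fun i => (v i : ℝ)) := rfl
  have e2 : x ⬝ᵥ ((Matrix.of fun i j => (v i : ℝ) * v j) *ᵥ x) =
      (∑ i, (v i : ℝ) * x i) ^ 2 := by
    simp only [dotProduct, mulVec, Matrix.of_apply]
    rw [sq, Finset.sum_mul_sum]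
    refine Finset.sum_congr rfl fun i _ => ?_
    rw [Finset.mul_sum]
    refine Finset.sum_congr rfl fun j _ => ?_
    ring
  rw [e2]
  exact sq_nonneg _

theorem IsRep.le_trace {g : ℕ} {Y : Matrix (Fin g) (Fin g) ℝ} {c : ℝ} (h : IsRep Y c) :
    c ≤ Y.trace := by
  obtain ⟨s, l, hl, hY, hc⟩ := h
  subst hY
  rw [hc, Matrix.trace_sum]
  refine Finset.sum_le_sum fun v hv => ?_
  rw [Matrix.trace_smul, smul_eq_mul]
  have h1 : 1 ≤ (Matrix.of fun i j => (v i : ℝ) * v j).trace := by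
    obtain ⟨i, hi⟩ := Function.ne_iff.1 (hl v hv).1
    have hi' : v i ≠ 0 := hi
    have h2 : (1 : ℝ) ≤ (v i : ℝ) * v i := by
      have h3 : 1 ≤ v i * v i := by
        have := mul_self_pos.2 hi'
        omega
      exact_mod_cast h3
    have h4 : (v i : ℝ) * v i ≤ ∑ j, (v j : ℝ) * v j :=
      Finset.single_le_sum (f := fun j => (v j : ℝ) * v j) (fun j _ => mul_self_nonneg _)
        (Finset.mem_univ i)
    exact h2.trans h4
  nlinarith [(hl v hv).2]

end DG
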