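import Pool.Agent.helper32.DG.C0
import Pool.Agent.helper32.DG.E28a

/-!
# E28 : the cone and the function `DD`

PROOF. `IsRep.add`: merge two representations (union of the finsets, sum of the coefficients, extended by `0`).
`IsRep.single`: one vector.  `IsRep.symm`, `IsRep.psd`: clear.  `IsRep.le_trace`: `c = ∑ l_v ≤ ∑ l_v |v|² = tr Y` as
`|v|² ≥ 1`.  `DD_block`: Let `Y` be block diagonal.  If `IsRep Y c`, split `s` into the `v` with `v' = 0` (`v' i = v i.succ`)
and the others: `Y' = ∑_{v' ≠ 0} l_v v' v'ᵀ`, so `∑_{v' ≠ 0} l_v ≤ DD Y'` (`IsRep Y' ..`, after merging equal `v'`), and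
`∑_{v' = 0} l_v ≤ ∑ l_v (v 0)² = Y 0 0`.  Conversely `IsRep Y' c'` gives `IsRep Y (Y 0 0 + c')` (vectors `(0, v')` and
`e_0` with the coefficient `Y 0 0 ≥ 0`).  (Sets are nonempty and bounded above by the trace: `csSup_le`, `le_csSup`.)
`pt_mem`: `im (pt τ Y l) = im τ + l Y`, `Y` symmetric positive semidefinite.
`DD_zero`: for `g = 0`, `Y = 0`, the only representation is empty.
-/

set_option linter.unusedVariables false
set_option linter.unusedSectionVars false

namespace DG

open Matrix Complex Filter Topology Asymptotics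

attribute [local instance] Matrix.normedAddCommGroup Matrix.normedSpace

theorem DD_block {n : ℕ} {Y : Matrix (Fin (n + 1)) (Fin (n + 1)) ℝ} (hY : InCone Y)
    (h0 : ∀ i : Fin n, Y 0 i.succ = 0) : InCone (Y.submatrix Fin.succ Fin.succ) ∧ 0 ≤ Y 0 0 ∧
      DD Y = Y 0 0 + DD (Y.submatrix Fin.succ Fin.succ) := by
  sorry

theorem pt_mem {g : ℕ} {τ : Mt g} (hτ : τ ∈ HH g) {Y : Matrix (Fin g) (Fin g) ℝ}
    (hY : InCone Y) {l : ℝ} (hl : 0 ≤ l) : pt τ Y l ∈ HH g := by
  sorry

theorem DD_zero {Y : Matrix (Fin 0) (Fin 0) ℝ} : DD Y = 0 := by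
  sorry

end DG
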