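import Pool.Agent.helper32.DG.C0
import Pool.Agent.helper32.DG.E23
import Pool.Agent.helper32.DG.E28
import Pool.Agent.helper32.DG.E24a
import Pool.Agent.helper32.DG.E24b

/-!
# E24 : theta constants: holomorphy, boundedness and limits

PROOF. `Hol_thc`: near `M0` with `symm M0 ∈ HH g`: `thc a b (symm M) = ∑_n c_n cexp (L_n M)` with
`L_n M = π i qf (symm M) (n + a)` (linear in `M`, norm `≤ C ∑ |n_i + a_i|²`-like, compare `DF.A3L`, `DF.A3L_norm`), `c_n` of
norm `1`; the hypothesis of `analyticAt_expsum` for small `r`: the terms are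
`≤ exp(-π c ∑ (n_i+a_i)² + r C ∑ (n_i + a_i)²)` (`DF.A3_bound`, `DF.gauss_summable`).
`thc_bdd`: the norm of the `n`-th term of `thc a b (τ + t • rk v)` is `exp(-π (n+a)·(Y + im t v vᵀ)(n+a)) ≤` the one at
`t = 0` for `0 ≤ im t` (`DF.A3_term_norm`, compare `DF.thc_cusp`).
`thc_lim`: `Y` is positive semidefinite (`InCone`); the `n`-th term of `thc a b (pt τ Y l)` is the term at `l = 0` times
`exp(-π l (n+a)·Y(n+a))`, which is dominated and tends to the term if `(n+a)·Y(n+a) = 0`, and to `0` otherwise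
(`tendsto_tsum_of_dominated_convergence`).
`thc_lim_ne`: let `N` be even, `x = (0, b)`, `b ∈ (ZMod N)^g`: by the above, `thN N x (pt τ Y l)` tends to
`φ_b = ∑_{n ∈ ℤ^g, n·Yn = 0} exp(π i n·τn) exp(2π i n·b/N)`, and the mean of `φ_b` over `b ∈ (ZMod N)^g` is
`∑_{n ∈ N ℤ^g, n·Yn = 0} exp(π i n·τn)` (orthogonality of characters), which tends to `1` for `N → ∞`: the term `n = 0`
is `1`, the other ones have `∑ n_i² ≥ N²`, tail of a convergent series.  So for some even `N` the mean is not `0`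
and some `φ_b ≠ 0`.
-/

set_option linter.unusedVariables false
set_option linter.unusedSectionVars false

namespace DG

open Matrix Complex Filter Topology Asymptotics

attribute [local instance] Matrix.normedAddCommGroup Matrix.normedSpace

theorem thc_lim_ne {g : ℕ} {τ : Mt g} (hτ : τ ∈ HH g) {Y : Matrix (Fin g) (Fin g) ℝ}
    (hY : InCone Y) : ∃ N : ℕ, 0 < N ∧ Even N ∧ ∃ x : DF.Ch N (Fin g), ∃ c : ℂ, c ≠ 0 ∧
      Tendsto (fun l : ℝ => DF.thN N x (pt τ Y l)) atTop (𝓝 c) := by
  sorry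

end DG
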