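import Pool.Agent.helper32.DG.C0
import Pool.Agent.helper32.DG.E02
import Pool.Agent.helper32.DG.E24

/-!
# E25 : a modular form which is not zero at a given point of `X_g`

PROOF. Take `N` and `x` from `thc_lim_ne`.  For `j ≥ 1` let `u τ = ∑_{y ∈ Ch N (Fin g)} pwN N y τ ^ j`,
`e = 24 N² j` (even, `≥ 1`).  Holomorphic (`Hol_thc`, `Hol.pow`, `Hol.sum`).  `DF.pwN_T`, `DF.pwN_U`, `DF.pwN_J` and the
bijections `DF.cT`, `DF.cU`, `DF.cJ` of the finite set `Ch N (Fin g)` (`DF.cT_inj`, `DF.cU_inj`, `DF.cJ_inj`) give the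
hypotheses of `DF.coc_all` with `k = e`.  `cusp` with `k = 0`: `thc_bdd`.  `NonzeroAt 0`: each `pwN N y (pt τ Y l)` has a
limit `c_y` (`thc_lim`), `c_x ≠ 0`; by `DF.power_sum` there is `j ≥ 1` with `∑ c_y ^ j ≠ 0`.
-/

set_option linter.unusedVariables false
set_option linter.unusedSectionVars false

namespace DG

open Matrix Complex Filter Topology Asymptotics

attribute [local instance] Matrix.normedAddCommGroup Matrix.normedSpace

theorem exists_u {g : ℕ} {τ : Mt g} (hτ : τ ∈ HH g) {Y : Matrix (Fin g) (Fin g) ℝ}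
    (hY : InCone Y) : ∃ e : ℕ, 1 ≤ e ∧ ∃ u : Mt g → ℂ, IsSec g e 0 u ∧ NonzeroAt 0 u τ Y := by
  sorry

end DG
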