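import Pool.Agent.helper32.DG.C0
import Pool.Agent.helper32.DG.E02
import Pool.Agent.helper32.DG.E20

/-!
# E26 : forms of slope less than 12 vanish on `H_1 × H_n`

PROOF. Fix `τ' = lo τ` and put `φ x = f (blk x 0 τ')`, `im x > 0` (`HH_blk`).  `φ` is holomorphic on the upper half
plane.  `φ (x+1) = φ x` (`hf.modular (DF.gT S)`, `S = single 0 0 1`, `DF.act_gT`), `φ (-1/x) = x^w φ x` (`DF.gJ 0`, `DF.act_gJ`:
`mJ 0 (blk x 0 τ') = blk (-1/x) 0 τ'`, determinant `x`).  `‖φ x‖ ≤ C exp(-2π k im x)` for `im x ≥ 1`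
(`hf.cusp (blk i 0 τ') (v = e_0)`, `rk v = single 0 0 1`).  `Dl` has no zero in the upper half plane and
`‖Dl x‖ ≥ c exp(-2π im x)` for `im x ≥ 1` (or use `CuspForm`/`exp_isBigO_discriminant`), so `φ / Dl^k` is a modular form of
level one and weight `w - 12 k < 0`, bounded at `i∞`, so it is `0` (`ModularFormClass.levelOne_neg_weight_eq_zero` or
similar; `slash_action_generators_SL2Z` gives the invariance from the two generators).
-/

set_option linter.unusedVariables false
set_option linter.unusedSectionVars false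

namespace DG

open Matrix Complex Filter Topology Asymptotics

attribute [local instance] Matrix.normedAddCommGroup Matrix.normedSpace

section E26

open scoped MatrixGroups ModularForm Manifold
open ModularGroup
open UpperHalfPlane hiding I

variable {n w k : ℕ} {f : Mt (n + 1) → ℂ}

theorem E26_T (hf : IsSec (n + 1) w k f) {τ' : Mt n} (hτ' : τ' ∈ HH n) {z : ℂ} (hz : 0 < z.im) :
    f (blk (1 + z) 0 τ') = f (blk z 0 τ') := by
  have hτ := HH_blk hz hτ'
  have hS : (Matrix.single (0 : Fin (n + 1)) 0 (1 : ℤ)).IsSymm := by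
    rw [Matrix.IsSymm, Matrix.transpose_single]
  obtain ⟨h1, h2, h3⟩ := DF.act_gT (Matrix.single (0 : Fin (n + 1)) 0 (1 : ℤ)) hS _ hτ
  have hmem : DF.gT (Matrix.single (0 : Fin (n + 1)) 0 (1 : ℤ)) ∈
      Matrix.symplecticGroup (Fin (n + 1)) ℤ := DF.gens_sp _ (Or.inl ⟨_, hS, rfl⟩)
  have h4 := hf.modular _ hmem _ hτ
  rw [h1, h2, one_pow, one_mul] at h4
  have h5 : DF.mT (Matrix.single (0 : Fin (n + 1)) 0 (1 : ℤ)) (blk z 0 τ') = blk (1 + z) 0 τ' := by
    unfold DF.mT
    apply mt_ext
    · simp [add_comm]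
    · intro i
      simp [(Fin.succ_ne_zero i).symm]
    · intro i
      simp [(Fin.succ_ne_zero i).symm]
    · intro i j
      simp [(Fin.succ_ne_zero i).symm]
  rw [h5] at h4
  exact h4

theorem E26_S (hf : IsSec (n + 1) w k f) {τ' : Mt n} (hτ' : τ' ∈ HH n) {z : ℂ} (hz : 0 < z.im) :
    f (blk (-1 / z) 0 τ') = z ^ w * f (blk z 0 τ') := by
  have hτ := HH_blk hz hτ'
  obtain ⟨h1, h2, h3⟩ := DF.act_gJ (0 : Fin (n + 1)) _ hτ
  have hmem : DF.gJ (0 : Fin (n + 1)) ∈
      Matrix.symplecticGroup (Fin (n + 1)) ℤ := DF.gens_sp _ (Or.inr (Or.inr ⟨_, rfl⟩))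
  have h4 := hf.modular _ hmem _ hτ
  rw [h1, h2] at h4
  have h5 : DF.mJ (0 : Fin (n + 1)) (blk z 0 τ') = blk (-1 / z) 0 τ' := by
    unfold DF.mJ
    apply mt_ext
    · simp
    · intro i
      simp
    · intro i
      simp
    · intro i j
      simp
  rw [h5] at h4
  exact h4

theorem E26_diff (hf : IsSec (n + 1) w k f) {τ' : Mt n} (hτ' : τ' ∈ HH n) :
    DifferentiableOn ℂ (fun z : ℂ => f (blk z 0 τ')) {z | 0 < z.im} := by
  intro z hz
  have hτ := HH_blk hz hτ'
  have h1 : DifferentiableAt ℂ (fun M : Mt (n + 1) => f (symm M)) (blk z 0 τ') :=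
    (hf.holo (blk z 0 τ') (by rw [Set.mem_ofPred_eq, symm_HH hτ]; exact hτ)).differentiableAt
  have h2 : DifferentiableAt ℂ (fun x : ℂ => blk x 0 τ') z := by
    have e : (fun x : ℂ => blk x 0 τ') = fun x : ℂ =>
        blk 0 0 τ' + x • Matrix.single (0 : Fin (n + 1)) 0 (1 : ℂ) := by
      funext x
      apply mt_ext
      · simp
      · intro i
        simp [Matrix.single_apply, (Fin.succ_ne_zero i).symm]
      · intro i
        simp [Matrix.single_apply, (Fin.succ_ne_zero i).symm]
      · intro i j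
        simp [Matrix.single_apply, (Fin.succ_ne_zero i).symm]
    rw [e]
    fun_prop
  have h3 : DifferentiableAt ℂ (fun x : ℂ => f (symm (blk x 0 τ'))) z :=
    DifferentiableAt.comp (𝕜 := ℂ) z (g := fun M : Mt (n + 1) => f (symm M)) h1 h2
  have hopen : {z : ℂ | 0 < z.im} ∈ 𝓝 z := (isOpen_lt continuous_const Complex.continuous_im).mem_nhds hz
  refine (h3.congr_of_eventuallyEq ?_).differentiableWithinAt
  filter_upwards [hopen] with x hx
  rw [symm_HH (HH_blk hx hτ')]

theorem E26_decay (hf : IsSec (n + 1) w k f) {τ' : Mt n} (hτ' : τ' ∈ HH n) :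
    ∃ C : ℝ, ∀ z : ℂ, 1 ≤ z.im →
      ‖f (blk z 0 τ')‖ ≤ C * Real.exp (-2 * Real.pi * z.im) ^ k := by
  have hI : 0 < (I : ℂ).im := by simp
  have hτ := HH_blk hI hτ'
  obtain ⟨C, hC⟩ := hf.cusp _ hτ (Pi.single 0 1) (by
    intro h
    have := congrFun h 0
    simp at this)
  refine ⟨C * Real.exp (2 * Real.pi * k), fun z hz => ?_⟩
  have h1 := hC (z - I) (by simpa using hz)
  have e1 : blk I 0 τ' + (z - I) • rk (Pi.single (0 : Fin (n + 1)) (1 : ℤ)) = blk z 0 τ' := by
    apply mt_ext
    · simp [rk]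
    · intro i
      simp [rk]
    · intro i
      simp [rk]
    · intro i j
      simp [rk]
  rw [e1] at h1
  refine h1.trans (le_of_eq ?_)
  rw [← Real.exp_nat_mul, mul_assoc C, ← Real.exp_add]
  congr 2
  simp only [Complex.sub_im, Complex.I_im]
  ring

theorem slope_vanish {n w k : ℕ} {f : Mt (n + 1) → ℂ} (hf : IsSec (n + 1) w k f)
    (hw : w < 12 * k) : ∀ τ ∈ HH (n + 1), Blk τ → f τ = 0 := by
  intro τ hτ hB
  have hτ' := HH_lo hτ
  rw [blk_of_Blk hτ hB]
  set τ' := lo τ with hlo
  have hz0 : 0 < (τ 0 0).im := im_pos_00 hτ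
  generalize τ 0 0 = z0 at hz0
  set κ : ℤ := (w : ℤ) - 12 * k with hκ
  have hκneg : κ < 0 := by omega
  set F : ℍ → ℂ := fun z => f (blk (z : ℂ) 0 τ') / ModularForm.discriminant z ^ k with hF
  have hΔ0 : ∀ z : ℍ, ModularForm.discriminant z ^ k ≠ 0 := fun z =>
    pow_ne_zero _ (ModularForm.discriminant_ne_zero z)
  have hT : F ∣[κ] T = F := by
    ext z
    have h1 := congrFun ModularForm.discriminant_T_invariant z
    rw [ModularForm.SL_slash_apply] at h1 ⊢
    have hd : denom T z = 1 := by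
      rw [ModularGroup.denom_apply]
      simp [ModularGroup.T]
    rw [hd, _root_.one_zpow, mul_one] at h1 ⊢
    simp only [hF]
    rw [h1]
    congr 1
    rw [modular_T_smul, UpperHalfPlane.coe_vadd, ofReal_one]
    exact E26_T hf hτ' z.2
  have hS : F ∣[κ] S = F := by
    ext z
    have h1 := congrFun ModularForm.discriminant_S_invariant z
    rw [ModularForm.SL_slash_apply] at h1 ⊢
    rw [denom_S] at h1 ⊢
    have hz : (z : ℂ) ≠ 0 := z.ne_zero
    have h2 : ModularForm.discriminant (S • z) = (z : ℂ) ^ 12 * ModularForm.discriminant z := by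
      rw [← h1]
      field_simp
    have h3 : ((S • z : ℍ) : ℂ) = -1 / (z : ℂ) := by
      rw [modular_S_smul]
      show (-(z : ℂ))⁻¹ = -1 / z
      rw [inv_neg, neg_div, one_div]
    have h4 : (z : ℂ) ^ (-κ) = (z : ℂ) ^ (12 * k) / (z : ℂ) ^ w := by
      rw [hκ, neg_sub, zpow_sub₀ hz, zpow_natCast]
      congr 1
    have h5 := ModularForm.discriminant_ne_zero z
    simp only [hF]
    rw [h2, h3, E26_S hf hτ' z.2, h4]
    rw [mul_pow, ← pow_mul]
    field_simp
  have hslash := SlashInvariantForm.slash_action_generators_SL2Z hS hT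
  let M : ModularForm 𝒮ℒ κ :=
    { toFun := F
      slash_action_eq' := fun _ ⟨γ, hγ⟩ => hγ ▸ hslash γ
      holo' := by
        show MDiff F
        rw [UpperHalfPlane.mdifferentiable_iff]
        have h1 : DifferentiableOn ℂ (fun z : ℂ => f (blk z 0 τ') / (ModularForm.eta z ^ 24) ^ k)
            {z | 0 < z.im} := by
          refine (E26_diff hf hτ').div ?_ ?_
          · intro z hz
            exact (((ModularForm.differentiableAt_eta_of_mem_upperHalfPlaneSet hz).pow
              24).pow k).differentiableWithinAt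
          · intro z hz
            exact pow_ne_zero _ (pow_ne_zero _ (ModularForm.eta_ne_zero hz))
        refine h1.congr fun z hz => ?_
        simp only [Function.comp_apply, hF, ModularForm.discriminant, ofComplex_apply_of_im_pos hz]
      bdd_at_cusps' := by
        intro c hc
        rw [Subgroup.IsArithmetic.isCusp_iff_isCusp_SL2Z] at hc
        rw [OnePoint.isBoundedAt_iff_forall_SL2Z hc]
        intro γ _
        show IsBoundedAtImInfty (F ∣[κ] γ)
        rw [hslash γ]
        obtain ⟨C, hC⟩ := E26_decay hf hτ'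
        have h1 : (fun z : ℍ => f (blk (z : ℂ) 0 τ')) =O[atImInfty]
            fun z : ℍ => Real.exp (-2 * Real.pi * z.im) ^ k := by
          refine .of_bound C ?_
          rw [Filter.Eventually, atImInfty_mem]
          refine ⟨1, fun z hz => ?_⟩
          have h2 := hC z hz
          rw [Set.mem_ofPred_eq, Real.norm_of_nonneg (by positivity)]
          exact h2
        have h2 : (fun z : ℍ => f (blk (z : ℂ) 0 τ')) =O[atImInfty]
            fun z : ℍ => ModularForm.discriminant z ^ k :=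
          h1.trans (ModularForm.exp_isBigO_discriminant.pow k)
        exact (div_isBoundedUnder_of_isBigO h2).isBigO_one ℝ }
  have hM : (M : ℍ → ℂ) = 0 := ModularFormClass.levelOne_neg_weight_eq_zero hκneg M
  have hM2 : F ⟨z0, hz0⟩ = 0 := congrFun hM ⟨z0, hz0⟩
  simp only [hF, div_eq_zero_iff] at hM2
  rcases hM2 with h | h
  · exact h
  · exact absurd h (hΔ0 _)

end E26

end DG
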