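import Pool.Agent.helper32.DG.C0
import Pool.Agent.helper32.DG.E28
import Pool.Agent.helper32.DG.E27a

/-!
# E27 : equivalent points

PROOF. Write `γ = (A B; C D)`.  For `l ≥ 0`: `act γ (pt τ Y l) * den γ (pt τ Y l) = num γ (pt τ Y l)` (`DF.C1_act_den`), i.e.
`(τ₁ + i l Y₁)(C τ + D + i l C Y) = A τ + B + i l A Y`, a polynomial identity in `l`, valid for all `l ≥ 0`: so
(l²) `Y₁ C Y = 0`, (l¹) `τ₁ C Y + Y₁ (Cτ + D) = A Y`.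
Im: for `σ = pt τ Y l`, `(den σ)ᴴ (im (act γ σ)) (den σ) = im σ` (standard; compare `DF.C2_congr`), i.e.
`(M + i l C Y)ᴴ (im τ₁ + l Y₁) (M + i l C Y) = im τ + l Y`, `M = Cτ + D`; the coefficient of `l²`, using `Y₁ C Y = 0`
(and its transpose `Y Cᵀ Y₁ = 0`; `Y₁` symmetric real), is `(C Y)ᵀ (im τ₁) (C Y) = 0`, so `C Y = 0` (positive definite).
Hence `den γ (pt τ Y l) = M` for all `l`, and `Y₁ M = A Y`.
Let `Y = ∑ l_v v vᵀ` (`IsRep Y c`).  Dropping the terms with `l_v = 0` (or treating them separately, see below)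
`C Y = 0` gives `C v = 0` whenever `l_v > 0`: `Y Cᵀ = 0`, so for each row `ρ` of `C`: `0 = ρ ⬝ Y ρ = ∑ l_v (ρ·v)²`.  Then
`(A v)ᵀ M = vᵀ` (`Aᵀ C` symmetric, `Aᵀ D - Cᵀ B = 1`: `vᵀ Aᵀ (C τ + D) = vᵀ Cᵀ A τ + vᵀ (1 + Cᵀ B) = vᵀ`), so `A v ≠ 0`, `v ↦ A v` is
injective on these `v`, and `∑ l_v (A v)(A v)ᵀ M = ∑ l_v (A v) vᵀ = A Y = Y₁ M`, so `Y₁ = ∑ l_v (A v)(A v)ᵀ`: `IsRep Y₁ c`.
A term with `l_v = 0` contributes nothing to `c` (filter the finset by `l_v > 0` first).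
So `IsRep Y c → IsRep Y₁ c`.  The inverse `γ'` of `γ` (symplectic) satisfies
`act γ' (pt τ₁ Y₁ l) = pt τ Y l`, `Y` is symmetric, so `IsRep Y₁ c → IsRep Y c`.  Hence `DD Y₁ = DD Y`.
`NonzeroAt_equiv`: `f (pt τ₁ Y₁ l) = det(M)^w f (pt τ Y l)` for `l ≥ 0`, `det M ≠ 0`.
-/

set_option linter.unusedVariables false
set_option linter.unusedSectionVars false

namespace DG

open Matrix Complex Filter Topology Asymptotics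

attribute [local instance] Matrix.normedAddCommGroup Matrix.normedSpace

theorem DD_equiv {g : ℕ} {γ : Matrix (Fin g ⊕ Fin g) (Fin g ⊕ Fin g) ℤ}
    (hγ : γ ∈ Matrix.symplecticGroup (Fin g) ℤ) {τ τ₁ : Mt g} (hτ : τ ∈ HH g) (hτ₁ : τ₁ ∈ HH g)
    {Y Y₁ : Matrix (Fin g) (Fin g) ℝ} (hY : InCone Y) (hs : Y₁.IsSymm)
    (hact : ∀ l : ℝ, 0 ≤ l → DF.act γ (pt τ Y l) = pt τ₁ Y₁ l) :
    InCone Y₁ ∧ DD Y₁ = DD Y := by
  sorry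

theorem NonzeroAt_equiv {g : ℕ} {γ : Matrix (Fin g ⊕ Fin g) (Fin g ⊕ Fin g) ℤ}
    (hγ : γ ∈ Matrix.symplecticGroup (Fin g) ℤ) {τ τ₁ : Mt g} (hτ : τ ∈ HH g) (hτ₁ : τ₁ ∈ HH g)
    {Y Y₁ : Matrix (Fin g) (Fin g) ℝ} (hY : InCone Y) (hs : Y₁.IsSymm)
    (hact : ∀ l : ℝ, 0 ≤ l → DF.act γ (pt τ Y l) = pt τ₁ Y₁ l) {w k : ℕ} {f : Mt g → ℂ}
    (hf : IsSec g w k f) (h : NonzeroAt k f τ₁ Y₁) : NonzeroAt k f τ Y := by
  sorry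

end DG
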