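import Pool.Agent.helper32.DG.C0
import Pool.Agent.helper32.DG.E02

/-!
# E29 : products and powers of sections

PROOF. Pointwise: `holo` by `Hol.mul`, `Hol.pow`; `modular` by algebra; `cusp`: product of the bounds (take
`max C 0` as constants); `NonzeroAt`: product of the limits, `exp (x + y) = exp x exp y`.
`vanish_order`: `f` holomorphic and zero on `H_1 × H_n` is `O(‖zz τ‖)` near `p` (Lipschitz: `f ∘ symm` is analytic, so
Lipschitz near `p`, and `sc 0 τ ∈ HH`, `Blk`, `‖τ - sc 0 τ‖ ≤ ‖zz τ‖`), so `f ^ a = O(‖zz τ‖ ^ a)`, and `‖zz τ‖ ≤ 1` near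
`p`, so for `K ≤ a` it is `O(‖zz τ‖ ^ K)`, also after multiplication with a function bounded near `p`.
-/

set_option linter.unusedVariables false
set_option linter.unusedSectionVars false

namespace DG

open Matrix Complex Filter Topology Asymptotics

attribute [local instance] Matrix.normedAddCommGroup Matrix.normedSpace

theorem IsSec.mul {g w k w' k' : ℕ} {f f' : Mt g → ℂ} (h : IsSec g w k f)
    (h' : IsSec g w' k' f') : IsSec g (w + w') (k + k') (fun τ => f τ * f' τ) := by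
  sorry

theorem IsSec.pow {g w k : ℕ} {f : Mt g → ℂ} (h : IsSec g w k f) (a : ℕ) :
    IsSec g (w * a) (k * a) (fun τ => f τ ^ a) := by
  sorry

theorem NonzeroAt.mul {g k k' : ℕ} {f f' : Mt g → ℂ} {τ : Mt g} {Y : Matrix (Fin g) (Fin g) ℝ}
    (h : NonzeroAt k f τ Y) (h' : NonzeroAt k' f' τ Y) :
    NonzeroAt (k + k') (fun τ => f τ * f' τ) τ Y := by
  sorry

theorem NonzeroAt.pow {g k : ℕ} {f : Mt g → ℂ} {τ : Mt g} {Y : Matrix (Fin g) (Fin g) ℝ}
    (h : NonzeroAt k f τ Y) (a : ℕ) : NonzeroAt (k * a) (fun τ => f τ ^ a) τ Y := by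
  sorry

theorem vanish_order {n : ℕ} {f u : Mt (n + 1) → ℂ} (hf : Hol (n + 1) f) (hu : Hol (n + 1) u)
    (h0 : ∀ τ ∈ HH (n + 1), Blk τ → f τ = 0) {K a : ℕ} (ha : K ≤ a) (p : Mt (n + 1))
    (hp : p ∈ HH (n + 1)) (hB : Blk p) :
    (fun τ => f τ ^ a * u τ) =O[𝓝[HH (n + 1)] p] fun τ => ‖zz τ‖ ^ K := by
  sorry

end DG
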