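import Pool.Agent.helper32.DG.C0
import Pool.Agent.helper32.DG.E06
import Pool.Agent.helper32.DG.E07
import Pool.Agent.helper32.DG.E08
import Pool.Agent.helper32.DG.E11
import Pool.Agent.helper32.DG.E12
import Pool.Agent.helper32.DG.E19
import Pool.Agent.helper32.DG.E20

/-!
# E30a : the canonical extension is compatible

PROOF. Let `J = CJ m h K`, `k = 12 m`, `f = Dl^m` (`ModOne_Dl`), `N = (K+1)/2`, so `K ≤ 2 N`.
`Comp k K J σ` for the generators with `StabM` (`Comp_gT`, `Comp_gU`, `Comp_gJ0`, `Comp_gJs`), so for all `StabM γ`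
(`Comp_stab`).  Let `p`, `act γ p` be `Blk` and use `dichotomy`.  First case: `Comp` and `‖zz τ‖^K ≤ sum`.
Second case: `n ≥ 1` (`no_case`), `n = n' + 1`, `γ = δ * SW * β` (`decomp`).  Put `p₁ = act β p` (`Blk`), `p₂ = act SW p₁`,
`act δ p₂ = act γ p` is `Blk`, so `p₂ = act δ' (act γ p)`, `δ' = δ⁻¹` (`stab_inv`), is `Blk` (`stab_Blk`): by `SW_act` the row `1` of
`p₁` is zero off the diagonal, so `Blk (lo p₁)`.
Near `p`, with `ρ = act β τ`, `σ = act SW ρ`, `act γ τ = act δ σ`: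
`J (act γ τ) - det(den γ τ)^k J τ = [J (act δ σ) - det(den δ σ)^k J σ] + det(den δ σ)^k det(den SW ρ)^k.. `
where `det (den SW ρ)^k = 1` (`SW_det`): `= [..]₁ + det(den δ σ)^k [J σ - J ρ]₂ + det(den δ σ)^k [J ρ - det(den β τ)^k J τ]₃`.
`[..]₁ = O(‖zz σ‖^K)`, `‖zz σ‖ = ‖zz (act δ' (act γ τ))‖ = O(‖zz (act γ τ)‖)` (`stab_zz` for `δ'` at `act γ p`).
`[..]₂ = O((‖zz ρ‖ + ‖zz (lo ρ)‖)^K)` (`swap_bound` with `h0` from `CanP (n'+1) m K h`), `‖zz ρ‖ = O(‖zz τ‖)`, and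
`‖zz (lo ρ)‖ ≤ ‖zz σ‖` (`SW_act`).  `[..]₃ = O(‖zz τ‖^K)`.  `(x + y)^K ≤ 2^K (x^K + y^K)`.
-/

set_option linter.unusedVariables false
set_option linter.unusedSectionVars false

namespace DG

open Matrix Complex Filter Topology Asymptotics

attribute [local instance] Matrix.normedAddCommGroup Matrix.normedSpace

theorem CJ_comp {n m K : ℕ} (hm : 1 ≤ m) {h : Mt n → ℂ} (hh : IsSec n (12 * m) m h)
    (γ : Matrix (Fin (n + 1) ⊕ Fin (n + 1)) (Fin (n + 1) ⊕ Fin (n + 1)) ℤ)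
    (hγ : γ ∈ Matrix.symplecticGroup (Fin (n + 1)) ℤ) (hs : StabM γ) :
    Comp (12 * m) K (CJ m h K) γ := by
  sorry

end DG
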