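import Pool.Agent.helper32.DG.C0
import Pool.Agent.helper32.DG.E06
import Pool.Agent.helper32.DG.E07
import Pool.Agent.helper32.DG.E08
import Pool.Agent.helper32.DG.E11
import Pool.Agent.helper32.DG.E12
import Pool.Agent.helper32.DG.E19
import Pool.Agent.helper32.DG.E20
import Pool.Agent.helper32.DG.E30a

/-!
# E30 : the canonical extension is compatible

PROOF. Let `J = CJ m h K`, `k = 12 m`, `f = Dl^m` (`ModOne_Dl`), `N = (K+1)/2`, so `K ≤ 2 N`.
`Comp k K J σ` for the generators with `StabM` (`Comp_gT`, `Comp_gU`, `Comp_gJ0`, `Comp_gJs`), so for all `StabM γ`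
(`Comp_stab`).  Let `p`, `act γ p` be `Blk` and use `dichotomy`.  First case: `Comp` and `‖zz τ‖^K ≤ sum`.
Second case: `n ≥ 1` (`no_case`), `n = n' + 1`, `γ = δ * SW * β` (`decomp`).  Put `p₁ = act β p` (`Blk`), `p₂ = act SW p₁`,
`act δ p₂ = act γ p` is `Blk`, so `p₂ = act δ' (act γ p)`, `δ' = δ⁻¹` (`stab_inv`), is `Blk` (`stab_Blk`): by `SW_act` the row `1` of
`p₁` is zero off the diagonal, so `Blk (lo p₁)`.
Near `p`, with `ρ = act β τ`, `σ = act SW ρ`, `act γ τ = act δ σ`: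
`J (act γ τ) - det(den γ τ)^k J τ = [J (act δ σ) - det(den δ σ)^k J σ] + det(den δ σ)^k det(den SW ρ)^k.. `
where `det (den SW ρ)^k = 1` (`SW_det`): `= [..]₁ + det(den δ σ)^k [J σ - J ρ]₂ + det(den δ σ)^k [J ρ - det(den β τ)^k J τ]₃`.
`[..]₁ = O(‖zz σ‖^K)`, `‖zz σ‖ = ‖zz (act δ' (act γ τ))‖ = O(‖zz (act γ τ)‖)` (`stab_zz` for `δ'` at `act γ p`).
`[..]₂ = O((‖zz ρ‖ + ‖zz (lo ρ)‖)^K)` (`swap_bound` with `h0` from `CanP (n'+1) m K h`), `‖zz ρ‖ = O(‖zz τ‖)`, and
`‖zz (lo ρ)‖ ≤ ‖zz σ‖` (`SW_act`).  `[..]₃ = O(‖zz τ‖^K)`.  `(x + y)^K ≤ 2^K (x^K + y^K)`.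
-/

set_option linter.unusedVariables false
set_option linter.unusedSectionVars false

namespace DG

open Matrix Complex Filter Topology Asymptotics

attribute [local instance] Matrix.normedAddCommGroup Matrix.normedSpace

private theorem E30_zz_lo {n : ℕ} {ρ : Mt (n + 2)} (hρ : ρ ∈ HH (n + 2)) :
    ‖zz (lo ρ)‖ ≤ ‖zz (DF.act SW ρ)‖ := by
  refine (pi_norm_le_iff_of_nonneg (norm_nonneg _)).2 fun i => ?_
  have h1 : zz (lo ρ) i = zz (DF.act SW ρ) i.succ := by
    have e1 : (Equiv.swap (0 : Fin (n + 2)) 1) 0 = Fin.succ 0 := Equiv.swap_apply_left 0 1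
    have e2 : (Equiv.swap (0 : Fin (n + 2)) 1) i.succ.succ = i.succ.succ := by
      refine Equiv.swap_apply_of_ne_of_ne (Fin.succ_ne_zero _) ?_
      intro h
      have := congrArg Fin.val h
      simp at this
    rw [zz_apply, lo_apply, zz_apply, SW_act hρ, e1, e2]
  rw [h1]
  exact norm_le_pi_norm _ _

private theorem E30_act3 {n : ℕ} {δ β : Matrix (Fin (n + 2) ⊕ Fin (n + 2)) (Fin (n + 2) ⊕ Fin (n + 2)) ℤ}
    (hδ : δ ∈ Matrix.symplecticGroup (Fin (n + 2)) ℤ)
    (hβ : β ∈ Matrix.symplecticGroup (Fin (n + 2)) ℤ) {τ : Mt (n + 2)} (hτ : τ ∈ HH (n + 2)) :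
    DF.act (δ * SW * β) τ = DF.act δ (DF.act SW (DF.act β τ)) ∧
      (DF.den (δ * SW * β) τ).det = (DF.den δ (DF.act SW (DF.act β τ))).det *
        ((DF.den SW (DF.act β τ)).det * (DF.den β τ).det) := by
  have h1 := DF.unit_act β hβ τ hτ
  have h2 := DF.unit_act SW SW_mem _ h1.2
  have h3 := DF.unit_act δ hδ _ h2.2
  have h4 : DF.den (δ * SW) (DF.act β τ) = DF.den δ (DF.act SW (DF.act β τ)) * DF.den SW (DF.act β τ) :=
    DF.den_mul δ SW _ h2.1
  have h5 : IsUnit (DF.den (δ * SW) (DF.act β τ)).det := by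
    rw [h4, Matrix.det_mul]
    exact h3.1.mul h2.1
  constructor
  · rw [DF.act_mul (δ * SW) β τ h1.1 h5, DF.act_mul δ SW _ h2.1 h3.1]
  · rw [DF.den_mul (δ * SW) β τ h1.1, h4, Matrix.det_mul, Matrix.det_mul, mul_assoc]

theorem CJ_compat {n m K : ℕ} (hm : 1 ≤ m) {h : Mt n → ℂ} (hh : IsSec n (12 * m) m h)
    (hc : CanP n m K h) (γ : Matrix (Fin (n + 1) ⊕ Fin (n + 1)) (Fin (n + 1) ⊕ Fin (n + 1)) ℤ)
    (hγ : γ ∈ Matrix.symplecticGroup (Fin (n + 1)) ℤ) (p : Mt (n + 1)) (hp : p ∈ HH (n + 1))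
    (hB : Blk p) (hB' : Blk (DF.act γ p)) :
    (fun τ => CJ m h K (DF.act γ τ) - (DF.den γ τ).det ^ (12 * m) * CJ m h K τ)
      =O[𝓝[HH (n + 1)] p] fun τ => ‖zz τ‖ ^ K + ‖zz (DF.act γ τ)‖ ^ K := by
  rcases dichotomy hγ hp hB hB' with hs | hs
  · refine (CJ_comp hm hh γ hγ hs p hp hB).trans (IsBigO.of_bound 1 (Eventually.of_forall fun τ => ?_))
    rw [one_mul, Real.norm_of_nonneg (by positivity), Real.norm_of_nonneg (by positivity)]
    exact le_add_of_nonneg_right (by positivity)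
  · cases n with
    | zero => exact (no_case hγ hs).elim
    | succ n =>
      obtain ⟨δ, hδ, β, hβ, hsδ, hsβ, rfl⟩ := decomp hγ hs
      obtain ⟨h0, hh0, hc0⟩ := hc
      obtain ⟨δ', hδ', hsδ', hinv, -⟩ := stab_inv hδ hsδ
      have hp1 : DF.act β p ∈ HH (n + 2) := act_mem hβ hp
      have hB1 : Blk (DF.act β p) := stab_Blk hβ hsβ hp hB
      have hp2 : DF.act SW (DF.act β p) ∈ HH (n + 2) := act_mem SW_mem hp1
      have hp3 : DF.act δ (DF.act SW (DF.act β p)) ∈ HH (n + 2) := act_mem hδ hp2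
      have hback : ∀ σ ∈ HH (n + 2), DF.act δ' (DF.act δ σ) = σ := by
        intro σ hσ
        have h1 := DF.unit_act δ hδ σ hσ
        have h2 := DF.unit_act δ' hδ' _ h1.2
        rw [← DF.act_mul δ' δ σ h1.1 h2.1, hinv, (DF.act_one σ).2]
      rw [(E30_act3 hδ hβ hp).1] at hB'
      have hB2 : Blk (DF.act SW (DF.act β p)) := by
        have := stab_Blk hδ' hsδ' hp3 hB'
        rwa [hback _ hp2] at this
      have hBlo : Blk (lo (DF.act β p)) := by
        have h1 := E30_zz_lo hp1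
        have h2 : zz (DF.act SW (DF.act β p)) = 0 := funext hB2
        rw [h2, norm_zero] at h1
        have h3 : zz (lo (DF.act β p)) = 0 := norm_le_zero_iff.1 h1
        exact fun i => congrFun h3 i
      -- the maps
      have tβ : Tendsto (fun τ : Mt (n + 2) => DF.act β τ) (𝓝[HH (n + 2)] p)
          (𝓝[HH (n + 2)] (DF.act β p)) := tendsto_act hβ hp
      have tσ : Tendsto (fun τ : Mt (n + 2) => DF.act SW (DF.act β τ)) (𝓝[HH (n + 2)] p)
          (𝓝[HH (n + 2)] (DF.act SW (DF.act β p))) := (tendsto_act SW_mem hp1).comp tβ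
      have tγ : Tendsto (fun τ : Mt (n + 2) => DF.act δ (DF.act SW (DF.act β τ)))
          (𝓝[HH (n + 2)] p) (𝓝[HH (n + 2)] (DF.act δ (DF.act SW (DF.act β p)))) :=
        (tendsto_act hδ hp2).comp tσ
      have hev : ∀ᶠ τ in 𝓝[HH (n + 2)] p, τ ∈ HH (n + 2) := self_mem_nhdsWithin
      -- bounds for the off-diagonal parts
      have z1 : (fun τ => ‖zz (DF.act β τ)‖) =O[𝓝[HH (n + 2)] p] fun τ => ‖zz τ‖ :=
        stab_zz hβ hsβ hp hB
      have z2 : (fun τ => ‖zz (DF.act SW (DF.act β τ))‖) =O[𝓝[HH (n + 2)] p]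
          fun τ => ‖zz (DF.act δ (DF.act SW (DF.act β τ)))‖ := by
        have h1 := (stab_zz hδ' hsδ' hp3 hB').comp_tendsto tγ
        refine (h1.congr' ?_ EventuallyEq.rfl)
        filter_upwards [hev] with τ hτ
        simp only [Function.comp]
        rw [hback _ (act_mem SW_mem (act_mem hβ hτ))]
      -- the three brackets
      have b1 : (fun τ => CJ m h K (DF.act δ (DF.act SW (DF.act β τ))) -
          (DF.den δ (DF.act SW (DF.act β τ))).det ^ (12 * m) * CJ m h K (DF.act SW (DF.act β τ)))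
          =O[𝓝[HH (n + 2)] p] fun τ => ‖zz (DF.act SW (DF.act β τ))‖ ^ K :=
        (CJ_comp hm hh δ hδ hsδ _ hp2 hB2).comp_tendsto tσ
      have b2 : (fun τ => CJ m h K (DF.act SW (DF.act β τ)) - CJ m h K (DF.act β τ))
          =O[𝓝[HH (n + 2)] p] fun τ => (‖zz (DF.act β τ)‖ + ‖zz (lo (DF.act β τ))‖) ^ K := by
        have h1 := swap_bound (n := n) (k := 12 * m) (N := (K + 1) / 2) (K := K) (by omega) (by omega)
          (ModOne_Dl m).holo hh.holo hh0 hc0 (DF.act β p) hp1 hB1 hBlo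
        exact h1.comp_tendsto tβ
      have b3 : (fun τ => CJ m h K (DF.act β τ) - (DF.den β τ).det ^ (12 * m) * CJ m h K τ)
          =O[𝓝[HH (n + 2)] p] fun τ => ‖zz τ‖ ^ K := CJ_comp hm hh β hβ hsβ p hp hB
      have bd : (fun τ => (DF.den δ (DF.act SW (DF.act β τ))).det ^ (12 * m))
          =O[𝓝[HH (n + 2)] p] fun _ => (1 : ℝ) := by
        have h1 : Continuous fun σ : Mt (n + 2) => (DF.den δ σ).det ^ (12 * m) :=
          ((continuous_den δ).matrix_det).pow _
        exact ((h1.tendsto (DF.act SW (DF.act β p))).comp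
          (tσ.mono_right nhdsWithin_le_nhds)).isBigO_one ℝ
      -- comparison functions
      set g : Mt (n + 2) → ℝ := fun τ => ‖zz τ‖ ^ K +
        ‖zz (DF.act δ (DF.act SW (DF.act β τ)))‖ ^ K with hg
      have g1 : (fun τ : Mt (n + 2) => ‖zz τ‖ ^ K) =O[𝓝[HH (n + 2)] p] g := by
        refine IsBigO.of_bound 1 (Eventually.of_forall fun τ => ?_)
        rw [one_mul, Real.norm_of_nonneg (by positivity), Real.norm_of_nonneg (by positivity)]
        exact le_add_of_nonneg_right (by positivity)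
      have g2 : (fun τ : Mt (n + 2) => ‖zz (DF.act δ (DF.act SW (DF.act β τ)))‖ ^ K)
          =O[𝓝[HH (n + 2)] p] g := by
        refine IsBigO.of_bound 1 (Eventually.of_forall fun τ => ?_)
        rw [one_mul, Real.norm_of_nonneg (by positivity), Real.norm_of_nonneg (by positivity)]
        exact le_add_of_nonneg_left (by positivity)
      have z3 : (fun τ => ‖zz (lo (DF.act β τ))‖) =O[𝓝[HH (n + 2)] p]
          fun τ => ‖zz (DF.act δ (DF.act SW (DF.act β τ)))‖ := by
        refine (IsBigO.of_bound 1 ?_).trans z2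
        filter_upwards [hev] with τ hτ
        rw [one_mul, norm_norm, norm_norm]
        exact E30_zz_lo (act_mem hβ hτ)
      have g3 : (fun τ => (‖zz (DF.act β τ)‖ + ‖zz (lo (DF.act β τ))‖) ^ K)
          =O[𝓝[HH (n + 2)] p] g := by
        have h1 : (fun τ => ‖zz (DF.act β τ)‖ + ‖zz (lo (DF.act β τ))‖) =O[𝓝[HH (n + 2)] p]
            fun τ => ‖zz τ‖ + ‖zz (DF.act δ (DF.act SW (DF.act β τ)))‖ := by
          refine IsBigO.add (z1.trans ?_) (z3.trans ?_)
          · refine IsBigO.of_bound 1 (Eventually.of_forall fun τ => ?_)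
            rw [one_mul, Real.norm_of_nonneg (by positivity), Real.norm_of_nonneg (by positivity)]
            exact le_add_of_nonneg_right (by positivity)
          · refine IsBigO.of_bound 1 (Eventually.of_forall fun τ => ?_)
            rw [one_mul, Real.norm_of_nonneg (by positivity), Real.norm_of_nonneg (by positivity)]
            exact le_add_of_nonneg_left (by positivity)
        refine (h1.pow K).trans (IsBigO.of_bound (2 ^ (K - 1)) (Eventually.of_forall fun τ => ?_))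
        rw [Real.norm_of_nonneg (by positivity), Real.norm_of_nonneg (by positivity)]
        exact add_pow_le (norm_nonneg _) (norm_nonneg _) K
      have t1 := b1.trans ((z2.pow K).trans g2)
      have t2 := bd.mul (b2.trans g3)
      have t3 := bd.mul (b3.trans g1)
      have hsum := (t1.add (t2.congr_right fun τ => one_mul _)).add (t3.congr_right fun τ => one_mul _)
      refine (hsum.congr' ?_ ?_)
      · filter_upwards [hev] with τ hτ
        obtain ⟨e1, e2⟩ := E30_act3 hδ hβ hτ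
        have e3 : (DF.den SW (DF.act β τ)).det ^ (12 * m) = 1 :=
          SW_det (act_mem hβ hτ) ⟨6 * m, by ring⟩
        rw [e1, e2, mul_pow, mul_pow, e3]
        ring
      · filter_upwards [hev] with τ hτ
        rw [hg, (E30_act3 hδ hβ hτ).1]

end DG
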