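import Pool.Agent.helper32.DG.E22
import Pool.Agent.helper32.DG.E25
import Pool.Agent.helper32.DG.E26
import Pool.Agent.helper32.DG.E27
import Pool.Agent.helper32.DG.E29
import Pool.Agent.helper32.DG.E30

/-!
# E31 : the induction
-/

set_option linter.unusedVariables false
set_option linter.unusedSectionVars false

namespace DG

open Matrix Complex Filter Topology Asymptotics

attribute [local instance] Matrix.normedAddCommGroup Matrix.normedSpace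

theorem continuous_zz {n : ℕ} : Continuous (zz : Mt (n + 1) → Fin n → ℂ) := by
  unfold zz
  fun_prop

theorem zz_tendsto {n : ℕ} {p : Mt (n + 1)} (hB : Blk p) :
    Tendsto (fun τ : Mt (n + 1) => ‖zz τ‖) (𝓝[HH (n + 1)] p) (𝓝 0) := by
  have h1 : zz p = 0 := by
    funext i
    exact hB i
  have h2 : Tendsto (fun τ : Mt (n + 1) => ‖zz τ‖) (𝓝 p) (𝓝 ‖zz p‖) :=
    (continuous_zz.norm).continuousAt
  rw [h1, norm_zero] at h2
  exact h2.mono_left nhdsWithin_le_nhds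

theorem zz_pow_mono {n : ℕ} {p : Mt (n + 1)} {K K' : ℕ} (h : K ≤ K')
    {φ : Mt (n + 1) → ℝ} (hφ : Tendsto φ (𝓝[HH (n + 1)] p) (𝓝 0)) (h0 : ∀ τ, 0 ≤ φ τ) :
    (fun τ => φ τ ^ K') =O[𝓝[HH (n + 1)] p] fun τ => φ τ ^ K := by
  refine IsBigO.of_bound 1 ?_
  have h1 : ∀ᶠ τ in 𝓝[HH (n + 1)] p, φ τ < 1 := hφ.eventually (gt_mem_nhds one_pos)
  filter_upwards [h1] with τ hτ
  rw [Real.norm_of_nonneg (pow_nonneg (h0 τ) _), Real.norm_of_nonneg (pow_nonneg (h0 τ) _), one_mul]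
  exact pow_le_pow_of_le_one (h0 τ) hτ.le h

theorem IsJet.mono {n m K K' : ℕ} {J : Mt (n + 1) → ℂ} (h : IsJet n m K' J) (hK : K ≤ K') :
    IsJet n m K J := by
  refine ⟨h.holo, fun γ hγ p hp hB hB' => (h.compat γ hγ p hp hB hB').trans ?_,
    fun j hj => h.cusp j (hj.trans_le hK)⟩
  have h1 := zz_tendsto hB
  have h2 : Tendsto (fun τ : Mt (n + 1) => ‖zz (DF.act γ τ)‖) (𝓝[HH (n + 1)] p) (𝓝 0) :=
    (zz_tendsto hB').comp (tendsto_act hγ hp)
  have h3 := zz_pow_mono hK h1 (fun _ => norm_nonneg _)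
  have h4 := zz_pow_mono hK h2 (fun _ => norm_nonneg _)
  refine IsBigO.add ?_ ?_
  · refine h3.trans (IsBigO.of_bound 1 (Eventually.of_forall fun τ => ?_))
    rw [Real.norm_of_nonneg (by positivity), Real.norm_of_nonneg (by positivity), one_mul]
    exact le_add_of_nonneg_right (by positivity)
  · refine h4.trans (IsBigO.of_bound 1 (Eventually.of_forall fun τ => ?_))
    rw [Real.norm_of_nonneg (by positivity), Real.norm_of_nonneg (by positivity), one_mul]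
    exact le_add_of_nonneg_left (by positivity)

theorem Dz_zero_fun {n : ℕ} (j : ℕ) (z : Fin n → ℂ) (τ' : Mt n) : Dz (fun _ => (0 : ℂ)) j z τ' = 0 := by
  unfold Dz
  simp

theorem CJ_zero_fun {n m K : ℕ} (τ : Mt (n + 1)) : CJ m (fun _ => (0 : ℂ)) K τ = 0 := by
  unfold CJ PJ
  simp [Dz_zero_fun]

theorem CJ_Blk {n m K : ℕ} (hK : 1 ≤ K) {h : Mt n → ℂ} {τ : Mt (n + 1)} (hB : Blk τ) :
    CJ m h K τ = Dl (τ 0 0) ^ m * h (lo τ) := by
  have hz : zz τ = 0 := by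
    funext i
    exact hB i
  have hD : ∀ j, Dz h j (zz τ) (lo τ) = if j = 0 then h (lo τ) else 0 := by
    intro j
    rw [hz]
    unfold Dz
    simp only [vecMulVec_zero, smul_zero, add_zero]
    rw [iteratedDeriv_const]
  unfold CJ PJ
  rw [Finset.sum_eq_single 0]
  · rw [hD]
    simp [cst]
  · intro j _ hj
    rw [hD, if_neg hj]
    simp
  · intro h0
    exfalso
    apply h0
    rw [Finset.mem_range]
    omega

theorem CJ_diff {n m K K' : ℕ} (hK : K ≤ K') {h : Mt n → ℂ} (hh : Hol n h) (p : Mt (n + 1))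
    (hp : p ∈ HH (n + 1)) (hB : Blk p) :
    (fun τ => CJ m h K' τ - CJ m h K τ) =O[𝓝[HH (n + 1)] p] fun τ => ‖zz τ‖ ^ K := by
  have hf := (ModOne_Dl m).holo
  refine radial_zz K _ ((Hol_PJ hf _ hh _).sub (Hol_PJ hf _ hh _)) p hp hB fun τ hτ => ?_
  obtain ⟨d, hd⟩ : ∃ d, (K' + 1) / 2 = (K + 1) / 2 + d := ⟨(K' + 1) / 2 - (K + 1) / 2, by omega⟩
  have h1 : ∀ t : ℂ, PJ (fun x => Dl x ^ m) (12 * m) h ((K' + 1) / 2) (sc t τ) -
      PJ (fun x => Dl x ^ m) (12 * m) h ((K + 1) / 2) (sc t τ) = ∑ j ∈ Finset.range d,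
      t ^ (2 * ((K + 1) / 2 + j)) * (iteratedDeriv ((K + 1) / 2 + j) (fun x => Dl x ^ m) (τ 0 0) *
        Dz h ((K + 1) / 2 + j) (zz τ) (lo τ) / cst (12 * m) ((K + 1) / 2 + j)) := by
    intro t
    unfold PJ
    rw [hd, Finset.sum_range_add, add_sub_cancel_left]
    refine Finset.sum_congr rfl fun j _ => ?_
    have e1 : zz (sc t τ) = t • zz τ := rfl
    have e2 : lo (sc t τ) = lo τ := rfl
    have e3 : (sc t τ) 0 0 = τ 0 0 := rfl
    rw [e1, e2, e3, Dz_smul hh _ _ _ (HH_lo hτ)]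
    ring
  simp only [h1]
  refine IsBigO.fun_sum fun j _ => ?_
  refine IsBigO.of_bound ‖iteratedDeriv ((K + 1) / 2 + j) (fun x => Dl x ^ m) (τ 0 0) *
        Dz h ((K + 1) / 2 + j) (zz τ) (lo τ) / cst (12 * m) ((K + 1) / 2 + j)‖ ?_
  have h2 : ∀ᶠ t : ℂ in 𝓝 0, ‖t‖ < 1 := by
    have := (continuous_norm (E := ℂ)).tendsto 0
    rw [norm_zero] at this
    exact this.eventually (gt_mem_nhds one_pos)
  filter_upwards [h2] with t ht
  rw [norm_mul, mul_comm, norm_pow, norm_pow]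
  exact mul_le_mul_of_nonneg_left
    (pow_le_pow_of_le_one (norm_nonneg _) ht.le (by omega)) (norm_nonneg _)

/-- the statement of the induction -/
def Q (g : ℕ) : Prop :=
  ∀ τ ∈ HH g, ∀ Y : Matrix (Fin g) (Fin g) ℝ, InCone Y → ∀ K : ℕ, ∃ N : ℕ, 1 ≤ N ∧
    ∀ m : ℕ, 1 ≤ m → N ∣ m → ∃ F : Mt g → ℂ, IsSec g (12 * m) m F ∧ CanP g m K F ∧ NonzeroAt m F τ Y

theorem Q_zero : Q 0 := by
  intro τ hτ Y hY K
  refine ⟨1, le_rfl, fun m hm _ => ⟨fun _ => 1, ⟨Hol.const 0 1, ?_, ?_⟩, trivial, ?_⟩⟩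
  · intro γ hγ τ hτ
    rw [Matrix.det_fin_zero, one_pow, one_mul]
  · intro τ hτ v hv
    exact absurd (Subsingleton.elim v 0) hv
  · refine ⟨1, one_ne_zero, ?_⟩
    simp only [DD_zero, mul_zero, Real.exp_zero, Complex.ofReal_one, mul_one]
    exact tendsto_const_nhds

theorem isJet_CJ {n m K : ℕ} (hm : 1 ≤ m) {h : Mt n → ℂ} (hh : IsSec n (12 * m) m h)
    (hc : CanP n m K h) : IsJet n m K (CJ m h K) :=
  ⟨Hol_PJ (ModOne_Dl m).holo _ hh.holo _,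
    fun γ hγ p hp hB hB' => CJ_compat hm hh hc γ hγ p hp hB hB',
    fun j _ ζ τ hτ hB w hw hw' => CJ_cusp hh j ζ τ hτ hB w hw hw'⟩

theorem Q_step_split {n : ℕ} (hF : Extension n) (hQ : Q n) {τ : Mt (n + 1)} (hτ : τ ∈ HH (n + 1))
    {Y : Matrix (Fin (n + 1)) (Fin (n + 1)) ℝ} (hY : InCone Y) (hs : Split τ Y) (K : ℕ) :
    ∃ N : ℕ, 1 ≤ N ∧ ∀ m : ℕ, 1 ≤ m → N ∣ m → ∃ F : Mt (n + 1) → ℂ,
      IsSec (n + 1) (12 * m) m F ∧ CanP (n + 1) m K F ∧ NonzeroAt m F τ Y := by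
  obtain ⟨γ, hγ, τ₁, hτ₁, Y₁, hB, hY0, hYs, hact⟩ := hs
  obtain ⟨hY₁, hDD⟩ := DD_equiv hγ hτ hτ₁ hY hYs hact
  obtain ⟨hY', hy, hDDb⟩ := DD_block hY₁ hY0
  obtain ⟨K₁, N₁, hN₁, hext⟩ := hF (max K 1)
  set K₂ := max K₁ (max K 1) with hK₂
  obtain ⟨N₂, hN₂, hQ'⟩ := hQ (lo τ₁) (HH_lo hτ₁) _ hY' K₂
  refine ⟨N₁ * N₂, Nat.mul_pos hN₁ hN₂, fun m hm hdvd => ?_⟩
  obtain ⟨h, hh, hcan, hne⟩ := hQ' m hm (dvd_of_mul_left_dvd hdvd)
  have hjet : IsJet n m K₁ (CJ m h K₂) := (isJet_CJ hm hh hcan).mono (le_max_left _ _)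
  obtain ⟨F, hFsec, hFO⟩ := hext m hm (dvd_of_mul_right_dvd hdvd) _ hjet
  refine ⟨F, hFsec, ?_, ?_⟩
  · refine ⟨h, hh.holo, fun p hp hBp => ?_⟩
    have h1 := hFO p hp hBp
    have h2 : (fun τ => CJ m h K₂ τ - CJ m h K τ) =O[𝓝[HH (n + 1)] p] fun τ => ‖zz τ‖ ^ K :=
      CJ_diff ((le_max_left K 1).trans (le_max_right K₁ _)) hh.holo p hp hBp
    have h3 := h1.trans (zz_pow_mono (le_max_left K 1) (zz_tendsto hBp) fun _ => norm_nonneg _)
    refine (h3.add h2).congr_left fun τ => ?_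
    ring
  · refine NonzeroAt_equiv hγ hτ hτ₁ hY hYs hact hFsec ?_
    -- the value at block diagonal points
    have hval : ∀ p ∈ HH (n + 1), Blk p → F p = Dl (p 0 0) ^ m * h (lo p) := by
      intro p hp hBp
      have h1 := hFO p hp hBp
      rw [← CJ_Blk (m := m) (h := h) (K := K₂) (le_trans (le_max_right K 1) (le_max_right K₁ _)) hBp]
      obtain ⟨C, hC⟩ := h1.bound
      have h2 := hC.self_of_nhdsWithin hp
      have hz : zz p = 0 := by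
        funext i
        exact hBp i
      have h4 : ‖F p - CJ m h K₂ p‖ ≤ 0 := by
        refine h2.trans_eq ?_
        simp only [hz, norm_zero]
        rw [zero_pow (by omega)]
        simp
      exact sub_eq_zero.1 (norm_le_zero_iff.1 h4)
    obtain ⟨c₁, hc₁, ht₁⟩ := Dl_lim m (τ₁ 0 0) (im_pos_00 hτ₁) (Y₁ 0 0) hy
    obtain ⟨c₂, hc₂, ht₂⟩ := hne
    refine ⟨c₁ * c₂, mul_ne_zero hc₁ hc₂, (ht₁.mul ht₂).congr' ?_⟩
    filter_upwards [eventually_ge_atTop (0 : ℝ)] with l hl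
    have hBl : Blk (pt τ₁ Y₁ l) := by
      intro i
      simp only [pt, Matrix.add_apply, Matrix.smul_apply, Matrix.map_apply, hY0 i]
      rw [hB i]
      simp
    rw [hval _ (pt_mem hτ₁ hY₁ hl) hBl]
    have e1 : (pt τ₁ Y₁ l) 0 0 = τ₁ 0 0 + ((l : ℂ) * I) * (Y₁ 0 0 : ℂ) := by
      simp [pt]
    have e2 : lo (pt τ₁ Y₁ l) = pt (lo τ₁) (Y₁.submatrix Fin.succ Fin.succ) l := by
      ext i j
      simp [pt, lo]
    rw [e1, e2, hDDb]
    have e3 : Real.exp (2 * Real.pi * (m : ℝ) * l * (Y₁ 0 0 + DD (Y₁.submatrix Fin.succ Fin.succ))) =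
        Real.exp (2 * Real.pi * (m : ℝ) * l * Y₁ 0 0) *
        Real.exp (2 * Real.pi * (m : ℝ) * l * DD (Y₁.submatrix Fin.succ Fin.succ)) := by
      rw [← Real.exp_add]
      congr 1
      ring
    rw [e3]
    push_cast
    ring

theorem Q_step_nonsplit {n : ℕ} (hSB : ShepherdBarron n) {τ : Mt (n + 1)} (hτ : τ ∈ HH (n + 1))
    {Y : Matrix (Fin (n + 1)) (Fin (n + 1)) ℝ} (hY : InCone Y) (hs : ¬ Split τ Y) (K : ℕ) :
    ∃ N : ℕ, 1 ≤ N ∧ ∀ m : ℕ, 1 ≤ m → N ∣ m → ∃ F : Mt (n + 1) → ℂ,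
      IsSec (n + 1) (12 * m) m F ∧ CanP (n + 1) m K F ∧ NonzeroAt m F τ Y := by
  obtain ⟨w, k, f, hw, hf, hfne⟩ := hSB τ hτ Y hY hs
  obtain ⟨e, he, u, hu, hune⟩ := exists_u hτ hY
  have hk : 1 ≤ k := by
    rcases Nat.eq_zero_or_pos k with h | h
    · subst h
      omega
    · exact h
  refine ⟨e * (K + 1) * k, Nat.mul_pos (Nat.mul_pos he (Nat.succ_pos K)) hk, fun m hm hdvd => ?_⟩
  obtain ⟨a', rfl⟩ := hdvd
  have ha' : 1 ≤ a' := by
    rcases Nat.eq_zero_or_pos a' with h | h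
    · subst h
      omega
    · exact h
  set a := e * (K + 1) * a' with ha
  set b := (K + 1) * a' * (12 * k - w) with hb
  have hwt : w * a + e * b = 12 * (e * (K + 1) * k * a') := by
    have h1 : 12 * k - w + w = 12 * k := by omega
    calc w * a + e * b = e * (K + 1) * a' * ((12 * k - w) + w) := by rw [ha, hb]; ring
      _ = 12 * (e * (K + 1) * k * a') := by rw [h1]; ring
  have hkt : k * a + 0 * b = e * (K + 1) * k * a' := by rw [ha]; ring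
  have hF1 := (hf.pow a).mul (hu.pow b)
  rw [hwt, hkt] at hF1
  refine ⟨fun τ => f τ ^ a * u τ ^ b, hF1, ?_, ?_⟩
  · refine ⟨fun _ => 0, Hol.const n 0, fun p hp hB => ?_⟩
    simp only [CJ_zero_fun, sub_zero]
    refine vanish_order hf.holo (hu.holo.pow b) (slope_vanish hf hw) ?_ p hp hB
    rw [ha]
    calc K ≤ K + 1 := Nat.le_succ K
      _ = 1 * (K + 1) * 1 := by ring
      _ ≤ e * (K + 1) * a' := Nat.mul_le_mul (Nat.mul_le_mul_right _ he) ha'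
  · have h2 := (hfne.pow a).mul (hune.pow b)
    rwa [hkt] at h2

theorem Q_all (hSB : ∀ n, ShepherdBarron n) (hF : ∀ n, Extension n) (g : ℕ) : Q g := by
  induction g with
  | zero => exact Q_zero
  | succ n ih =>
    intro τ hτ Y hY K
    by_cases hs : Split τ Y
    · exact Q_step_split (hF n) ih hτ hY hs K
    · exact Q_step_nonsplit (hSB n) hτ hY hs K

theorem main (hSB : ∀ n, ShepherdBarron n) (hF : ∀ n, Extension n) (g : ℕ) :
    ∀ τ ∈ HH g, ∀ Y : Matrix (Fin g) (Fin g) ℝ, InCone Y →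
      ∃ m : ℕ, 1 ≤ m ∧ ∃ f : Mt g → ℂ, IsSec g (12 * m) m f ∧ NonzeroAt m f τ Y := by
  intro τ hτ Y hY
  obtain ⟨N, hN, h⟩ := Q_all hSB hF g τ hτ Y hY 0
  obtain ⟨F, h1, _, h3⟩ := h N hN dvd_rfl
  exact ⟨N, hN, F, h1, h3⟩

end DG
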